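import Mathlib

set_option autoImplicit false

namespace Pool.Agent.Helper50_Stretch

/-! ### averages over finite types -/

/-- average of a real function over a finite type -/
noncomputable def avg {Ω : Type*} [Fintype Ω] (h : Ω → ℝ) : ℝ := (∑ ω, h ω) / Fintype.card Ω

section avg
variable {Ω Ω' : Type*} [Fintype Ω] [Fintype Ω']

theorem avg_add (f g : Ω → ℝ) : avg (fun ω => f ω + g ω) = avg f + avg g := by
  unfold avg; rw [Finset.sum_add_distrib, add_div]

theorem avg_sub (f g : Ω → ℝ) : avg (fun ω => f ω - g ω) = avg f - avg g := by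
  unfold avg; rw [Finset.sum_sub_distrib, sub_div]

theorem avg_neg (f : Ω → ℝ) : avg (fun ω => - f ω) = - avg f := by
  unfold avg; rw [Finset.sum_neg_distrib, neg_div]

theorem avg_const_mul (c : ℝ) (f : Ω → ℝ) : avg (fun ω => c * f ω) = c * avg f := by
  unfold avg; rw [← Finset.mul_sum, mul_div_assoc]

theorem avg_mul_const (c : ℝ) (f : Ω → ℝ) : avg (fun ω => f ω * c) = avg f * c := by
  unfold avg; rw [← Finset.sum_mul, mul_div_right_comm]

theorem avg_div_const (c : ℝ) (f : Ω → ℝ) : avg (fun ω => f ω / c) = avg f / c := by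
  simp only [div_eq_mul_inv]; exact avg_mul_const _ _

theorem avg_const [Nonempty Ω] (c : ℝ) : avg (fun _ : Ω => c) = c := by
  unfold avg
  rw [Finset.sum_const, Finset.card_univ, nsmul_eq_mul]
  have : (Fintype.card Ω : ℝ) ≠ 0 := by exact_mod_cast Fintype.card_ne_zero
  field_simp

theorem avg_zero : avg (fun _ : Ω => (0:ℝ)) = 0 := by
  unfold avg; simp

theorem avg_sum {α : Type*} (s : Finset α) (f : α → Ω → ℝ) :
    avg (fun ω => ∑ a ∈ s, f a ω) = ∑ a ∈ s, avg (f a) := by
  unfold avg; rw [Finset.sum_comm, Finset.sum_div]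

set_option linter.unusedSectionVars false

theorem avg_mono {f g : Ω → ℝ} (h : ∀ ω, f ω ≤ g ω) : avg f ≤ avg g := by
  unfold avg
  exact div_le_div_of_nonneg_right (Finset.sum_le_sum (fun ω _ => h ω)) (Nat.cast_nonneg _)

theorem avg_nonneg {f : Ω → ℝ} (h : ∀ ω, 0 ≤ f ω) : 0 ≤ avg f := by
  unfold avg
  exact div_nonneg (Finset.sum_nonneg (fun ω _ => h ω)) (Nat.cast_nonneg _)

theorem avg_congr {f g : Ω → ℝ} (h : ∀ ω, f ω = g ω) : avg f = avg g := by
  have : f = g := funext h
  rw [this]

theorem abs_avg_le (f : Ω → ℝ) : |avg f| ≤ avg (fun ω => |f ω|) := by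
  unfold avg
  rw [abs_div, abs_of_nonneg (Nat.cast_nonneg (Fintype.card Ω) : (0:ℝ) ≤ _)]
  exact div_le_div_of_nonneg_right (Finset.abs_sum_le_sum_abs _ _) (Nat.cast_nonneg _)

theorem avg_comm (f : Ω → Ω' → ℝ) :
    avg (fun ω => avg (fun ω' => f ω ω')) = avg (fun ω' => avg (fun ω => f ω ω')) := by
  unfold avg
  rw [← Finset.sum_div, ← Finset.sum_div, Finset.sum_comm, div_div, div_div, mul_comm]

theorem avg_prod (f : Ω × Ω' → ℝ) : avg f = avg (fun ω => avg (fun ω' => f (ω, ω'))) := by
  unfold avg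
  rw [← Finset.sum_div, Fintype.sum_prod_type, div_div, Fintype.card_prod, Nat.cast_mul, mul_comm]

theorem avg_equiv (e : Ω ≃ Ω') (f : Ω' → ℝ) : avg (fun ω => f (e ω)) = avg f := by
  unfold avg
  rw [Equiv.sum_comp e f, Fintype.card_congr e]

theorem avg_invol (e : Ω → Ω) (he : Function.Involutive e) (f : Ω → ℝ) :
    avg (fun ω => f (e ω)) = avg f :=
  avg_equiv he.toPerm f

theorem avg_eq_zero_of_odd (e : Ω → Ω) (he : Function.Involutive e) (f : Ω → ℝ)
    (hf : ∀ ω, f (e ω) = - f ω) : avg f = 0 := by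
  have h1 := avg_invol e he f
  have h2 : avg (fun ω => f (e ω)) = - avg f := by
    rw [← avg_neg]; exact avg_congr hf
  linarith

theorem exists_le_avg [Nonempty Ω] (f : Ω → ℝ) : ∃ ω, f ω ≤ avg f := by
  by_contra hcon
  push Not at hcon
  have hpos : (0:ℝ) < Fintype.card Ω := by exact_mod_cast Fintype.card_pos
  have h1 : ∑ _ω : Ω, avg f < ∑ ω, f ω :=
    Finset.sum_lt_sum_of_nonempty Finset.univ_nonempty (fun ω _ => hcon ω)
  rw [Finset.sum_const, Finset.card_univ, nsmul_eq_mul] at h1
  have h2 : avg f * Fintype.card Ω = ∑ ω, f ω := by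
    unfold avg; field_simp
  linarith

/-- resampling one coordinate of a product -/
theorem avg_update {γ : Type*} [Fintype γ] [DecidableEq γ] {W : Type*} [Fintype W] [Nonempty W]
    (c : γ) (F : (γ → W) → ℝ) :
    avg F = avg (fun w : γ → W => avg (fun ω : W => F (Function.update w c ω))) := by
  have h1 : avg (fun w : γ → W => avg (fun ω : W => F (Function.update w c ω)))
      = avg (fun p : (γ → W) × W => F (Function.update p.1 c p.2)) := by
    rw [avg_prod]
  have h2 : Function.Involutive
      (fun p : (γ → W) × W => (Function.update p.1 c p.2, p.1 c)) := by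
    intro p
    simp
  have h3 := avg_invol _ h2 (fun p : (γ → W) × W => F p.1)
  rw [h1]
  have h4 : avg (fun p : (γ → W) × W => F (Function.update p.1 c p.2))
      = avg (fun p : (γ → W) × W => F p.1) := h3
  rw [h4, avg_prod]
  exact avg_congr (fun w => (avg_const _).symm)

theorem avg_cauchy {f g : Ω → ℝ} : (avg (fun ω => f ω * g ω)) ^ 2
    ≤ avg (fun ω => f ω ^ 2) * avg (fun ω => g ω ^ 2) := by
  unfold avg
  rw [div_pow, div_mul_div_comm, ← sq]
  apply div_le_div_of_nonneg_right _ (sq_nonneg _)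
  exact Finset.sum_mul_sq_le_sq_mul_sq _ _ _

end avg

/-! ### the cube -/

/-- `±1` value of a bit -/
def sg (b : Bool) : ℝ := if b then 1 else -1

theorem sg_not (b : Bool) : sg (!b) = - sg b := by cases b <;> simp [sg]

theorem sg_mul_self (b : Bool) : sg b * sg b = 1 := by cases b <;> simp [sg]

theorem sg_sq (b : Bool) : sg b ^ 2 = 1 := by cases b <;> simp [sg]

theorem abs_sg (b : Bool) : |sg b| = 1 := by cases b <;> simp [sg]

section cube
variable {ι : Type*} [DecidableEq ι]

/-- flip coordinate `i` -/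
def flip (i : ι) (y : ι → Bool) : ι → Bool := Function.update y i (!(y i))

theorem flip_same (i : ι) (y : ι → Bool) : flip i y i = !(y i) := by simp [flip]

theorem flip_ne {i j : ι} (h : j ≠ i) (y : ι → Bool) : flip i y j = y j := by simp [flip, h]

theorem flip_flip (i : ι) (y : ι → Bool) : flip i (flip i y) = y := by
  funext j
  by_cases h : j = i
  · subst h; simp [flip]
  · simp [flip, h]

theorem flip_invol (i : ι) : Function.Involutive (flip i : (ι → Bool) → (ι → Bool)) := flip_flip i

/-- negate the coordinates in `C` -/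
def neg (C : Finset ι) (y : ι → Bool) : ι → Bool := fun i => if i ∈ C then !(y i) else y i

theorem neg_invol (C : Finset ι) : Function.Involutive (neg C : (ι → Bool) → (ι → Bool)) := by
  intro y
  funext i
  by_cases h : i ∈ C <;> simp [neg, h]

theorem neg_mem {C : Finset ι} {i : ι} (h : i ∈ C) (y : ι → Bool) : neg C y i = !(y i) := by
  simp [neg, h]

theorem neg_notMem {C : Finset ι} {i : ι} (h : i ∉ C) (y : ι → Bool) : neg C y i = y i := by
  simp [neg, h]

/-- `u` does not depend on the coordinates in `C` -/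
def Off {α : Type*} (C : Finset ι) (u : (ι → Bool) → α) : Prop :=
  ∀ y y', (∀ i, i ∉ C → y i = y' i) → u y = u y'

theorem Off.flip {α : Type*} {C : Finset ι} {u : (ι → Bool) → α} (hu : Off C u) {i : ι}
    (hi : i ∈ C) (y : ι → Bool) : u (flip i y) = u y := by
  apply hu
  intro j hj
  have : j ≠ i := fun h => hj (h ▸ hi)
  exact flip_ne this y

theorem Off.neg {α : Type*} {C : Finset ι} {u : (ι → Bool) → α} (hu : Off C u) {C' : Finset ι}
    (hC : C' ⊆ C) (y : ι → Bool) : u (neg C' y) = u y := by
  apply hu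
  intro j hj
  exact neg_notMem (fun h => hj (hC h)) y

theorem Off.mono {α : Type*} {C C' : Finset ι} {u : (ι → Bool) → α} (hu : Off C u)
    (hC : C' ⊆ C) : Off C' u :=
  fun y y' h => hu y y' (fun i hi => h i (fun h' => hi (hC h')))

/-- take `y` on `S` and `z` off `S` -/
def mix (S : Finset ι) (y z : ι → Bool) : ι → Bool := fun i => if i ∈ S then y i else z i

theorem mix_mem {S : Finset ι} {i : ι} (h : i ∈ S) (y z : ι → Bool) : mix S y z i = y i := by
  simp [mix, h]

theorem mix_notMem {S : Finset ι} {i : ι} (h : i ∉ S) (y z : ι → Bool) : mix S y z i = z i := by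
  simp [mix, h]

variable [Fintype ι]

theorem avg_flip (i : ι) (h : (ι → Bool) → ℝ) : avg (fun y => h (flip i y)) = avg h :=
  avg_invol _ (flip_invol i) h

theorem avg_neg_cube (C : Finset ι) (h : (ι → Bool) → ℝ) : avg (fun y => h (neg C y)) = avg h :=
  avg_invol _ (neg_invol C) h

theorem avg_avg_mix (S : Finset ι) (H : (ι → Bool) → ℝ) :
    avg (fun y => avg (fun z => H (mix S y z))) = avg H := by
  have h2 : Function.Involutive
      (fun p : (ι → Bool) × (ι → Bool) => (mix S p.1 p.2, mix S p.2 p.1)) := by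
    intro p
    apply Prod.ext <;> funext i <;> by_cases h : i ∈ S <;> simp [mix, h]
  have h3 := avg_invol _ h2 (fun p : (ι → Bool) × (ι → Bool) => H p.1)
  have h4 : avg (fun p : (ι → Bool) × (ι → Bool) => H (mix S p.1 p.2))
      = avg (fun p : (ι → Bool) × (ι → Bool) => H p.1) := h3
  rw [avg_prod, avg_prod] at h4
  rw [h4]
  apply avg_congr
  intro y
  exact avg_const (Ω := ι → Bool) (H y)

/-- conditional expectation given the coordinates in `S` -/
noncomputable def cE (S : Finset ι) (h : (ι → Bool) → ℝ) (y : ι → Bool) : ℝ :=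
  avg (fun z => h (mix S y z))

theorem avg_cE (S : Finset ι) (h : (ι → Bool) → ℝ) : avg (cE S h) = avg h := avg_avg_mix S h

theorem off_cE (S : Finset ι) (h : (ι → Bool) → ℝ) : Off Sᶜ (cE S h) := by
  intro y y' hy
  unfold cE
  apply avg_congr
  intro z
  congr 1
  funext i
  by_cases hi : i ∈ S
  · simp only [mix, hi, if_true]
    exact hy i (by simp [hi])
  · simp only [mix, hi, if_false]

theorem cE_mul_left {S : Finset ι} {u : (ι → Bool) → ℝ} (hu : Off Sᶜ u) (h : (ι → Bool) → ℝ) :
    cE S (fun y => u y * h y) = fun y => u y * cE S h y := by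
  funext y
  unfold cE
  rw [← avg_const_mul]
  apply avg_congr
  intro z
  have hz : u (mix S y z) = u y := by
    apply hu
    intro i hi
    have hi' : i ∈ S := by simpa using hi
    simp [mix, hi']
  show u (mix S y z) * h (mix S y z) = u y * h (mix S y z)
  rw [hz]

theorem avg_mul_cE {S : Finset ι} {u : (ι → Bool) → ℝ} (hu : Off Sᶜ u) (h : (ι → Bool) → ℝ) :
    avg (fun y => u y * cE S h y) = avg (fun y => u y * h y) := by
  rw [← avg_cE S (fun y => u y * h y), cE_mul_left hu]

theorem cE_of_off {S : Finset ι} {u : (ι → Bool) → ℝ} (hu : Off Sᶜ u) : cE S u = u := by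
  funext y
  unfold cE
  rw [← avg_const (Ω := ι → Bool) (u y)]
  apply avg_congr
  intro z
  apply hu
  intro i hi
  have hi' : i ∈ S := by simpa using hi
  simp [mix, hi']

theorem cE_add (S : Finset ι) (f g : (ι → Bool) → ℝ) :
    cE S (fun y => f y + g y) = fun y => cE S f y + cE S g y := by
  funext y; exact avg_add _ _

theorem cE_sub (S : Finset ι) (f g : (ι → Bool) → ℝ) :
    cE S (fun y => f y - g y) = fun y => cE S f y - cE S g y := by
  funext y; exact avg_sub _ _

theorem cE_const (S : Finset ι) (c : ℝ) : cE S (fun _ => c) = fun _ => c := by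
  funext y; exact avg_const _

theorem cE_sum {α : Type*} (S : Finset ι) (s : Finset α) (f : α → (ι → Bool) → ℝ) :
    cE S (fun y => ∑ a ∈ s, f a y) = fun y => ∑ a ∈ s, cE S (f a) y := by
  funext y; exact avg_sum _ _

theorem cE_mono {S : Finset ι} {f g : (ι → Bool) → ℝ} (h : ∀ y, f y ≤ g y) (y : ι → Bool) :
    cE S f y ≤ cE S g y := avg_mono (fun z => h _)

theorem le_cE {S : Finset ι} {f : (ι → Bool) → ℝ} {c : ℝ} (h : ∀ y, c ≤ f y) (y : ι → Bool) :
    c ≤ cE S f y := by
  have := cE_mono (S := S) (f := fun _ => c) (g := f) h y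
  rwa [cE_const] at this

theorem cE_le {S : Finset ι} {f : (ι → Bool) → ℝ} {c : ℝ} (h : ∀ y, f y ≤ c) (y : ι → Bool) :
    cE S f y ≤ c := by
  have := cE_mono (S := S) (f := f) (g := fun _ => c) h y
  rwa [cE_const] at this

theorem avg_cE_sq_le (S : Finset ι) (h : (ι → Bool) → ℝ) :
    avg (fun y => cE S h y ^ 2) ≤ avg (fun y => h y ^ 2) := by
  have h1 := avg_mul_cE (off_cE S h) h
  have h2 : avg (fun y => cE S h y * h y) ≤
      avg (fun y => (1/2) * (cE S h y ^ 2) + (1/2) * (h y ^ 2)) := by
    apply avg_mono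
    intro y
    nlinarith [sq_nonneg (cE S h y - h y)]
  rw [avg_add, avg_const_mul, avg_const_mul, ← h1] at h2
  have h3 : avg (fun y => cE S h y ^ 2) = avg (fun y => cE S h y * cE S h y) :=
    avg_congr (fun y => sq _)
  rw [← h3] at h2
  linarith

theorem cE_cE {S S' : Finset ι} (hS : S ⊆ S') (h : (ι → Bool) → ℝ) :
    cE S (cE S' h) = cE S h := by
  funext y
  unfold cE
  have h1 := avg_avg_mix S' (fun z => h (mix S y z))
  rw [← h1]
  apply avg_congr
  intro z
  apply avg_congr
  intro z'
  congr 1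
  funext i
  by_cases hi : i ∈ S
  · simp [mix, hi, hS hi]
  · by_cases hi' : i ∈ S' <;> simp [mix, hi, hi']

theorem mix_flip_of_mem {S : Finset ι} {i : ι} (hi : i ∈ S) (y z : ι → Bool) :
    mix S (flip i y) z = flip i (mix S y z) := by
  funext j
  by_cases h : j = i
  · subst h; simp [mix, hi, flip]
  · by_cases hj : j ∈ S <;> simp [mix, hj, flip, h]

theorem mix_flip_of_notMem {S : Finset ι} {i : ι} (hi : i ∉ S) (y z : ι → Bool) :
    mix S y (flip i z) = flip i (mix S y z) := by
  funext j
  by_cases h : j = i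
  · subst h; simp [mix, hi, flip]
  · by_cases hj : j ∈ S <;> simp [mix, hj, flip, h]

theorem cE_mul_sg_eq_zero {S : Finset ι} {j : ι} (hj : j ∉ S) {u : (ι → Bool) → ℝ}
    (hu : Off {j} u) (y : ι → Bool) : cE S (fun y => u y * sg (y j)) y = 0 := by
  unfold cE
  apply avg_eq_zero_of_odd _ (flip_invol j)
  intro z
  rw [mix_flip_of_notMem hj]
  show u (flip j (mix S y z)) * sg (flip j (mix S y z) j) = - (u (mix S y z) * sg (mix S y z j))
  rw [hu.flip (Finset.mem_singleton_self j), flip_same, sg_not]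
  ring

theorem avg_mul_sg_eq_zero {j : ι} {u : (ι → Bool) → ℝ} (hu : Off {j} u) :
    avg (fun y => u y * sg (y j)) = 0 := by
  apply avg_eq_zero_of_odd _ (flip_invol j)
  intro z
  rw [hu.flip (Finset.mem_singleton_self j), flip_same, sg_not]
  ring

theorem avg_symm (j : ι) (F : (ι → Bool) → ℝ) :
    avg F = avg (fun z => (1/2) * (F z + F (flip j z))) := by
  rw [avg_const_mul, avg_add, avg_flip]; ring

theorem cE_insert {S : Finset ι} {j : ι} (hj : j ∉ S) (f : (ι → Bool) → ℝ) (y : ι → Bool) :
    cE (insert j S) f y = cE S f y + cE S (fun y => f y * sg (y j)) y * sg (y j) := by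
  unfold cE
  rw [← avg_mul_const, ← avg_add]
  rw [avg_symm j (fun ω => f (mix S y ω) + f (mix S y ω) * sg (mix S y ω j) * sg (y j))]
  apply avg_congr
  intro z
  rw [mix_notMem hj, mix_notMem hj, flip_same]
  by_cases h : z j = y j
  · have e1 : mix (insert j S) y z = mix S y z := by
      funext i
      by_cases hi : i = j
      · subst hi; simp [mix, hj, h]
      · by_cases hi' : i ∈ S <;> simp [mix, hi, hi']
    rw [e1, h, sg_not]
    have := sg_mul_self (y j)
    linear_combination (-(1/2) * f (mix S y z) + (1/2) * f (mix S y (flip j z))) * this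
  · have h' : (!z j) = y j := by
      cases hz : z j <;> cases hy : y j <;> simp_all
    have e1 : mix (insert j S) y z = mix S y (flip j z) := by
      funext i
      by_cases hi : i = j
      · subst hi; simp [mix, hj, flip, h']
      · by_cases hi' : i ∈ S <;> simp [mix, hi, hi', flip]
    have h'' : sg (z j) = - sg (y j) := by rw [← h', sg_not]; ring
    rw [e1, h', h'']
    have := sg_mul_self (y j)
    linear_combination ((1/2) * f (mix S y z) - (1/2) * f (mix S y (flip j z))) * this

/-- Lipschitz for single flips -/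
def FLip (lam : ℝ) (f : (ι → Bool) → ℝ) : Prop := ∀ i y, |f (flip i y) - f y| ≤ lam

theorem abs_cE_mul_sg_le {S : Finset ι} {j : ι} (hj : j ∉ S) {f : (ι → Bool) → ℝ} {lam : ℝ}
    (hf : FLip lam f) (y : ι → Bool) : |cE S (fun y => f y * sg (y j)) y| ≤ lam / 2 := by
  have h1 : cE S (fun y => f y * sg (y j)) y
      = avg (fun z => (1/2) * ((f (mix S y z) - f (mix S y (flip j z))) * sg (z j))) := by
    rw [avg_const_mul]
    have e1 : avg (fun z => (f (mix S y z) - f (mix S y (flip j z))) * sg (z j))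
        = avg (fun z => f (mix S y z) * sg (z j))
          - avg (fun z => f (mix S y (flip j z)) * sg (z j)) := by
      rw [← avg_sub]; apply avg_congr; intro z; ring
    have e2 : avg (fun z => f (mix S y (flip j z)) * sg (z j))
        = - avg (fun z => f (mix S y z) * sg (z j)) := by
      rw [← avg_flip j (fun z => f (mix S y z) * sg (z j)), ← avg_neg]
      apply avg_congr; intro z
      rw [flip_same, sg_not]; ring
    rw [e1, e2]
    unfold cE
    have e3 : avg (fun z => f (mix S y z) * sg (mix S y z j))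
        = avg (fun z => f (mix S y z) * sg (z j)) := by
      apply avg_congr; intro z; rw [mix_notMem hj]
    rw [e3]; ring
  rw [h1]
  refine (abs_avg_le _).trans ?_
  rw [← avg_const (Ω := ι → Bool) (lam / 2)]
  apply avg_mono
  intro z
  rw [abs_mul, abs_mul, abs_sg, mul_one, abs_of_pos (by norm_num : (0:ℝ) < 1/2)]
  have := hf j (mix S y z)
  rw [mix_flip_of_notMem hj, abs_sub_comm]
  linarith

/-- Bessel's inequality for the coordinate functions. -/
theorem bessel (C : Finset ι) (D : (ι → Bool) → ℝ) :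
    ∑ j ∈ C, (avg (fun z => D z * sg (z j))) ^ 2 ≤ avg (fun z => D z ^ 2) := by
  set c : ι → ℝ := fun j => avg (fun z => D z * sg (z j)) with hc
  have h0 : 0 ≤ avg (fun z => (D z - ∑ j ∈ C, c j * sg (z j)) ^ 2) :=
    avg_nonneg (fun z => sq_nonneg _)
  have h1 : avg (fun z => (D z - ∑ j ∈ C, c j * sg (z j)) ^ 2)
      = avg (fun z => D z ^ 2) - 2 * ∑ j ∈ C, c j * avg (fun z => D z * sg (z j))
        + ∑ i ∈ C, ∑ j ∈ C, c i * c j * avg (fun z : ι → Bool => sg (z i) * sg (z j)) := by
    have e : ∀ z : ι → Bool, (D z - ∑ j ∈ C, c j * sg (z j)) ^ 2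
        = D z ^ 2 - 2 * (∑ j ∈ C, c j * (D z * sg (z j)))
          + ∑ i ∈ C, ∑ j ∈ C, c i * c j * (sg (z i) * sg (z j)) := by
      intro z
      have e1 : ∑ j ∈ C, c j * (D z * sg (z j)) = D z * ∑ j ∈ C, c j * sg (z j) := by
        rw [Finset.mul_sum]; exact Finset.sum_congr rfl (fun j _ => by ring)
      have e2 : ∑ i ∈ C, ∑ j ∈ C, c i * c j * (sg (z i) * sg (z j))
          = (∑ j ∈ C, c j * sg (z j)) * (∑ j ∈ C, c j * sg (z j)) := by
        rw [Finset.sum_mul_sum]
        exact Finset.sum_congr rfl (fun i _ => Finset.sum_congr rfl (fun j _ => by ring))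
      rw [e1, e2]; ring
    rw [avg_congr e, avg_add, avg_sub, avg_const_mul, avg_sum, avg_sum]
    congr 2
    · congr 1
      exact Finset.sum_congr rfl (fun j _ => avg_const_mul _ _)
    · funext i
      rw [avg_sum]
      exact Finset.sum_congr rfl (fun j _ => avg_const_mul _ _)
  have h2 : ∀ i j : ι, avg (fun z : ι → Bool => sg (z i) * sg (z j)) = if i = j then 1 else 0 := by
    intro i j
    by_cases h : i = j
    · subst h
      rw [if_pos rfl, ← avg_const (Ω := ι → Bool) (1:ℝ)]
      exact avg_congr (fun z => sg_mul_self _)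
    · rw [if_neg h]
      apply avg_mul_sg_eq_zero (u := fun z => sg (z i))
      intro y y' hy
      have : y i = y' i := hy i (by simpa using h)
      simp only [this]
  have h3 : ∑ i ∈ C, ∑ j ∈ C, c i * c j * avg (fun z : ι → Bool => sg (z i) * sg (z j))
      = ∑ i ∈ C, c i ^ 2 := by
    apply Finset.sum_congr rfl
    intro i hi
    simp only [h2, mul_ite, mul_one, mul_zero]
    rw [Finset.sum_ite_eq C i, if_pos hi]; ring
  have h4 : ∑ j ∈ C, c j * avg (fun z => D z * sg (z j)) = ∑ j ∈ C, c j ^ 2 :=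
    Finset.sum_congr rfl (fun j _ => by rw [hc]; ring)
  rw [h3, h4] at h1
  linarith

end cube

end Pool.Agent.Helper50_Stretch
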