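import Mathlib

set_option autoImplicit false

namespace Pool.Agent.Helper50_Stretch

/-- Egervary's theorem: integral optimal potentials and a tight perfect matching. -/
theorem egervary {X : Type*} [Fintype X] [DecidableEq X] (D : X → X → ℤ)
    (hD : ∀ x y, 0 ≤ D x y) :
    ∃ u v : X → ℤ, ∃ φ : X ≃ X, (∀ x y, u y - v x ≤ D x y) ∧
      ∀ x, u (φ x) - v x = D x (φ x) := by
  classical
  obtain ⟨m, ⟨u, v, huv, hm⟩, hmax⟩ := Int.exists_greatest_of_bdd
    (P := fun m => ∃ u v : X → ℤ, (∀ x y, u y - v x ≤ D x y) ∧ ∑ x, u x - ∑ x, v x = m)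
    ⟨∑ x, D x x, by
      rintro m ⟨u, v, huv, rfl⟩
      rw [← Finset.sum_sub_distrib]
      exact Finset.sum_le_sum (fun x _ => huv x x)⟩
    ⟨0, fun _ => 0, fun _ => 0, by simpa using hD, by simp⟩
  have hall : ∀ A : Finset X,
      A.card ≤ (A.biUnion (fun x => Finset.univ.filter (fun y => u y - v x = D x y))).card := by
    intro A
    by_contra hcon
    push Not at hcon
    set B := A.biUnion (fun x => Finset.univ.filter (fun y => u y - v x = D x y)) with hB
    have hmem : ∀ x y, x ∈ A → y ∉ B → u y - v x ≤ D x y - 1 := by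
      intro x y hx hy
      have h1 := huv x y
      have h2 : u y - v x ≠ D x y := by
        intro h
        apply hy
        rw [hB, Finset.mem_biUnion]
        exact ⟨x, hx, by simp [h]⟩
      omega
    have hnew := hmax (m + (A.card - B.card : ℤ)) ⟨fun y => u y - (if y ∈ B then 1 else 0),
      fun x => v x - (if x ∈ A then 1 else 0), ?_, ?_⟩
    · have : (B.card : ℤ) < A.card := by exact_mod_cast hcon
      omega
    · intro x y
      have h1 := huv x y
      by_cases hx : x ∈ A <;> by_cases hy : y ∈ B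
      · simp only [hx, hy, if_true]; omega
      · have h2 := hmem x y hx hy
        simp only [hx, hy, if_true, if_false]; omega
      · simp only [hx, hy, if_true, if_false]; omega
      · simp only [hx, hy, if_false]; omega
    · rw [Finset.sum_sub_distrib, Finset.sum_sub_distrib]
      simp only [Finset.sum_ite_mem, Finset.univ_inter, Finset.sum_const, nsmul_eq_mul, mul_one]
      omega
  obtain ⟨f, hf, hf'⟩ := (Finset.all_card_le_biUnion_card_iff_exists_injective _).mp hall
  refine ⟨u, v, Equiv.ofBijective f (Finite.injective_iff_bijective.mp hf), huv, ?_⟩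
  intro x
  have := hf' x
  simpa using this

/-- Kantorovich duality for assignments with an integral metric cost. -/
theorem exists_assignment {X Z : Type*} [Fintype X] [DecidableEq X] [Nonempty X]
    (d : Z → Z → ℕ) (hd0 : ∀ z, d z z = 0) (hsymm : ∀ z z', d z z' = d z' z)
    (htri : ∀ z z' z'', d z z'' ≤ d z z' + d z' z'')
    (c α : X → Z) (κ : ℝ)
    (h : ∀ g : Z → ℝ, (∀ z z', |g z - g z'| ≤ d z z') →
      ∑ x, g (α x) - ∑ x, g (c x) ≤ κ) :
    ∃ φ : X ≃ X, ∑ x, (d (c x) (α (φ x)) : ℝ) ≤ κ := by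
  classical
  obtain ⟨u, v, φ, huv, hφ⟩ := egervary (fun x y => (d (c x) (α y) : ℤ)) (fun x y => by positivity)
  refine ⟨φ, ?_⟩
  set g : Z → ℤ := fun z => Finset.univ.inf' Finset.univ_nonempty (fun x => v x + (d (c x) z : ℤ))
    with hg
  have hglip : ∀ z z', g z ≤ g z' + d z z' := by
    intro z z'
    obtain ⟨x, _, hx⟩ := Finset.exists_mem_eq_inf' Finset.univ_nonempty
      (fun x => v x + (d (c x) z' : ℤ))
    have h1 : g z' = v x + (d (c x) z' : ℤ) := hx
    have h2 : g z ≤ v x + (d (c x) z : ℤ) := Finset.inf'_le _ (Finset.mem_univ x)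
    have h3 : d (c x) z ≤ d (c x) z' + d z' z := htri _ _ _
    rw [hsymm z' z] at h3
    have h3' : (d (c x) z : ℤ) ≤ d (c x) z' + d z z' := by exact_mod_cast h3
    omega
  have hgc : ∀ x, g (c x) ≤ v x := by
    intro x
    have : g (c x) ≤ v x + (d (c x) (c x) : ℤ) := Finset.inf'_le _ (Finset.mem_univ x)
    rw [hd0] at this
    simpa using this
  have hgα : ∀ y, u y ≤ g (α y) := by
    intro y
    apply Finset.le_inf'
    intro x _
    have := huv x y
    omega
  have hκ := h (fun z => (g z : ℝ)) (by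
    intro z z'
    rw [abs_le]
    have h1 : (g z : ℝ) ≤ g z' + d z z' := by exact_mod_cast hglip z z'
    have h2 : (g z' : ℝ) ≤ g z + d z z' := by
      have := hglip z' z
      rw [hsymm z' z] at this
      exact_mod_cast this
    constructor <;> linarith)
  have hsum : (∑ x, (d (c x) (α (φ x)) : ℤ)) = ∑ x, u x - ∑ x, v x := by
    rw [← Equiv.sum_comp φ u, ← Finset.sum_sub_distrib]
    exact Finset.sum_congr rfl (fun x _ => (hφ x).symm)
  have hsumR : (∑ x, (d (c x) (α (φ x)) : ℝ)) = ∑ x, (u x : ℝ) - ∑ x, (v x : ℝ) := by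
    exact_mod_cast hsum
  have h1 : ∑ x, (u x : ℝ) ≤ ∑ x, (g (α x) : ℝ) :=
    Finset.sum_le_sum (fun x _ => by exact_mod_cast hgα x)
  have h2 : ∑ x, (g (c x) : ℝ) ≤ ∑ x, (v x : ℝ) :=
    Finset.sum_le_sum (fun x _ => by exact_mod_cast hgc x)
  linarith

end Pool.Agent.Helper50_Stretch
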