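import Mathlib
import Pool.Agent.Helper50_Stretch.Cube

set_option autoImplicit false
set_option linter.unusedSectionVars false

namespace Pool.Agent.Helper50_Stretch

variable {ι : Type*} [DecidableEq ι] [Fintype ι]

/-- squared norm of the projected first order coefficient -/
noncomputable def phi (f : (ι → Bool) → ℝ) (j : ι) (V : Finset ι) : ℝ :=
  avg (fun y => cE V (fun y => f y * sg (y j)) y ^ 2)

theorem phi_nonneg (f : (ι → Bool) → ℝ) (j : ι) (V : Finset ι) : 0 ≤ phi f j V :=
  avg_nonneg (fun _ => sq_nonneg _)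

theorem phi_mono (f : (ι → Bool) → ℝ) (j : ι) {V V' : Finset ι} (h : V ⊆ V') :
    phi f j V ≤ phi f j V' := by
  unfold phi
  rw [← cE_cE h]
  exact avg_cE_sq_le _ _

theorem phi_le {f : (ι → Bool) → ℝ} {lam : ℝ} (hf : FLip lam f) {j : ι} {V : Finset ι}
    (hj : j ∉ V) : phi f j V ≤ (lam / 2) ^ 2 := by
  unfold phi
  rw [← avg_const (Ω := ι → Bool) ((lam / 2) ^ 2)]
  apply avg_mono
  intro y
  have h1 := abs_cE_mul_sg_le hj hf y
  rw [← sq_abs]
  exact pow_le_pow_left₀ (abs_nonneg _) h1 2

theorem avg_sq_add_sg {j : ι} {a b : (ι → Bool) → ℝ} (ha : Off {j} a) (hb : Off {j} b) :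
    avg (fun y => (a y + b y * sg (y j)) ^ 2) = avg (fun y => a y ^ 2) + avg (fun y => b y ^ 2) := by
  have e : ∀ y : ι → Bool, (a y + b y * sg (y j)) ^ 2
      = (a y ^ 2 + b y ^ 2) + 2 * ((a y * b y) * sg (y j)) := by
    intro y
    have := sg_sq (y j)
    linear_combination (b y ^ 2) * this
  rw [avg_congr e, avg_add, avg_add, avg_const_mul]
  have h0 : avg (fun y => (a y * b y) * sg (y j)) = 0 := by
    apply avg_mul_sg_eq_zero
    intro y y' hy
    show a y * b y = a y' * b y'
    rw [ha y y' hy, hb y y' hy]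
  rw [h0]; ring

theorem avg_cE_insert_sq {S : Finset ι} {j : ι} (hj : j ∉ S) (f : (ι → Bool) → ℝ) :
    avg (fun y => cE (insert j S) f y ^ 2) = avg (fun y => cE S f y ^ 2) + phi f j S := by
  have hjs : ({j} : Finset ι) ⊆ Sᶜ := by
    intro i hi
    rw [Finset.mem_singleton] at hi
    subst hi
    simpa using hj
  rw [phi, ← avg_sq_add_sg ((off_cE S f).mono hjs) ((off_cE S _).mono hjs)]
  apply avg_congr
  intro y
  rw [cE_insert hj]

theorem chain_le (f : (ι → Bool) → ℝ) (S : Finset ι) (C : Finset ι) (hC : Disjoint S C) :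
    avg (fun y => cE (S ∪ C) f y ^ 2) - avg (fun y => cE S f y ^ 2)
      ≤ ∑ j ∈ C, phi f j ((S ∪ C).erase j) := by
  induction C using Finset.induction_on with
  | empty => simp
  | insert j C hj ih =>
    rw [Finset.disjoint_insert_right] at hC
    have hjSC : j ∉ S ∪ C := by
      rw [Finset.mem_union, not_or]; exact ⟨hC.1, hj⟩
    have hun : S ∪ insert j C = insert j (S ∪ C) := by
      ext i; simp only [Finset.mem_union, Finset.mem_insert]; tauto
    rw [hun, avg_cE_insert_sq hjSC, Finset.sum_insert hj, Finset.erase_insert hjSC]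
    have h1 := ih hC.2
    have h2 : ∑ i ∈ C, phi f i ((S ∪ C).erase i) ≤ ∑ i ∈ C, phi f i ((insert j (S ∪ C)).erase i) := by
      apply Finset.sum_le_sum
      intro i _
      apply phi_mono
      exact Finset.erase_subset_erase _ (Finset.subset_insert _ _)
    linarith

theorem cE_univ (f : (ι → Bool) → ℝ) : cE Finset.univ f = f := by
  apply cE_of_off
  intro y y' h
  have : y = y' := funext (fun i => h i (by simp))
  rw [this]

theorem cE_empty (f : (ι → Bool) → ℝ) : cE ∅ f = fun _ => avg f := by
  funext y
  unfold cE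
  apply avg_congr
  intro z
  congr 1

/-- Poincare inequality. -/
theorem poincare {f : (ι → Bool) → ℝ} {lam : ℝ} (hf : FLip lam f) :
    avg (fun y => (f y - avg f) ^ 2) ≤ Fintype.card ι * (lam / 2) ^ 2 := by
  have h1 := chain_le f ∅ Finset.univ (Finset.disjoint_empty_left _)
  rw [Finset.empty_union, cE_univ, cE_empty, avg_const] at h1
  have h2 : ∑ j : ι, phi f j (Finset.univ.erase j) ≤ ∑ _j : ι, (lam / 2) ^ 2 := by
    apply Finset.sum_le_sum
    intro j _
    exact phi_le hf (Finset.notMem_erase _ _)
  rw [Finset.sum_const, Finset.card_univ, nsmul_eq_mul] at h2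
  have h3 : avg (fun y => (f y - avg f) ^ 2) = avg (fun y => f y ^ 2) - avg f ^ 2 := by
    have e : ∀ y : ι → Bool, (f y - avg f) ^ 2
        = (f y ^ 2 - (2 * avg f) * f y) + avg f ^ 2 := by intro y; ring
    rw [avg_congr e, avg_add, avg_sub, avg_const_mul, avg_const]; ring
  rw [h3]
  linarith

/-- coordinates in the blocks `< k` -/
def ltB (blk : ι → ℕ) (k : ℕ) : Finset ι := Finset.univ.filter (fun i => blk i < k)

theorem mem_ltB {blk : ι → ℕ} {k : ℕ} {i : ι} : i ∈ ltB blk k ↔ blk i < k := by
  simp [ltB]

theorem ltB_mono {blk : ι → ℕ} {k k' : ℕ} (h : k ≤ k') : ltB blk k ⊆ ltB blk k' := by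
  intro i hi
  rw [mem_ltB] at *
  omega

theorem var_le_blocks (f : (ι → Bool) → ℝ) (blk : ι → ℕ) (T : ℕ) (hT : ∀ i, blk i < T) :
    avg (fun y => f y ^ 2) - avg f ^ 2
      ≤ ∑ j, phi f j ((ltB blk (blk j + 1)).erase j) := by
  have key : ∀ k : ℕ, avg (fun y => cE (ltB blk k) f y ^ 2) - avg f ^ 2
      ≤ ∑ j ∈ ltB blk k, phi f j ((ltB blk (blk j + 1)).erase j) := by
    intro k
    induction k with
    | zero =>
      have : ltB blk 0 = ∅ := by
        ext i; simp [mem_ltB]
      rw [this, cE_empty, avg_const]; simp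
    | succ k ih =>
      set C : Finset ι := Finset.univ.filter (fun i => blk i = k) with hC
      have hun : ltB blk (k+1) = ltB blk k ∪ C := by
        ext i
        simp only [mem_ltB, Finset.mem_union, hC, Finset.mem_filter, Finset.mem_univ, true_and]
        omega
      have hdis : Disjoint (ltB blk k) C := by
        rw [Finset.disjoint_left]
        intro i hi hi'
        rw [mem_ltB] at hi
        simp only [hC, Finset.mem_filter, Finset.mem_univ, true_and] at hi'
        omega
      have h1 := chain_le f (ltB blk k) C hdis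
      rw [← hun] at h1
      have h2 : ∑ j ∈ C, phi f j ((ltB blk (k+1)).erase j)
          = ∑ j ∈ C, phi f j ((ltB blk (blk j + 1)).erase j) := by
        apply Finset.sum_congr rfl
        intro j hj
        simp only [hC, Finset.mem_filter, Finset.mem_univ, true_and] at hj
        rw [hj]
      rw [h2] at h1
      have h3 : ∑ j ∈ ltB blk (k+1), phi f j ((ltB blk (blk j + 1)).erase j)
          = ∑ j ∈ ltB blk k, phi f j ((ltB blk (blk j + 1)).erase j)
            + ∑ j ∈ C, phi f j ((ltB blk (blk j + 1)).erase j) := by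
        rw [hun, Finset.sum_union hdis]
      linarith
  have h := key T
  have : ltB blk T = Finset.univ := by
    ext i; simp [mem_ltB, hT i]
  rw [this, cE_univ] at h
  exact h

/-- the defect functional of a partition -/
noncomputable def defect (f : (ι → Bool) → ℝ) (blk : ι → ℕ) : ℝ :=
  ∑ j, (phi f j ((ltB blk (blk j + 1)).erase j) - phi f j (ltB blk (blk j)))

/-- sum of the squares of the block sizes -/
def sqSizes (blk : ι → ℕ) : ℕ := ∑ j, (Finset.univ.filter (fun i => blk i = blk j)).card

theorem avg_defect_le {T : ℕ} [NeZero T] {f : (ι → Bool) → ℝ} {lam : ℝ} (hf : FLip lam f) :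
    avg (fun π : ι → Fin T => defect f (fun i => (π i : ℕ)))
      ≤ Fintype.card ι * ((lam / 2) ^ 2 / T) := by
  unfold defect
  rw [avg_sum]
  have hT : (0:ℝ) < T := by exact_mod_cast Nat.pos_of_ne_zero (NeZero.ne T)
  have hbound : ∀ j : ι, avg (fun π : ι → Fin T =>
      (phi f j ((ltB (fun i => (π i : ℕ)) ((π j : ℕ) + 1)).erase j)
        - phi f j (ltB (fun i => (π i : ℕ)) (π j : ℕ)))) ≤ (lam / 2) ^ 2 / T := by
    intro j
    rw [avg_update j]
    rw [← avg_const (Ω := ι → Fin T) ((lam / 2) ^ 2 / T)]
    apply avg_mono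
    intro π
    -- telescoping
    set U : ℕ → Finset ι := fun v => Finset.univ.filter (fun i => i ≠ j ∧ (π i : ℕ) < v) with hU
    have h1 : ∀ v : Fin T, (ltB (fun i => ((Function.update π j v) i : ℕ))
        (((Function.update π j v) j : ℕ) + 1)).erase j = U (v + 1) := by
      intro v
      ext i
      simp only [Finset.mem_erase, mem_ltB, hU, Finset.mem_filter, Finset.mem_univ, true_and,
        Function.update_self]
      constructor
      · rintro ⟨h1, h2⟩
        rw [Function.update_of_ne h1] at h2
        exact ⟨h1, h2⟩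
      · rintro ⟨h1, h2⟩
        refine ⟨h1, ?_⟩
        rw [Function.update_of_ne h1]; exact h2
    have h2 : ∀ v : Fin T, ltB (fun i => ((Function.update π j v) i : ℕ))
        ((Function.update π j v) j : ℕ) = U v := by
      intro v
      ext i
      simp only [mem_ltB, hU, Finset.mem_filter, Finset.mem_univ, true_and,
        Function.update_self]
      constructor
      · intro h2
        have hij : i ≠ j := by
          rintro rfl
          simp at h2
        rw [Function.update_of_ne hij] at h2
        exact ⟨hij, h2⟩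
      · rintro ⟨h1, h2⟩
        rw [Function.update_of_ne h1]; exact h2
    have h3 : avg (fun v : Fin T =>
        (phi f j ((ltB (fun i => ((Function.update π j v) i : ℕ))
          (((Function.update π j v) j : ℕ) + 1)).erase j)
        - phi f j (ltB (fun i => ((Function.update π j v) i : ℕ))
          ((Function.update π j v) j : ℕ))))
        = avg (fun v : Fin T => phi f j (U (v + 1)) - phi f j (U v)) := by
      apply avg_congr
      intro v
      rw [h1, h2]
    rw [h3]
    unfold avg
    rw [Fintype.card_fin, Fin.sum_univ_eq_sum_range (fun v => phi f j (U (v + 1)) - phi f j (U v)) T,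
      Finset.sum_range_sub (fun v => phi f j (U v))]
    apply div_le_div_of_nonneg_right _ hT.le
    have h4 := phi_nonneg f j (U 0)
    have h5 : phi f j (U T) ≤ (lam / 2) ^ 2 := by
      apply phi_le hf
      simp [hU]
    linarith
  refine (Finset.sum_le_sum (fun j _ => hbound j)).trans ?_
  rw [Finset.sum_const, Finset.card_univ, nsmul_eq_mul]

theorem avg_sqSizes_le {T : ℕ} [NeZero T] :
    avg (fun π : ι → Fin T => (sqSizes (fun i => (π i : ℕ)) : ℝ))
      ≤ Fintype.card ι + (Fintype.card ι : ℝ) ^ 2 / T := by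
  have hT : (0:ℝ) < T := by exact_mod_cast Nat.pos_of_ne_zero (NeZero.ne T)
  have e1 : ∀ π : ι → Fin T, (sqSizes (fun i => (π i : ℕ)) : ℝ)
      = ∑ j : ι, ∑ i : ι, (if π i = π j then (1:ℝ) else 0) := by
    intro π
    unfold sqSizes
    push_cast
    apply Finset.sum_congr rfl
    intro j _
    rw [Finset.card_filter]
    push_cast
    apply Finset.sum_congr rfl
    intro i _
    by_cases h : π i = π j
    · simp [h]
    · have : (π i : ℕ) ≠ π j := fun h' => h (Fin.ext h')
      simp [h, this]
  rw [avg_congr e1, avg_sum]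
  have hbound : ∀ j i : ι, avg (fun π : ι → Fin T => (if π i = π j then (1:ℝ) else 0))
      ≤ (if i = j then 1 else 0) + 1 / T := by
    intro j i
    by_cases hij : i = j
    · subst hij
      simp only [if_true]
      rw [avg_const]
      have : (0:ℝ) ≤ 1 / T := by positivity
      linarith
    · rw [if_neg hij, avg_update i, zero_add, ← avg_const (Ω := ι → Fin T) (1 / (T:ℝ))]
      apply avg_mono
      intro π
      have : ∀ v : Fin T, (if Function.update π i v i = Function.update π i v j
          then (1:ℝ) else 0) = if v = π j then 1 else 0 := by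
        intro v
        rw [Function.update_self, Function.update_of_ne (Ne.symm hij)]
      rw [avg_congr this]
      unfold avg
      rw [Finset.sum_ite_eq' Finset.univ (π j), if_pos (Finset.mem_univ _), Fintype.card_fin]
  have h2 : ∀ j : ι, avg (fun π : ι → Fin T => ∑ i : ι, (if π i = π j then (1:ℝ) else 0))
      ≤ 1 + Fintype.card ι / T := by
    intro j
    rw [avg_sum]
    refine (Finset.sum_le_sum (fun i _ => hbound j i)).trans ?_
    rw [Finset.sum_add_distrib, Finset.sum_ite_eq' Finset.univ j, if_pos (Finset.mem_univ _),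
      Finset.sum_const, Finset.card_univ, nsmul_eq_mul, mul_one_div]
  refine (Finset.sum_le_sum (fun j _ => h2 j)).trans ?_
  rw [Finset.sum_const, Finset.card_univ, nsmul_eq_mul]
  apply le_of_eq
  ring

/-- There is a partition into `T` blocks which is good for any nonnegative combination of the two
functionals. -/
theorem exists_partition {T : ℕ} (hT : 0 < T) {f : (ι → Bool) → ℝ} {lam : ℝ} (hf : FLip lam f)
    (a b : ℝ) (ha : 0 ≤ a) (hb : 0 ≤ b) :
    ∃ π : ι → Fin T, a * defect f (fun i => (π i : ℕ)) + b * (sqSizes (fun i => (π i : ℕ)) : ℝ)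
      ≤ a * (Fintype.card ι * ((lam / 2) ^ 2 / T))
        + b * (Fintype.card ι + (Fintype.card ι : ℝ) ^ 2 / T) := by
  have : NeZero T := ⟨by omega⟩
  have : Nonempty (Fin T) := ⟨⟨0, hT⟩⟩
  obtain ⟨π, hπ⟩ := exists_le_avg (fun π : ι → Fin T =>
    a * defect f (fun i => (π i : ℕ)) + b * (sqSizes (fun i => (π i : ℕ)) : ℝ))
  refine ⟨π, hπ.trans ?_⟩
  rw [avg_add, avg_const_mul, avg_const_mul]
  have h1 := avg_defect_le (T := T) hf
  have h2 := avg_sqSizes_le (ι := ι) (T := T)
  have h3 := mul_le_mul_of_nonneg_left h1 ha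
  have h4 := mul_le_mul_of_nonneg_left h2 hb
  linarith

end Pool.Agent.Helper50_Stretch
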