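import Mathlib
import Pool.Agent.Helper50_Stretch.Partition

set_option autoImplicit false
set_option linter.unusedSectionVars false

namespace Pool.Agent.Helper50_Stretch

variable {ι : Type*} [DecidableEq ι] [Fintype ι]

/-- first order coefficients given the earlier blocks -/
noncomputable def Bc (f : (ι → Bool) → ℝ) (blk : ι → ℕ) (j : ι) (y : ι → Bool) : ℝ :=
  cE (ltB blk (blk j)) (fun y => f y * sg (y j)) y

/-- block martingale -/
noncomputable def Mc (f : (ι → Bool) → ℝ) (blk : ι → ℕ) (k : ℕ) (y : ι → Bool) : ℝ :=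
  cE (ltB blk k) f y

/-- relative tilt of coordinate `j` -/
noncomputable def bc (f : (ι → Bool) → ℝ) (blk : ι → ℕ) (j : ι) (y : ι → Bool) : ℝ :=
  Bc f blk j y / Mc f blk (blk j) y

/-- the nonlinear remainder -/
noncomputable def Nc (f : (ι → Bool) → ℝ) (blk : ι → ℕ) (y : ι → Bool) : ℝ :=
  f y - 1 - ∑ j, Bc f blk j y * sg (y j)

variable (f : (ι → Bool) → ℝ) (blk : ι → ℕ)

theorem off_Bc (j : ι) : Off (ltB blk (blk j))ᶜ (Bc f blk j) := off_cE _ _

theorem off_Mc (k : ℕ) : Off (ltB blk k)ᶜ (Mc f blk k) := off_cE _ _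

theorem off_bc (j : ι) : Off (ltB blk (blk j))ᶜ (bc f blk j) := by
  intro y y' h
  unfold bc
  rw [off_Bc f blk j y y' h, off_Mc f blk _ y y' h]

theorem off_Bc_singleton {i j : ι} (h : blk i ≤ blk j) : Off {j} (Bc f blk i) := by
  apply (off_Bc f blk i).mono
  rw [Finset.singleton_subset_iff, Finset.mem_compl, mem_ltB]
  omega

variable {f blk}

theorem abs_Bc_le {lam : ℝ} (hf : FLip lam f) (j : ι) (y : ι → Bool) :
    |Bc f blk j y| ≤ lam / 2 :=
  abs_cE_mul_sg_le (by rw [mem_ltB]; omega) hf y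

theorem avg_Bc_sq_le {lam : ℝ} (hf : FLip lam f) (j : ι) :
    avg (fun y => Bc f blk j y ^ 2) ≤ (lam / 2) ^ 2 := by
  rw [← avg_const (Ω := ι → Bool) ((lam / 2) ^ 2)]
  apply avg_mono
  intro y
  rw [← sq_abs]
  exact pow_le_pow_left₀ (abs_nonneg _) (abs_Bc_le hf j y) 2

theorem cross_zero {i j : ι} (hij : i ≠ j) :
    avg (fun y => (Bc f blk i y * sg (y i)) * (Bc f blk j y * sg (y j))) = 0 := by
  have key : ∀ i j : ι, i ≠ j → blk i ≤ blk j →
      avg (fun y => (Bc f blk i y * sg (y i)) * (Bc f blk j y * sg (y j))) = 0 := by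
    intro i j hij h
    have e : ∀ y : ι → Bool, (Bc f blk i y * sg (y i)) * (Bc f blk j y * sg (y j))
        = (Bc f blk i y * sg (y i) * Bc f blk j y) * sg (y j) := by intro y; ring
    rw [avg_congr e]
    apply avg_mul_sg_eq_zero
    intro y y' hy
    show Bc f blk i y * sg (y i) * Bc f blk j y = Bc f blk i y' * sg (y' i) * Bc f blk j y'
    rw [off_Bc_singleton f blk h y y' hy, off_Bc_singleton f blk le_rfl y y' hy,
      hy i (by simpa using hij)]
  rcases le_total (blk i) (blk j) with h | h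
  · exact key i j hij h
  · rw [← key j i (Ne.symm hij) h]
    exact avg_congr (fun y => mul_comm _ _)

theorem sumB_sq (C : Finset ι) :
    avg (fun y => (∑ j ∈ C, Bc f blk j y * sg (y j)) ^ 2) = ∑ j ∈ C, avg (fun y => Bc f blk j y ^ 2) := by
  have e : ∀ y : ι → Bool, (∑ j ∈ C, Bc f blk j y * sg (y j)) ^ 2
      = ∑ i ∈ C, ∑ j ∈ C, (Bc f blk i y * sg (y i)) * (Bc f blk j y * sg (y j)) := by
    intro y; rw [sq, Finset.sum_mul_sum]
  rw [avg_congr e, avg_sum]
  apply Finset.sum_congr rfl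
  intro i hi
  rw [avg_sum, Finset.sum_eq_single i]
  · apply avg_congr
    intro y
    have := sg_mul_self (y i)
    linear_combination (Bc f blk i y ^ 2) * this
  · intro j _ hji
    exact cross_zero (Ne.symm hji)
  · intro h; exact absurd hi h

theorem avg_f_mul_B (j : ι) :
    avg (fun y => f y * (Bc f blk j y * sg (y j))) = avg (fun y => Bc f blk j y ^ 2) := by
  have h1 := avg_mul_cE (off_Bc f blk j) (fun y => f y * sg (y j))
  have h2 : avg (fun y => f y * (Bc f blk j y * sg (y j)))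
      = avg (fun y => Bc f blk j y * (f y * sg (y j))) := avg_congr (fun y => by ring)
  rw [h2, ← h1]
  exact avg_congr (fun y => (sq _).symm)

theorem avg_B_sg (j : ι) : avg (fun y => Bc f blk j y * sg (y j)) = 0 :=
  avg_mul_sg_eq_zero (off_Bc_singleton f blk le_rfl)

theorem avg_Nc_sq (hf1 : avg f = 1) :
    avg (fun y => Nc f blk y ^ 2)
      = avg (fun y => f y ^ 2) - 1 - ∑ j, avg (fun y => Bc f blk j y ^ 2) := by
  have e : ∀ y : ι → Bool, Nc f blk y ^ 2
      = ((((f y ^ 2 - 2 * f y) + 1) - 2 * ∑ j, f y * (Bc f blk j y * sg (y j)))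
        + 2 * ∑ j, Bc f blk j y * sg (y j)) + (∑ j, Bc f blk j y * sg (y j)) ^ 2 := by
    intro y
    unfold Nc
    rw [← Finset.mul_sum]
    ring
  rw [avg_congr e, avg_add, avg_add, avg_sub, avg_add, avg_sub, avg_const_mul, avg_const_mul,
    avg_const_mul, avg_const, avg_sum, avg_sum, sumB_sq, hf1]
  have h1 : ∑ j : ι, avg (fun y => Bc f blk j y * sg (y j)) = 0 :=
    Finset.sum_eq_zero (fun j _ => avg_B_sg j)
  have h2 : ∑ j : ι, avg (fun y => f y * (Bc f blk j y * sg (y j)))
      = ∑ j : ι, avg (fun y => Bc f blk j y ^ 2) :=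
    Finset.sum_congr rfl (fun j _ => avg_f_mul_B j)
  rw [h1, h2]; ring

theorem sum_avg_B_sq_le (hf1 : avg f = 1) :
    ∑ j, avg (fun y => Bc f blk j y ^ 2) ≤ avg (fun y => f y ^ 2) - 1 := by
  have h1 := avg_Nc_sq (blk := blk) hf1
  have h2 : 0 ≤ avg (fun y => Nc f blk y ^ 2) := avg_nonneg (fun y => sq_nonneg _)
  linarith

theorem avg_Nc_sq_le_defect (hf1 : avg f = 1) {T : ℕ} (hT : ∀ i, blk i < T) :
    avg (fun y => Nc f blk y ^ 2) ≤ defect f blk := by
  rw [avg_Nc_sq hf1]
  unfold defect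
  rw [Finset.sum_sub_distrib]
  have h1 := var_le_blocks f blk T hT
  rw [hf1] at h1
  have h2 : ∑ j, phi f j (ltB blk (blk j)) = ∑ j, avg (fun y => Bc f blk j y ^ 2) := rfl
  rw [h2]
  linarith

theorem Mc_eq (k : ℕ) (y : ι → Bool) :
    Mc f blk k y = 1 + ∑ j ∈ ltB blk k, Bc f blk j y * sg (y j) + cE (ltB blk k) (Nc f blk) y := by
  have e : f = fun y => (1 + ∑ j, Bc f blk j y * sg (y j)) + Nc f blk y := by
    funext y; unfold Nc; ring
  have h1 : Mc f blk k = cE (ltB blk k)
      (fun y => (1 + ∑ j, Bc f blk j y * sg (y j)) + Nc f blk y) := by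
    unfold Mc
    rw [← e]
  rw [h1, cE_add, cE_add, cE_const, cE_sum]
  show 1 + ∑ a, cE (ltB blk k) (fun y => Bc f blk a y * sg (y a)) y + cE (ltB blk k) (Nc f blk) y
    = 1 + ∑ j ∈ ltB blk k, Bc f blk j y * sg (y j) + cE (ltB blk k) (Nc f blk) y
  congr 2
  rw [← Finset.sum_subset (Finset.subset_univ (ltB blk k))]
  · apply Finset.sum_congr rfl
    intro j hj
    have : Off (ltB blk k)ᶜ (fun y => Bc f blk j y * sg (y j)) := by
      intro y y' hy
      have h2 : Bc f blk j y = Bc f blk j y' := by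
        apply off_Bc f blk j
        intro i hi
        apply hy
        rw [Finset.mem_compl, not_not, mem_ltB] at hi ⊢
        rw [mem_ltB] at hj
        omega
      have h3 : y j = y' j := hy j (by simpa using hj)
      show Bc f blk j y * sg (y j) = Bc f blk j y' * sg (y' j)
      rw [h2, h3]
    rw [cE_of_off this]
  · intro j _ hj
    exact cE_mul_sg_eq_zero hj (off_Bc_singleton f blk le_rfl) y

end Pool.Agent.Helper50_Stretch
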