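import Mathlib
import Pool.Agent.Helper50_Stretch.Linear

set_option autoImplicit false
set_option linter.unusedSectionVars false

namespace Pool.Agent.Helper50_Stretch

variable {ι : Type*} [DecidableEq ι] [Fintype ι]

theorem hd_flip_of_ne {z z' : ι → Bool} {i : ι} (h : z i ≠ z' i) :
    hammingDist z z' = hammingDist (flip i z) z' + 1 := by
  unfold hammingDist
  have h1 : (Finset.univ.filter (fun j => z j ≠ z' j))
      = insert i (Finset.univ.filter (fun j => flip i z j ≠ z' j)) := by
    ext j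
    simp only [Finset.mem_filter, Finset.mem_univ, true_and, Finset.mem_insert]
    by_cases hj : j = i
    · subst hj; simp [h]
    · rw [flip_ne hj]; simp [hj]
  rw [h1, Finset.card_insert_of_notMem]
  simp only [Finset.mem_filter, Finset.mem_univ, true_and, not_not]
  rw [flip_same]
  cases h2 : z i <;> cases h3 : z' i <;> simp_all

theorem path_le (d : (ι → Bool) → (ι → Bool) → ℝ) (hd0 : ∀ z, d z z = 0)
    (htri : ∀ x y z, d x z ≤ d x y + d y z) {L : ℝ} (hL : ∀ i z, d z (flip i z) ≤ L)
    (z z' : ι → Bool) : d z z' ≤ L * hammingDist z z' := by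
  have key : ∀ n : ℕ, ∀ z : ι → Bool, hammingDist z z' = n → d z z' ≤ L * n := by
    intro n
    induction n with
    | zero =>
      intro z hz
      rw [hammingDist_eq_zero] at hz
      subst hz
      rw [hd0]; simp
    | succ n ih =>
      intro z hz
      have hne : z ≠ z' := by
        intro h
        rw [h, hammingDist_self] at hz
        omega
      obtain ⟨i, hi⟩ := Function.ne_iff.mp hne
      have h1 := hd_flip_of_ne hi
      have h2 := ih (flip i z) (by omega)
      have h3 := htri z (flip i z) z'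
      have h4 := hL i z
      push_cast
      linarith
  exact key _ z rfl

theorem path_lip {g : (ι → Bool) → ℝ} {L : ℝ} (hL : FLip L g) (z z' : ι → Bool) :
    |g z - g z'| ≤ L * hammingDist z z' :=
  path_le (fun z z' => |g z - g z'|) (fun z => by simp) (fun x y z => abs_sub_le _ _ _)
    (fun i z => by rw [abs_sub_comm]; exact hL i z) z z'

variable {f : (ι → Bool) → ℝ} {blk : ι → ℕ} {lam η K : ℝ}

theorem sum_abs_Bc_sub_le (hlam : 0 ≤ lam) (hf : FLip lam f) (k : ℕ) (i : ι) (z : ι → Bool) :
    ∑ j ∈ Finset.univ.filter (fun j => blk j = k), |Bc f blk j z - Bc f blk j (flip i z)|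
      ≤ Real.sqrt (Fintype.card ι) * lam := by
  set D := Finset.univ.filter (fun j => blk j = k) with hD
  set S := ltB blk k with hS
  set Δ : (ι → Bool) → ℝ := fun x => f (mix S z x) - f (mix S (flip i z) x) with hΔ
  have hΔb : ∀ x, Δ x ^ 2 ≤ lam ^ 2 := by
    intro x
    rw [← sq_abs]
    apply pow_le_pow_left₀ (abs_nonneg _)
    simp only [hΔ]
    by_cases hi : i ∈ S
    · rw [mix_flip_of_mem hi, abs_sub_comm]
      exact hf i _
    · have : mix S (flip i z) x = mix S z x := by
        funext j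
        by_cases hj : j ∈ S
        · have : j ≠ i := fun h => hi (h ▸ hj)
          rw [mix_mem hj, mix_mem hj, flip_ne this]
        · rw [mix_notMem hj, mix_notMem hj]
      rw [this, sub_self, abs_zero]
      exact hlam
  have h1 : ∀ j ∈ D, Bc f blk j z - Bc f blk j (flip i z) = avg (fun x => Δ x * sg (x j)) := by
    intro j hj
    have hjk : blk j = k := by simpa [hD] using hj
    unfold Bc cE
    rw [hjk, ← hS, ← avg_sub]
    apply avg_congr
    intro x
    have hjS : j ∉ S := by rw [hS, mem_ltB]; omega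
    show f (mix S z x) * sg (mix S z x j) - f (mix S (flip i z) x) * sg (mix S (flip i z) x j)
      = (f (mix S z x) - f (mix S (flip i z) x)) * sg (x j)
    rw [mix_notMem hjS, mix_notMem hjS]
    ring
  have h2 : ∑ j ∈ D, (Bc f blk j z - Bc f blk j (flip i z)) ^ 2 ≤ lam ^ 2 := by
    rw [Finset.sum_congr rfl (fun j hj => by rw [h1 j hj])]
    refine (bessel D Δ).trans ?_
    rw [← avg_const (Ω := ι → Bool) (lam ^ 2)]
    exact avg_mono hΔb
  have h3 : (∑ j ∈ D, |Bc f blk j z - Bc f blk j (flip i z)|) ^ 2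
      ≤ Fintype.card ι * lam ^ 2 := by
    have h4 := sq_sum_le_card_mul_sum_sq (s := D)
      (f := fun j => |Bc f blk j z - Bc f blk j (flip i z)|)
    simp only [sq_abs] at h4
    have h5 : (D.card : ℝ) ≤ Fintype.card ι := by exact_mod_cast Finset.card_le_univ D
    refine h4.trans ?_
    calc (D.card : ℝ) * ∑ j ∈ D, (Bc f blk j z - Bc f blk j (flip i z)) ^ 2
        ≤ D.card * lam ^ 2 := mul_le_mul_of_nonneg_left h2 (Nat.cast_nonneg _)
      _ ≤ _ := mul_le_mul_of_nonneg_right h5 (sq_nonneg _)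
  have h6 : 0 ≤ ∑ j ∈ D, |Bc f blk j z - Bc f blk j (flip i z)| :=
    Finset.sum_nonneg (fun j _ => abs_nonneg _)
  calc ∑ j ∈ D, |Bc f blk j z - Bc f blk j (flip i z)|
      = Real.sqrt ((∑ j ∈ D, |Bc f blk j z - Bc f blk j (flip i z)|) ^ 2) :=
        (Real.sqrt_sq h6).symm
    _ ≤ Real.sqrt (Fintype.card ι * lam ^ 2) := Real.sqrt_le_sqrt h3
    _ = Real.sqrt (Fintype.card ι) * lam := by
        rw [Real.sqrt_mul (Nat.cast_nonneg _), Real.sqrt_sq hlam]

theorem sum_abs_bc_flip_le (hη : 0 < η) (hlam : 0 ≤ lam) (hK : 0 ≤ K)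
    (hlamK : lam ^ 2 * Fintype.card ι ≤ K ^ 2) (hf : FLip lam f)
    (hfη : ∀ y, η ≤ f y) (k : ℕ) (i : ι) (z : ι → Bool) :
    ∑ j ∈ Finset.univ.filter (fun j => blk j = k), |bc f blk j z - bc f blk j (flip i z)|
      ≤ K / η + K ^ 2 / (2 * η ^ 2) := by
  set D := Finset.univ.filter (fun j => blk j = k) with hD
  have hM : ∀ z, η ≤ Mc f blk k z := fun z => le_cE hfη z
  have hΔM : |Mc f blk k z - Mc f blk k (flip i z)| ≤ lam := by
    unfold Mc cE
    rw [← avg_sub]
    refine (abs_avg_le _).trans ?_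
    rw [← avg_const (Ω := ι → Bool) lam]
    apply avg_mono
    intro x
    by_cases hi : i ∈ ltB blk k
    · rw [mix_flip_of_mem hi, abs_sub_comm]
      exact hf i _
    · have : mix (ltB blk k) (flip i z) x = mix (ltB blk k) z x := by
        funext j
        by_cases hj : j ∈ ltB blk k
        · have : j ≠ i := fun h => hi (h ▸ hj)
          rw [mix_mem hj, mix_mem hj, flip_ne this]
        · rw [mix_notMem hj, mix_notMem hj]
      rw [this, sub_self, abs_zero]
      exact hlam
  have h1 : ∀ j ∈ D, |bc f blk j z - bc f blk j (flip i z)|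
      ≤ |Bc f blk j z - Bc f blk j (flip i z)| / η + lam ^ 2 / (2 * η ^ 2) := by
    intro j hj
    have hjk : blk j = k := by simpa [hD] using hj
    unfold bc
    rw [hjk]
    set B := Bc f blk j z
    set B' := Bc f blk j (flip i z) with hB'
    have hB'b : |B'| ≤ lam / 2 := abs_Bc_le hf j _
    have m1 := hM z
    have m2 := hM (flip i z)
    set M := Mc f blk k z
    set M' := Mc f blk k (flip i z)
    have hMp : 0 < M := lt_of_lt_of_le hη m1
    have hM'p : 0 < M' := lt_of_lt_of_le hη m2
    have e : B / M - B' / M' = (B - B') / M + (-(B' * (M - M'))) / (M * M') := by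
      field_simp; ring
    rw [e]
    refine (abs_add_le _ _).trans ?_
    apply add_le_add
    · rw [abs_div, abs_of_pos hMp]
      exact div_le_div_of_nonneg_left (abs_nonneg _) hη m1
    · rw [abs_div, abs_neg, abs_mul, abs_of_pos (mul_pos hMp hM'p)]
      have h2 : |B'| * |M - M'| ≤ lam / 2 * lam :=
        mul_le_mul hB'b hΔM (abs_nonneg _) (by linarith)
      have h3 : η * η ≤ M * M' := mul_le_mul m1 m2 hη.le hMp.le
      calc |B'| * |M - M'| / (M * M') ≤ (lam / 2 * lam) / (M * M') :=
            div_le_div_of_nonneg_right h2 (mul_pos hMp hM'p).le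
        _ ≤ (lam / 2 * lam) / (η * η) :=
            div_le_div_of_nonneg_left (by positivity) (by positivity) h3
        _ = lam ^ 2 / (2 * η ^ 2) := by field_simp
  refine (Finset.sum_le_sum h1).trans ?_
  rw [Finset.sum_add_distrib, ← Finset.sum_div, Finset.sum_const, nsmul_eq_mul]
  have h4 := sum_abs_Bc_sub_le (blk := blk) hlam hf k i z
  have h5 : Real.sqrt (Fintype.card ι) * lam ≤ K := by
    have : Real.sqrt (Fintype.card ι) * lam = Real.sqrt (lam ^ 2 * Fintype.card ι) := by
      rw [Real.sqrt_mul (sq_nonneg _), Real.sqrt_sq hlam]; ring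
    rw [this]
    calc Real.sqrt (lam ^ 2 * Fintype.card ι) ≤ Real.sqrt (K ^ 2) := Real.sqrt_le_sqrt hlamK
      _ = K := Real.sqrt_sq hK
  apply add_le_add
  · exact div_le_div_of_nonneg_right (h4.trans h5) hη.le
  · have h6 : (D.card : ℝ) ≤ Fintype.card ι := by exact_mod_cast Finset.card_le_univ D
    calc (D.card : ℝ) * (lam ^ 2 / (2 * η ^ 2)) ≤ Fintype.card ι * (lam ^ 2 / (2 * η ^ 2)) :=
          mul_le_mul_of_nonneg_right h6 (by positivity)
      _ = (lam ^ 2 * Fintype.card ι) / (2 * η ^ 2) := by ring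
      _ ≤ _ := div_le_div_of_nonneg_right hlamK (by positivity)

theorem sum_abs_bc_le (hη : 0 < η) (hlam : 0 ≤ lam) (hK : 0 ≤ K)
    (hlamK : lam ^ 2 * Fintype.card ι ≤ K ^ 2) (hf : FLip lam f)
    (hfη : ∀ y, η ≤ f y) (k : ℕ) (z z' : ι → Bool) :
    ∑ j ∈ Finset.univ.filter (fun j => blk j = k), |bc f blk j z - bc f blk j z'|
      ≤ (K / η + K ^ 2 / (2 * η ^ 2)) * hammingDist z z' := by
  apply path_le (fun z z' => ∑ j ∈ Finset.univ.filter (fun j => blk j = k),
    |bc f blk j z - bc f blk j z'|)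
  · intro z; simp
  · intro x y z
    rw [← Finset.sum_add_distrib]
    exact Finset.sum_le_sum (fun j _ => abs_sub_le _ _ _)
  · intro i z
    exact sum_abs_bc_flip_le hη hlam hK hlamK hf hfη k i z

end Pool.Agent.Helper50_Stretch
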