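import Mathlib
import Pool.Agent.Helper50_Stretch.Cube

set_option autoImplicit false
set_option linter.unusedSectionVars false

namespace Pool.Agent.Helper50_Stretch

/-! ### the discretised threshold -/

/-- number of seeds `u < R` with `2u+1 ≤ R(1+t)` -/
noncomputable def cnt (R : ℕ) (t : ℝ) : ℕ :=
  (Finset.univ.filter (fun u : Fin R => (2 * (u : ℝ) + 1) ≤ R * (1 + t))).card

theorem cnt_eq (R : ℕ) (t : ℝ) : cnt R t = min R ⌊(R * (1 + t) + 1) / 2⌋₊ := by
  unfold cnt
  have h1 : (Finset.univ.filter (fun u : Fin R => (2 * (u : ℝ) + 1) ≤ R * (1 + t)))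
      = Finset.univ.filter (fun u : Fin R => (u : ℕ) < ⌊(R * (1 + t) + 1) / 2⌋₊) := by
    apply Finset.filter_congr
    intro u _
    rw [Nat.lt_iff_add_one_le, Nat.le_floor_iff' (Nat.succ_ne_zero _)]
    push_cast
    constructor <;> intro h <;> linarith
  rw [h1]
  have h2 : (Finset.univ.filter (fun u : Fin R => (u : ℕ) < ⌊(R * (1 + t) + 1) / 2⌋₊)).card
      = ((Finset.range R).filter (fun u => u < ⌊(R * (1 + t) + 1) / 2⌋₊)).card := by
    rw [Finset.card_filter, Finset.card_filter]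
    exact Fin.sum_univ_eq_sum_range (fun u => if u < ⌊(R * (1 + t) + 1) / 2⌋₊ then 1 else 0) R
  rw [h2]
  have h3 : ((Finset.range R).filter (fun u => u < ⌊(R * (1 + t) + 1) / 2⌋₊))
      = Finset.range (min R ⌊(R * (1 + t) + 1) / 2⌋₊) := by
    ext u; simp only [Finset.mem_filter, Finset.mem_range, lt_min_iff]
  rw [h3, Finset.card_range]

theorem cnt_mono (R : ℕ) {t t' : ℝ} (h : t ≤ t') : cnt R t ≤ cnt R t' := by
  rw [cnt_eq, cnt_eq]
  apply min_le_min_left
  apply Nat.floor_le_floor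
  have : (0:ℝ) ≤ R := Nat.cast_nonneg R
  have := mul_le_mul_of_nonneg_left (by linarith : 1 + t ≤ 1 + t') this
  linarith

theorem cnt_sub_le (R : ℕ) {t t' : ℝ} (h : t ≤ t') :
    (cnt R t' : ℝ) - cnt R t ≤ R * (t' - t) / 2 + 1 := by
  have hR : (0:ℝ) ≤ R := Nat.cast_nonneg R
  have hle : R * (1 + t) ≤ R * (1 + t') := mul_le_mul_of_nonneg_left (by linarith) hR
  have h0 : 0 ≤ R * (t' - t) := mul_nonneg hR (by linarith)
  rw [cnt_eq, cnt_eq]
  set a : ℝ := (R * (1 + t) + 1) / 2 with ha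
  set b : ℝ := (R * (1 + t') + 1) / 2 with hb
  have hab : b - a = R * (t' - t) / 2 := by rw [ha, hb]; ring
  have h1 : (min R ⌊b⌋₊ : ℕ) ≤ min R ⌊a⌋₊ + (⌊b⌋₊ - ⌊a⌋₊) := by omega
  have h2 : ((min R ⌊b⌋₊ : ℕ) : ℝ) ≤ ((min R ⌊a⌋₊ : ℕ) : ℝ) + ((⌊b⌋₊ - ⌊a⌋₊ : ℕ) : ℝ) := by
    exact_mod_cast h1
  have h3 : ((⌊b⌋₊ - ⌊a⌋₊ : ℕ) : ℝ) ≤ R * (t' - t) / 2 + 1 := by
    have hfl : ⌊a⌋₊ ≤ ⌊b⌋₊ := Nat.floor_le_floor (by linarith)
    rw [Nat.cast_sub hfl]
    have e1 : a < ⌊a⌋₊ + 1 := Nat.lt_floor_add_one a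
    rcases le_or_gt 0 b with hb0 | hb0
    · have e2 : (⌊b⌋₊ : ℝ) ≤ b := Nat.floor_le hb0
      linarith
    · rw [Nat.floor_of_nonpos hb0.le]
      have : (0:ℝ) ≤ ⌊a⌋₊ := Nat.cast_nonneg _
      push_cast
      linarith
  linarith

/-- the odd, discretised clipping function -/
noncomputable def psi (R : ℕ) (t : ℝ) : ℝ := ((cnt R t : ℝ) - cnt R (-t)) / R

theorem psi_neg (R : ℕ) (t : ℝ) : psi R (-t) = - psi R t := by
  unfold psi
  rw [neg_neg]; ring

theorem psi_sub_sq_le {R : ℕ} (hR : 0 < R) (t : ℝ) :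
    (psi R t - t) ^ 2 ≤ 1 / (R:ℝ) ^ 2 + t ^ 4 := by
  have hR' : (0:ℝ) < R := by exact_mod_cast hR
  -- estimate for the count when |t| ≤ 1
  have hc : ∀ t : ℝ, |t| ≤ 1 → |(cnt R t : ℝ) - R * (1 + t) / 2| ≤ 1 / 2 := by
    intro t ht
    rw [abs_le] at ht
    rw [cnt_eq]
    set a : ℝ := (R * (1 + t) + 1) / 2 with ha
    have ha0 : 0 ≤ a := by
      rw [ha]; have := mul_nonneg hR'.le (by linarith : 0 ≤ 1 + t); linarith
    have h1 : (⌊a⌋₊ : ℝ) ≤ a := Nat.floor_le ha0
    have h2 : a < ⌊a⌋₊ + 1 := Nat.lt_floor_add_one a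
    have haR : a < R + 1 := by
      rw [ha]; have := mul_le_mul_of_nonneg_left (by linarith : 1 + t ≤ 2) hR'.le; linarith
    have h3 : ⌊a⌋₊ ≤ R := by
      have : (⌊a⌋₊ : ℝ) < R + 1 := lt_of_le_of_lt h1 haR
      have : ⌊a⌋₊ < R + 1 := by exact_mod_cast this
      omega
    rw [min_eq_right h3, abs_le]
    constructor <;> linarith
  rcases le_or_gt |t| 1 with ht | ht
  · have h1 := hc t ht
    have h2 := hc (-t) (by rwa [abs_neg])
    have h3 : |psi R t - t| ≤ 1 / R := by
      unfold psi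
      have e : ((cnt R t : ℝ) - cnt R (-t)) / R - t
          = (((cnt R t : ℝ) - R * (1 + t) / 2) - ((cnt R (-t) : ℝ) - R * (1 + -t) / 2)) / R := by
        field_simp; ring
      rw [e, abs_div, abs_of_pos hR']
      apply div_le_div_of_nonneg_right _ hR'.le
      refine (abs_sub _ _).trans ?_
      linarith
    have h4 : (psi R t - t) ^ 2 ≤ (1 / (R:ℝ)) ^ 2 := by
      rw [← sq_abs]; exact pow_le_pow_left₀ (abs_nonneg _) h3 2
    have h5 : 0 ≤ t ^ 4 := by positivity
    rw [div_pow, one_pow] at h4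
    linarith
  · have hbig : ∀ t : ℝ, 1 < t → psi R t = 1 := by
      intro t ht
      unfold psi
      have h1 : cnt R t = R := by
        rw [cnt_eq]
        apply min_eq_left
        apply Nat.le_floor
        have := mul_lt_mul_of_pos_left (by linarith : 2 < 1 + t) hR'
        linarith
      have h2 : cnt R (-t) = 0 := by
        rw [cnt_eq]
        have : ⌊((R:ℝ) * (1 + -t) + 1) / 2⌋₊ = 0 := by
          rw [Nat.floor_eq_zero]
          have : (R:ℝ) * (1 + -t) < 0 := mul_neg_of_pos_of_neg hR' (by linarith)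
          linarith
        rw [this]; simp
      rw [h1, h2]
      simp only [Nat.cast_zero, sub_zero]
      field_simp
    have h6 : (psi R t - t) ^ 2 ≤ t ^ 4 := by
      rcases lt_abs.mp ht with h | h
      · rw [hbig t h]; nlinarith [sq_nonneg (t^2 - 1), sq_nonneg t]
      · have h7 : psi R t = -1 := by
          have := hbig (-t) h
          rw [psi_neg] at this; linarith
        rw [h7]; nlinarith [sq_nonneg (t^2 - 1), sq_nonneg t]
    have : 0 ≤ 1 / (R:ℝ) ^ 2 := by positivity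
    linarith

/-! ### moments of Rademacher sums with predictable coefficients -/

variable {ι : Type*} [DecidableEq ι] [Fintype ι]

theorem avg_sg_mul_eq_zero {j : ι} {u : (ι → Bool) → ℝ} (hu : Off {j} u) :
    avg (fun y => sg (y j) * u y) = 0 := by
  rw [← avg_mul_sg_eq_zero hu]
  exact avg_congr (fun y => mul_comm _ _)

theorem moments (C : Finset ι) (C' : Finset ι) (hCC : C ⊆ C') (w : (ι → Bool) → ℝ) (hw0 : ∀ y, 0 ≤ w y)
    (hw : Off C' w) (c : ι → (ι → Bool) → ℝ) (hc : ∀ j ∈ C', Off C' (c j)) (β : ℝ)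
    (hβ : ∀ j ∈ C', ∀ y, |c j y| ≤ β) :
    avg (fun y => w y * (∑ j ∈ C, c j y * sg (y j)) ^ 2) ≤ C.card * β ^ 2 * avg w ∧
    avg (fun y => w y * (∑ j ∈ C, c j y * sg (y j)) ^ 4) ≤ 3 * (C.card * β ^ 2) ^ 2 * avg w := by
  have hw1 : 0 ≤ avg w := avg_nonneg hw0
  induction C using Finset.induction_on with
  | empty => simp [avg_zero]
  | insert j C hj ih =>
    have hjC : j ∈ C' := hCC (Finset.mem_insert_self _ _)
    obtain ⟨ih2, ih4⟩ := ih ((Finset.subset_insert _ _).trans hCC)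
    set S : (ι → Bool) → ℝ := fun y => ∑ i ∈ C, c i y * sg (y i) with hS
    have hSoff : Off {j} S := by
      intro y y' hy
      show ∑ i ∈ C, c i y * sg (y i) = ∑ i ∈ C, c i y' * sg (y' i)
      apply Finset.sum_congr rfl
      intro i hi
      have hij : i ≠ j := fun h => hj (h ▸ hi)
      rw [(hc i (hCC (Finset.mem_insert_of_mem hi))).mono
        (Finset.singleton_subset_iff.mpr hjC) y y' hy, hy i (by simpa using hij)]
    have hwoff : Off {j} w := hw.mono (Finset.singleton_subset_iff.mpr hjC)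
    have hcoff : Off {j} (c j) := (hc j hjC).mono (Finset.singleton_subset_iff.mpr hjC)
    have hcb : ∀ y, (c j y) ^ 2 ≤ β ^ 2 := by
      intro y
      rw [← sq_abs]
      exact pow_le_pow_left₀ (abs_nonneg _) (hβ j hjC y) 2
    have hcb4 : ∀ y, (c j y) ^ 4 ≤ β ^ 4 := by
      intro y
      have := pow_le_pow_left₀ (sq_nonneg _) (hcb y) 2
      calc (c j y) ^ 4 = ((c j y) ^ 2) ^ 2 := by ring
        _ ≤ (β ^ 2) ^ 2 := this
        _ = β ^ 4 := by ring
    have hsum : ∀ y : ι → Bool, ∑ i ∈ insert j C, c i y * sg (y i) = c j y * sg (y j) + S y :=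
      fun y => Finset.sum_insert hj
    have hcard : ((insert j C).card : ℝ) = C.card + 1 := by
      rw [Finset.card_insert_of_notMem hj]; push_cast; ring
    have hS2 : avg (fun y => w y * S y ^ 2) ≤ C.card * β ^ 2 * avg w := ih2
    have hS4 : avg (fun y => w y * S y ^ 4) ≤ 3 * (C.card * β ^ 2) ^ 2 * avg w := ih4
    rw [hcard]
    constructor
    · have e : ∀ y : ι → Bool, w y * (∑ i ∈ insert j C, c i y * sg (y i)) ^ 2
          = (w y * S y ^ 2 + w y * (c j y) ^ 2) + sg (y j) * (2 * w y * c j y * S y) := by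
        intro y
        rw [hsum y]
        have := sg_sq (y j)
        linear_combination (w y * (c j y) ^ 2) * this
      rw [avg_congr e, avg_add, avg_add]
      have h0 : avg (fun y => sg (y j) * (2 * w y * c j y * S y)) = 0 := by
        apply avg_sg_mul_eq_zero
        intro y y' hy
        show 2 * w y * c j y * S y = 2 * w y' * c j y' * S y'
        rw [hwoff y y' hy, hcoff y y' hy, hSoff y y' hy]
      have h1 : avg (fun y => w y * (c j y) ^ 2) ≤ avg w * β ^ 2 := by
        rw [← avg_mul_const]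
        exact avg_mono (fun y => mul_le_mul_of_nonneg_left (hcb y) (hw0 y))
      rw [h0]
      linarith
    · have e : ∀ y : ι → Bool, w y * (∑ i ∈ insert j C, c i y * sg (y i)) ^ 4
          = ((w y * S y ^ 4 + 6 * (w y * (c j y) ^ 2 * S y ^ 2)) + w y * (c j y) ^ 4)
            + sg (y j) * (4 * w y * c j y * S y ^ 3 + 4 * w y * (c j y) ^ 3 * S y) := by
        intro y
        rw [hsum y]
        have h2 := sg_sq (y j)
        have h3 : sg (y j) ^ 3 = sg (y j) := by
          have := sg_mul_self (y j); calc sg (y j) ^ 3 = (sg (y j) * sg (y j)) * sg (y j) := by ring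
            _ = _ := by rw [this, one_mul]
        have h4 : sg (y j) ^ 4 = 1 := by
          calc sg (y j) ^ 4 = (sg (y j) ^ 2) ^ 2 := by ring
            _ = 1 := by rw [h2]; norm_num
        linear_combination (6 * w y * (c j y) ^ 2 * S y ^ 2) * h2
          + (4 * w y * (c j y) ^ 3 * S y) * h3 + (w y * (c j y) ^ 4) * h4
      rw [avg_congr e, avg_add, avg_add, avg_add]
      have h0 : avg (fun y => sg (y j) * (4 * w y * c j y * S y ^ 3 + 4 * w y * (c j y) ^ 3 * S y))
          = 0 := by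
        apply avg_sg_mul_eq_zero
        intro y y' hy
        show 4 * w y * c j y * S y ^ 3 + 4 * w y * (c j y) ^ 3 * S y
          = 4 * w y' * c j y' * S y' ^ 3 + 4 * w y' * (c j y') ^ 3 * S y'
        rw [hwoff y y' hy, hcoff y y' hy, hSoff y y' hy]
      have h1 : avg (fun y => 6 * (w y * (c j y) ^ 2 * S y ^ 2))
          ≤ 6 * (β ^ 2 * (C.card * β ^ 2 * avg w)) := by
        rw [avg_const_mul]
        apply mul_le_mul_of_nonneg_left _ (by norm_num)
        refine le_trans ?_ (mul_le_mul_of_nonneg_left hS2 (sq_nonneg β))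
        rw [← avg_const_mul]
        apply avg_mono
        intro y
        have := mul_le_mul_of_nonneg_left (hcb y) (mul_nonneg (hw0 y) (sq_nonneg (S y)))
        nlinarith
      have h2 : avg (fun y => w y * (c j y) ^ 4) ≤ avg w * β ^ 4 := by
        rw [← avg_mul_const]
        exact avg_mono (fun y => mul_le_mul_of_nonneg_left (hcb4 y) (hw0 y))
      rw [h0]
      nlinarith [mul_nonneg hw1 (by positivity : 0 ≤ β ^ 4)]

end Pool.Agent.Helper50_Stretch
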