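import Mathlib
import Pool.Agent.Helper50_Stretch.Moments

set_option autoImplicit false
set_option linter.unusedSectionVars false

namespace Pool.Agent.Helper50_Stretch

variable {ι : Type*} [DecidableEq ι] [Fintype ι]

/-- coordinates of gadget `c` -/
def gadSet (gad : ι → ℕ) (c : ℕ) : Finset ι := Finset.univ.filter (fun j => gad j = c)

/-- coordinates of cell `κ` of gadget `c` -/
def cellSet {s : ℕ} (gad : ι → ℕ) (cell : ι → Fin s) (c : ℕ) (κ : Fin s) : Finset ι :=
  Finset.univ.filter (fun j => gad j = c ∧ cell j = κ)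

theorem mem_gadSet {gad : ι → ℕ} {c : ℕ} {j : ι} : j ∈ gadSet gad c ↔ gad j = c := by
  simp [gadSet]

theorem mem_cellSet {s : ℕ} {gad : ι → ℕ} {cell : ι → Fin s} {c : ℕ} {κ : Fin s} {j : ι} :
    j ∈ cellSet gad cell c κ ↔ gad j = c ∧ cell j = κ := by
  simp [cellSet]

theorem cellSet_subset {s : ℕ} (gad : ι → ℕ) (cell : ι → Fin s) (c : ℕ) (κ : Fin s) :
    cellSet gad cell c κ ⊆ gadSet gad c := by
  intro j hj
  rw [mem_cellSet] at hj
  rw [mem_gadSet]; exact hj.1

/-- sum over a gadget = sum over its cells -/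
theorem sum_gadSet {s : ℕ} (gad : ι → ℕ) (cell : ι → Fin s) (c : ℕ) (F : ι → ℝ) :
    ∑ j ∈ gadSet gad c, F j = ∑ κ : Fin s, ∑ j ∈ cellSet gad cell c κ, F j := by
  rw [← Finset.sum_fiberwise_of_maps_to (s := gadSet gad c) (t := (Finset.univ : Finset (Fin s)))
    (g := cell) (fun _ _ => Finset.mem_univ _)]
  apply Finset.sum_congr rfl
  intro κ _
  apply Finset.sum_congr _ (fun _ _ => rfl)
  ext j
  simp only [Finset.mem_filter, mem_gadSet, mem_cellSet]

/-- the (amplified) tilt of cell `κ` of gadget `c` -/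
noncomputable def tau {s : ℕ} (gad : ι → ℕ) (cell : ι → Fin s) (b : ι → (ι → Bool) → ℝ) (c : ℕ)
    (κ : Fin s) (y : ι → Bool) : ℝ := s * ∑ j ∈ cellSet gad cell c κ, b j y * sg (y j)

/-- one move: gadget `c` with address `ω.1` and seed `ω.2` -/
noncomputable def step {s R : ℕ} (gad : ι → ℕ) (cell : ι → Fin s) (b : ι → (ι → Bool) → ℝ)
    (c : ℕ) (ω : Fin s × Fin R) (y : ι → Bool) : ι → Bool :=
  if (2 * (ω.2 : ℝ) + 1) ≤ R * (1 + tau gad cell b c ω.1 y) then y
  else neg (cellSet gad cell c ω.1) y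

/-- the change of density caused by gadget `c` -/
noncomputable def rho {s : ℕ} (R : ℕ) (gad : ι → ℕ) (cell : ι → Fin s) (b : ι → (ι → Bool) → ℝ)
    (c : ℕ) (y : ι → Bool) : ℝ := (∑ κ : Fin s, psi R (tau gad cell b c κ y)) / s

theorem tau_neg_same {s : ℕ} {gad : ι → ℕ} {cell : ι → Fin s} {b : ι → (ι → Bool) → ℝ} {c : ℕ}
    (hb : ∀ j ∈ gadSet gad c, Off (gadSet gad c) (b j)) (κ : Fin s) (y : ι → Bool) :
    tau gad cell b c κ (neg (cellSet gad cell c κ) y) = - tau gad cell b c κ y := by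
  unfold tau
  rw [← mul_neg, ← Finset.sum_neg_distrib]
  congr 1
  apply Finset.sum_congr rfl
  intro j hj
  rw [(hb j (cellSet_subset _ _ _ _ hj)).neg (cellSet_subset _ _ _ _), neg_mem hj, sg_not]
  ring

theorem tau_neg_other {s : ℕ} {gad : ι → ℕ} {cell : ι → Fin s} {b : ι → (ι → Bool) → ℝ} {c : ℕ}
    (hb : ∀ j ∈ gadSet gad c, Off (gadSet gad c) (b j)) {κ κ' : Fin s} (hκ : κ' ≠ κ)
    (y : ι → Bool) :
    tau gad cell b c κ' (neg (cellSet gad cell c κ) y) = tau gad cell b c κ' y := by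
  unfold tau
  congr 1
  apply Finset.sum_congr rfl
  intro j hj
  have hj' : j ∉ cellSet gad cell c κ := by
    rw [mem_cellSet] at hj ⊢
    rintro ⟨_, h⟩
    exact hκ (hj.2.symm.trans h)
  rw [(hb j (cellSet_subset _ _ _ _ hj)).neg (cellSet_subset _ _ _ _), neg_notMem hj']

theorem sum_ind_le {R : ℕ} (t : ℝ) :
    ∑ u : Fin R, (if (2 * (u : ℝ) + 1) ≤ R * (1 + t) then (1:ℝ) else 0) = cnt R t := by
  unfold cnt
  rw [Finset.card_filter]
  push_cast
  rfl

/-- law of one move -/
theorem law_step {s R : ℕ} (hs : 0 < s) (hR : 0 < R) {gad : ι → ℕ} {cell : ι → Fin s}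
    {b : ι → (ι → Bool) → ℝ} {c : ℕ}
    (hb : ∀ j ∈ gadSet gad c, Off (gadSet gad c) (b j))
    (F : (ι → Bool) → ℝ) (hF : Off (gadSet gad c) F) (Φ : (ι → Bool) → ℝ) :
    avg (fun y => avg (fun ω : Fin s × Fin R => Φ (step gad cell b c ω y)) * F y)
      = avg (fun y => Φ y * (F y * (1 + rho R gad cell b c y))) := by
  have hs' : (0:ℝ) < s := by exact_mod_cast hs
  have hR' : (0:ℝ) < R := by exact_mod_cast hR
  have e1 : ∀ y : ι → Bool, avg (fun ω : Fin s × Fin R => Φ (step gad cell b c ω y)) * F y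
      = avg (fun ω : Fin s × Fin R => Φ (step gad cell b c ω y) * F y) :=
    fun y => (avg_mul_const _ _).symm
  rw [avg_congr e1, avg_comm]
  -- for each `ω`
  have e2 : ∀ ω : Fin s × Fin R, avg (fun y => Φ (step gad cell b c ω y) * F y)
      = avg (fun y => Φ y * F y *
        ((if (2 * (ω.2 : ℝ) + 1) ≤ R * (1 + tau gad cell b c ω.1 y) then 1 else 0)
        + (1 - (if (2 * (ω.2 : ℝ) + 1) ≤ R * (1 + - tau gad cell b c ω.1 y) then 1 else 0)))) := by
    intro ω
    have e3 : ∀ y : ι → Bool, Φ (step gad cell b c ω y) * F y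
        = Φ y * F y * (if (2 * (ω.2 : ℝ) + 1) ≤ R * (1 + tau gad cell b c ω.1 y) then 1 else 0)
        + Φ (neg (cellSet gad cell c ω.1) y) * F (neg (cellSet gad cell c ω.1) y)
          * (1 - (if (2 * (ω.2 : ℝ) + 1) ≤
            R * (1 + - tau gad cell b c ω.1 (neg (cellSet gad cell c ω.1) y)) then 1 else 0)) := by
      intro y
      rw [tau_neg_same hb, neg_neg, hF.neg (cellSet_subset _ _ _ _)]
      unfold step
      split_ifs <;> ring
    rw [avg_congr e3, avg_add,
      avg_neg_cube (cellSet gad cell c ω.1) (fun y => Φ y * F y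
          * (1 - (if (2 * (ω.2 : ℝ) + 1) ≤
            R * (1 + - tau gad cell b c ω.1 y) then 1 else 0))), ← avg_add]
    apply avg_congr
    intro y
    ring
  rw [avg_congr e2, avg_comm]
  apply avg_congr
  intro y
  rw [avg_const_mul]
  have e4 : avg (fun ω : Fin s × Fin R =>
        ((if (2 * (ω.2 : ℝ) + 1) ≤ R * (1 + tau gad cell b c ω.1 y) then (1:ℝ) else 0)
        + (1 - (if (2 * (ω.2 : ℝ) + 1) ≤ R * (1 + - tau gad cell b c ω.1 y) then 1 else 0))))
      = 1 + rho R gad cell b c y := by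
    rw [avg_prod]
    have e5 : ∀ κ : Fin s, avg (fun u : Fin R =>
        ((if (2 * (u : ℝ) + 1) ≤ R * (1 + tau gad cell b c κ y) then (1:ℝ) else 0)
        + (1 - (if (2 * (u : ℝ) + 1) ≤ R * (1 + - tau gad cell b c κ y) then 1 else 0))))
        = 1 + psi R (tau gad cell b c κ y) := by
      intro κ
      unfold avg psi
      rw [Finset.sum_add_distrib, Finset.sum_sub_distrib, sum_ind_le, sum_ind_le,
        Finset.sum_const, Finset.card_univ, Fintype.card_fin, nsmul_eq_mul, mul_one]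
      field_simp
      ring
    rw [avg_congr e5]
    unfold avg rho
    rw [Finset.sum_add_distrib, Finset.sum_const, Finset.card_univ, Fintype.card_fin,
      nsmul_eq_mul, mul_one, add_div]
    have : (s:ℝ) / s = 1 := by field_simp
    rw [this]
  rw [e4]; ring

/-- the process: `Z c w y` is the state after the moves of gadgets `0, …, c-1` -/
noncomputable def Z {s R : ℕ} (gad : ι → ℕ) (cell : ι → Fin s) (b : ι → (ι → Bool) → ℝ)
    (w : ℕ → Fin s × Fin R) (y : ι → Bool) : ℕ → (ι → Bool)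
  | 0 => y
  | (c + 1) => step gad cell b c (w c) (Z gad cell b w y c)

/-- extension of the randomness to all natural numbers -/
def ext {W : Type*} (Γ : ℕ) (w0 : W) (w : Fin Γ → W) : ℕ → W :=
  fun c => if h : c < Γ then w ⟨c, h⟩ else w0

theorem Z_congr {s R : ℕ} {gad : ι → ℕ} {cell : ι → Fin s} {b : ι → (ι → Bool) → ℝ}
    {w w' : ℕ → Fin s × Fin R} {y : ι → Bool} {c : ℕ} (h : ∀ c' < c, w c' = w' c') :
    Z gad cell b w y c = Z gad cell b w' y c := by
  induction c with
  | zero => rfl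
  | succ c ih =>
    show step gad cell b c (w c) (Z gad cell b w y c) = step gad cell b c (w' c) (Z gad cell b w' y c)
    rw [ih (fun c' hc' => h c' (by omega)), h c (by omega)]

theorem ext_update_of_ne {W : Type*} {Γ : ℕ} {w0 : W} {w : Fin Γ → W} {c : Fin Γ} {ω : W} {c' : ℕ}
    (h : c' ≠ c) : ext Γ w0 (Function.update w c ω) c' = ext Γ w0 w c' := by
  unfold ext
  split_ifs with h'
  · rw [Function.update_of_ne]
    intro h2
    exact h (by rw [← h2])
  · rfl

theorem ext_update_same {W : Type*} {Γ : ℕ} {w0 : W} {w : Fin Γ → W} {c : Fin Γ} {ω : W} :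
    ext Γ w0 (Function.update w c ω) c = ω := by
  unfold ext
  simp

theorem Z_update {s R Γ : ℕ} {gad : ι → ℕ} {cell : ι → Fin s} {b : ι → (ι → Bool) → ℝ}
    {w0 : Fin s × Fin R} {w : Fin Γ → Fin s × Fin R} {y : ι → Bool} {c : ℕ} (hc : c < Γ)
    (ω : Fin s × Fin R) :
    Z gad cell b (ext Γ w0 (Function.update w ⟨c, hc⟩ ω)) y (c + 1)
      = step gad cell b c ω (Z gad cell b (ext Γ w0 w) y c) := by
  show step gad cell b c (ext Γ w0 (Function.update w ⟨c, hc⟩ ω) c)
    (Z gad cell b (ext Γ w0 (Function.update w ⟨c, hc⟩ ω)) y c) = _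
  have h1 : ext Γ w0 (Function.update w ⟨c, hc⟩ ω) c = ω :=
    ext_update_same (c := ⟨c, hc⟩)
  rw [h1]
  congr 1
  apply Z_congr
  intro c' hc'
  apply ext_update_of_ne
  show c' ≠ c
  omega

/-- the density after the moves of gadgets `0, …, c-1` -/
noncomputable def dens {s : ℕ} (R : ℕ) (gad : ι → ℕ) (cell : ι → Fin s) (b : ι → (ι → Bool) → ℝ)
    (c : ℕ) (y : ι → Bool) : ℝ := ∏ c' ∈ Finset.range c, (1 + rho R gad cell b c' y)

theorem dens_succ {s : ℕ} (R : ℕ) (gad : ι → ℕ) (cell : ι → Fin s) (b : ι → (ι → Bool) → ℝ)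
    (c : ℕ) (y : ι → Bool) : dens R gad cell b (c+1) y
      = dens R gad cell b c y * (1 + rho R gad cell b c y) := by
  unfold dens; rw [Finset.prod_range_succ]

/-- coordinates in gadgets `≥ c` -/
def geG (gad : ι → ℕ) (c : ℕ) : Finset ι := Finset.univ.filter (fun j => c ≤ gad j)

theorem mem_geG {gad : ι → ℕ} {c : ℕ} {j : ι} : j ∈ geG gad c ↔ c ≤ gad j := by simp [geG]

theorem gadSet_subset_geG (gad : ι → ℕ) (c : ℕ) : gadSet gad c ⊆ geG gad c := by
  intro j hj
  rw [mem_gadSet] at hj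
  rw [mem_geG]; omega

theorem off_rho {s : ℕ} {R : ℕ} {gad : ι → ℕ} {cell : ι → Fin s} {b : ι → (ι → Bool) → ℝ}
    (hb : ∀ j, Off (geG gad (gad j)) (b j)) {c c' : ℕ} (hc : c' < c) :
    Off (geG gad c) (rho R gad cell b c') := by
  intro y y' hy
  unfold rho tau
  congr 1
  apply Finset.sum_congr rfl
  intro κ _
  congr 2
  apply Finset.sum_congr rfl
  intro j hj
  rw [mem_cellSet] at hj
  have h1 : b j y = b j y' := by
    apply hb j
    intro i hi
    apply hy
    rw [mem_geG] at hi ⊢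
    omega
  have h2 : y j = y' j := by
    apply hy
    rw [mem_geG]; omega
  rw [h1, h2]

theorem off_dens {s : ℕ} {R : ℕ} {gad : ι → ℕ} {cell : ι → Fin s} {b : ι → (ι → Bool) → ℝ}
    (hb : ∀ j, Off (geG gad (gad j)) (b j)) (c : ℕ) :
    Off (geG gad c) (dens R gad cell b c) := by
  intro y y' hy
  unfold dens
  apply Finset.prod_congr rfl
  intro c' hc'
  rw [Finset.mem_range] at hc'
  rw [off_rho hb hc' y y' hy]

theorem law_process {s R Γ : ℕ} (hs : 0 < s) (hR : 0 < R) {gad : ι → ℕ} {cell : ι → Fin s}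
    {b : ι → (ι → Bool) → ℝ} (hb : ∀ j, Off (geG gad (gad j)) (b j)) (w0 : Fin s × Fin R)
    (c : ℕ) (hc : c ≤ Γ) (Φ : (ι → Bool) → ℝ) :
    avg (fun y => avg (fun w : Fin Γ → Fin s × Fin R => Φ (Z gad cell b (ext Γ w0 w) y c)))
      = avg (fun y => Φ y * dens R gad cell b c y) := by
  have : Nonempty (Fin s × Fin R) := ⟨w0⟩
  induction c generalizing Φ with
  | zero =>
    apply avg_congr
    intro y
    unfold dens
    rw [Finset.range_zero, Finset.prod_empty, mul_one]
    exact avg_const (Ω := Fin Γ → Fin s × Fin R) (Φ y)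
  | succ c ih =>
    have hcΓ : c < Γ := by omega
    have e1 : ∀ y : ι → Bool,
        avg (fun w : Fin Γ → Fin s × Fin R => Φ (Z gad cell b (ext Γ w0 w) y (c+1)))
        = avg (fun w : Fin Γ → Fin s × Fin R => (fun z => avg (fun ω : Fin s × Fin R =>
            Φ (step gad cell b c ω z))) (Z gad cell b (ext Γ w0 w) y c)) := by
      intro y
      rw [avg_update (⟨c, hcΓ⟩ : Fin Γ)]
      apply avg_congr
      intro w
      apply avg_congr
      intro ω
      rw [Z_update hcΓ]
    refine (avg_congr e1).trans ((ih (by omega)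
      (fun z => avg (fun ω : Fin s × Fin R => Φ (step gad cell b c ω z)))).trans ?_)
    have hb' : ∀ j ∈ gadSet gad c, Off (gadSet gad c) (b j) := by
      intro j hj
      rw [mem_gadSet] at hj
      exact (hb j).mono (by rw [hj]; exact gadSet_subset_geG _ _)
    rw [law_step hs hR hb' _ ((off_dens hb c).mono (gadSet_subset_geG _ _)) Φ]
    apply avg_congr
    intro y
    rw [dens_succ]

end Pool.Agent.Helper50_Stretch
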