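import Mathlib
import Pool.Agent.Helper50_Stretch.Linear
import Pool.Agent.Helper50_Stretch.Process

set_option autoImplicit false
set_option linter.unusedSectionVars false

namespace Pool.Agent.Helper50_Stretch

variable {ι : Type*} [DecidableEq ι] [Fintype ι]

/-- error bound for one gadget -/
noncomputable def qerr (s R ℓ : ℕ) (β : ℝ) : ℝ :=
  (1 / (s:ℝ)) * (1 / (R:ℝ) ^ 2 + 3 * (s:ℝ) ^ 4 * ((ℓ:ℝ) * β ^ 2) ^ 2)

theorem qerr_nonneg (s R ℓ : ℕ) (β : ℝ) : 0 ≤ qerr s R ℓ β := by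
  unfold qerr; positivity

section gadget
variable {s R ℓ : ℕ} {gad : ι → ℕ} {cell : ι → Fin s} {b : ι → (ι → Bool) → ℝ} {c : ℕ} {β : ℝ}

/-- linear tilt of a gadget -/
noncomputable def lin (gad : ι → ℕ) (b : ι → (ι → Bool) → ℝ) (c : ℕ) (y : ι → Bool) : ℝ :=
  ∑ j ∈ gadSet gad c, b j y * sg (y j)

theorem lin_eq (hs : 0 < s) (gad : ι → ℕ) (cell : ι → Fin s) (b : ι → (ι → Bool) → ℝ) (c : ℕ)
    (y : ι → Bool) : lin gad b c y = (∑ κ : Fin s, tau gad cell b c κ y) / s := by
  have hs' : (s:ℝ) ≠ 0 := by exact_mod_cast hs.ne'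
  unfold lin tau
  rw [sum_gadSet gad cell, ← Finset.mul_sum]
  field_simp

theorem avg_lin_sq_le (hb : ∀ j ∈ gadSet gad c, Off (gadSet gad c) (b j))
    (hβ : ∀ j y, |b j y| ≤ β) {u : (ι → Bool) → ℝ} (hu : Off (gadSet gad c) u) :
    avg (fun y => (u y * lin gad b c y) ^ 2)
      ≤ (gadSet gad c).card * β ^ 2 * avg (fun y => u y ^ 2) := by
  have h := (moments (gadSet gad c) (gadSet gad c) (Finset.Subset.refl _) (fun y => u y ^ 2)
    (fun y => sq_nonneg _) (fun y y' hy => by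
      show u y ^ 2 = u y' ^ 2
      rw [hu y y' hy]) b hb β (fun j _ y => hβ j y)).1
  refine le_trans (le_of_eq ?_) h
  apply avg_congr
  intro y
  unfold lin
  ring

theorem psi_tau_odd (hb : ∀ j ∈ gadSet gad c, Off (gadSet gad c) (b j))
    {u : (ι → Bool) → ℝ} (hu : Off (gadSet gad c) u) (κ : Fin s) :
    avg (fun y => u y * psi R (tau gad cell b c κ y)) = 0 := by
  apply avg_eq_zero_of_odd _ (neg_invol (cellSet gad cell c κ))
  intro y
  rw [hu.neg (cellSet_subset _ _ _ _), tau_neg_same hb, psi_neg]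
  ring

theorem avg_mul_rho_eq_zero (hb : ∀ j ∈ gadSet gad c, Off (gadSet gad c) (b j))
    {u : (ι → Bool) → ℝ} (hu : Off (gadSet gad c) u) :
    avg (fun y => u y * rho R gad cell b c y) = 0 := by
  have e : ∀ y : ι → Bool, u y * rho R gad cell b c y
      = (∑ κ : Fin s, u y * psi R (tau gad cell b c κ y)) / s := by
    intro y; unfold rho; rw [← Finset.mul_sum]; ring
  rw [avg_congr e, avg_div_const, avg_sum]
  rw [Finset.sum_eq_zero (fun κ _ => psi_tau_odd hb hu κ)]
  simp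

theorem avg_err_sq_le (hs : 0 < s) (hR : 0 < R)
    (hb : ∀ j ∈ gadSet gad c, Off (gadSet gad c) (b j))
    (hβ : ∀ j y, |b j y| ≤ β)
    (hℓ : ∀ κ, (cellSet gad cell c κ).card ≤ ℓ)
    {u : (ι → Bool) → ℝ} (hu : Off (gadSet gad c) u) :
    avg (fun y => (u y * (rho R gad cell b c y - lin gad b c y)) ^ 2)
      ≤ qerr s R ℓ β * avg (fun y => u y ^ 2) := by
  have hs' : (0:ℝ) < s := by exact_mod_cast hs
  set h : Fin s → (ι → Bool) → ℝ := fun κ y =>
    psi R (tau gad cell b c κ y) - tau gad cell b c κ y with hh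
  have e : ∀ y : ι → Bool, (u y * (rho R gad cell b c y - lin gad b c y)) ^ 2
      = (∑ κ : Fin s, ∑ κ' : Fin s, u y ^ 2 * (h κ y * h κ' y)) / (s:ℝ) ^ 2 := by
    intro y
    have e1 : rho R gad cell b c y - lin gad b c y = (∑ κ : Fin s, h κ y) / s := by
      rw [lin_eq hs gad cell b c y]; unfold rho
      rw [← sub_div, ← Finset.sum_sub_distrib]
    rw [e1]
    have e2 : (∑ κ : Fin s, ∑ κ' : Fin s, u y ^ 2 * (h κ y * h κ' y))
        = u y ^ 2 * ((∑ κ : Fin s, h κ y) * (∑ κ : Fin s, h κ y)) := by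
      rw [Finset.sum_mul_sum, Finset.mul_sum]
      apply Finset.sum_congr rfl; intro κ _
      rw [Finset.mul_sum]
    rw [e2]
    field_simp
  rw [avg_congr e, avg_div_const, avg_sum]
  have hcross : ∀ κ κ' : Fin s, κ ≠ κ' → avg (fun y => u y ^ 2 * (h κ y * h κ' y)) = 0 := by
    intro κ κ' hκ
    apply avg_eq_zero_of_odd _ (neg_invol (cellSet gad cell c κ))
    intro y
    simp only [hh]
    rw [hu.neg (cellSet_subset _ _ _ _), tau_neg_same hb, tau_neg_other hb (Ne.symm hκ), psi_neg]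
    ring
  have hdiag : ∀ κ : Fin s, avg (fun y => u y ^ 2 * (h κ y * h κ y))
      ≤ (1 / (R:ℝ) ^ 2 + 3 * (s:ℝ) ^ 4 * ((ℓ:ℝ) * β ^ 2) ^ 2) * avg (fun y => u y ^ 2) := by
    intro κ
    have h1 : ∀ y : ι → Bool, u y ^ 2 * (h κ y * h κ y)
        ≤ (1 / (R:ℝ) ^ 2) * u y ^ 2
          + (s:ℝ) ^ 4 * (u y ^ 2 * (∑ j ∈ cellSet gad cell c κ, b j y * sg (y j)) ^ 4) := by
      intro y
      have h2 := psi_sub_sq_le hR (tau gad cell b c κ y)
      have h3 : h κ y * h κ y = (psi R (tau gad cell b c κ y) - tau gad cell b c κ y) ^ 2 := by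
        simp only [hh]; ring
      have h4 : tau gad cell b c κ y ^ 4
          = (s:ℝ) ^ 4 * (∑ j ∈ cellSet gad cell c κ, b j y * sg (y j)) ^ 4 := by
        unfold tau; ring
      rw [h3]
      have h5 := mul_le_mul_of_nonneg_left h2 (sq_nonneg (u y))
      rw [h4] at h5
      linarith
    refine (avg_mono h1).trans ?_
    rw [avg_add, avg_const_mul, avg_const_mul]
    have h6 := (moments (cellSet gad cell c κ) (gadSet gad c) (cellSet_subset _ _ _ _)
      (fun y => u y ^ 2)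
      (fun y => sq_nonneg _) (fun y y' hy => by
        show u y ^ 2 = u y' ^ 2
        rw [hu y y' hy]) b hb β (fun j _ y => hβ j y)).2
    have h7 : 3 * (((cellSet gad cell c κ).card : ℝ) * β ^ 2) ^ 2 * avg (fun y => u y ^ 2)
        ≤ 3 * ((ℓ:ℝ) * β ^ 2) ^ 2 * avg (fun y => u y ^ 2) := by
      apply mul_le_mul_of_nonneg_right _ (avg_nonneg (fun y => sq_nonneg _))
      apply mul_le_mul_of_nonneg_left _ (by norm_num)
      apply pow_le_pow_left₀ (by positivity)
      apply mul_le_mul_of_nonneg_right _ (sq_nonneg β)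
      exact_mod_cast hℓ κ
    have h8 := mul_le_mul_of_nonneg_left (h6.trans h7) (by positivity : 0 ≤ (s:ℝ) ^ 4)
    linarith
  have h9 : ∑ κ : Fin s, avg (fun y => ∑ κ' : Fin s, u y ^ 2 * (h κ y * h κ' y))
      ≤ ∑ _κ : Fin s,
        (1 / (R:ℝ) ^ 2 + 3 * (s:ℝ) ^ 4 * ((ℓ:ℝ) * β ^ 2) ^ 2) * avg (fun y => u y ^ 2) := by
    apply Finset.sum_le_sum
    intro κ _
    rw [avg_sum, Finset.sum_eq_single κ]
    · exact hdiag κ
    · intro κ' _ hκ'
      exact hcross κ κ' (Ne.symm hκ')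
    · intro h; exact absurd (Finset.mem_univ _) h
  rw [Finset.sum_const, Finset.card_univ, Fintype.card_fin, nsmul_eq_mul] at h9
  unfold qerr
  rw [div_le_iff₀ (by positivity)]
  refine h9.trans (le_of_eq ?_)
  field_simp

end gadget

/-! ### the comparison of the process with its linearisation -/

/-- coordinates in gadgets `< c` -/
def ltG (gad : ι → ℕ) (c : ℕ) : Finset ι := Finset.univ.filter (fun j => gad j < c)

theorem mem_ltG {gad : ι → ℕ} {c : ℕ} {j : ι} : j ∈ ltG gad c ↔ gad j < c := by simp [ltG]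

/-- partial sums of the linearised martingale -/
noncomputable def Gm (f : (ι → Bool) → ℝ) (blk gad : ι → ℕ) (c : ℕ) (y : ι → Bool) : ℝ :=
  1 + ∑ j ∈ ltG gad c, Bc f blk j y * sg (y j)

section main
variable {s R ℓ G0 : ℕ} {gad : ι → ℕ} {cell : ι → Fin s} {f : (ι → Bool) → ℝ} {lam η : ℝ}

/-- block of a coordinate -/
def blkOf (gad : ι → ℕ) (G0 : ℕ) : ι → ℕ := fun i => gad i / G0

theorem abs_bc_le (hη : 0 < η) (hf : FLip lam f) (hfη : ∀ y, η ≤ f y) (blk : ι → ℕ) (j : ι)
    (y : ι → Bool) : |bc f blk j y| ≤ lam / (2 * η) := by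
  unfold bc
  have h1 : η ≤ Mc f blk (blk j) y := le_cE hfη y
  have h2 := abs_Bc_le (blk := blk) hf j y
  rw [abs_div, abs_of_pos (lt_of_lt_of_le hη h1)]
  rw [div_le_div_iff₀ (lt_of_lt_of_le hη h1) (by positivity)]
  have h3 : 0 ≤ lam := by
    have := (abs_nonneg _).trans h2; linarith
  have h4 : |Bc f blk j y| * (2 * η) ≤ lam / 2 * (2 * η) :=
    mul_le_mul_of_nonneg_right h2 (by positivity)
  nlinarith

theorem off_bc_geG (_hG0 : 0 < G0) (j : ι) :
    Off (geG gad (gad j)) (bc f (blkOf gad G0) j) := by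
  apply (off_bc f (blkOf gad G0) j).mono
  intro i hi
  rw [mem_geG] at hi
  rw [Finset.mem_compl, mem_ltB]
  unfold blkOf
  exact not_lt.mpr (Nat.div_le_div_right hi)

theorem off_Gm (_hG0 : 0 < G0) (c : ℕ) : Off (geG gad c) (Gm f (blkOf gad G0) gad c) := by
  intro y y' hy
  unfold Gm
  congr 1
  apply Finset.sum_congr rfl
  intro j hj
  rw [mem_ltG] at hj
  have h1 : Bc f (blkOf gad G0) j y = Bc f (blkOf gad G0) j y' := by
    apply off_Bc f (blkOf gad G0) j
    intro i hi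
    apply hy
    rw [Finset.mem_compl, not_not, mem_ltB] at hi
    rw [mem_geG]
    intro hi'
    have : gad j / G0 ≤ gad i / G0 := Nat.div_le_div_right (by omega)
    unfold blkOf at hi
    omega
  have h2 : y j = y' j := by
    apply hy; rw [mem_geG]; omega
  rw [h1, h2]

theorem Gm_succ_sub (blk : ι → ℕ) (c : ℕ) (y : ι → Bool) :
    Gm f blk gad (c+1) y - Gm f blk gad c y = ∑ j ∈ gadSet gad c, Bc f blk j y * sg (y j) := by
  unfold Gm
  have hun : ltG gad (c+1) = ltG gad c ∪ gadSet gad c := by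
    ext i
    simp only [mem_ltG, Finset.mem_union, mem_gadSet]
    omega
  have hdis : Disjoint (ltG gad c) (gadSet gad c) := by
    rw [Finset.disjoint_left]
    intro i hi hi'
    rw [mem_ltG] at hi
    rw [mem_gadSet] at hi'
    omega
  rw [hun, Finset.sum_union hdis]
  ring

theorem ltG_eq_ltB (hG0 : 0 < G0) (k : ℕ) : ltG gad (k * G0) = ltB (blkOf gad G0) k := by
  ext i
  rw [mem_ltG, mem_ltB]
  unfold blkOf
  rw [Nat.div_lt_iff_lt_mul hG0]

theorem Mc_eq_Gm (hG0 : 0 < G0) (k : ℕ) (y : ι → Bool) :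
    Mc f (blkOf gad G0) k y = Gm f (blkOf gad G0) gad (k * G0) y
      + cE (ltB (blkOf gad G0) k) (Nc f (blkOf gad G0)) y := by
  rw [Mc_eq, Gm, ltG_eq_ltB hG0]

theorem avg_Gm_sq_le (hf1 : avg f = 1) (hf0 : ∀ y, 0 ≤ f y) (hf2 : ∀ y, f y ≤ 2) (blk : ι → ℕ)
    (c : ℕ) : avg (fun y => Gm f blk gad c y ^ 2) ≤ 4 := by
  have e : ∀ y : ι → Bool, Gm f blk gad c y ^ 2
      = (1 + 2 * ∑ j ∈ ltG gad c, Bc f blk j y * sg (y j))
        + (∑ j ∈ ltG gad c, Bc f blk j y * sg (y j)) ^ 2 := by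
    intro y; unfold Gm; ring
  rw [avg_congr e, avg_add, avg_add, avg_const, avg_const_mul, avg_sum, sumB_sq]
  have h1 : ∑ j ∈ ltG gad c, avg (fun y => Bc f blk j y * sg (y j)) = 0 :=
    Finset.sum_eq_zero (fun j _ => avg_B_sg j)
  have h2 : ∑ j ∈ ltG gad c, avg (fun y => Bc f blk j y ^ 2)
      ≤ ∑ j, avg (fun y => Bc f blk j y ^ 2) :=
    Finset.sum_le_sum_of_subset_of_nonneg (Finset.subset_univ _)
      (fun j _ _ => avg_nonneg (fun y => sq_nonneg _))
  have h3 := sum_avg_B_sq_le (blk := blk) hf1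
  have h4 : avg (fun y => f y ^ 2) ≤ 4 := by
    rw [← avg_const (Ω := ι → Bool) (4:ℝ)]
    apply avg_mono
    intro y
    nlinarith [hf0 y, hf2 y]
  rw [h1]
  linarith

theorem avg_Gm_sub_sq_le (hG0 : 0 < G0) (hf : FLip lam f) (c : ℕ) :
    avg (fun y => (Gm f (blkOf gad G0) gad c y
        - Gm f (blkOf gad G0) gad (c / G0 * G0) y) ^ 2)
      ≤ (Finset.univ.filter (fun i => blkOf gad G0 i = c / G0)).card * (lam / 2) ^ 2 := by
  set k := c / G0 with hk
  have hkc : k * G0 ≤ c := Nat.div_mul_le_self c G0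
  have hck : c < (k + 1) * G0 := by
    rw [hk]; exact Nat.lt_mul_of_div_lt (Nat.lt_succ_self _) hG0
  have hsub : ltG gad (k * G0) ⊆ ltG gad c := by
    intro i hi
    rw [mem_ltG] at *
    omega
  have e : ∀ y : ι → Bool, (Gm f (blkOf gad G0) gad c y - Gm f (blkOf gad G0) gad (k * G0) y) ^ 2
      = (∑ j ∈ ltG gad c \ ltG gad (k * G0), Bc f (blkOf gad G0) j y * sg (y j)) ^ 2 := by
    intro y
    unfold Gm
    rw [← Finset.sum_sdiff hsub]
    ring
  rw [avg_congr e, sumB_sq]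
  have hsub2 : ltG gad c \ ltG gad (k * G0)
      ⊆ Finset.univ.filter (fun i => blkOf gad G0 i = k) := by
    intro i hi
    rw [Finset.mem_sdiff, mem_ltG, mem_ltG] at hi
    rw [Finset.mem_filter]
    refine ⟨Finset.mem_univ _, ?_⟩
    unfold blkOf
    have h1 : gad i / G0 < k + 1 := by
      rw [Nat.div_lt_iff_lt_mul hG0]; omega
    have h2 : k ≤ gad i / G0 := by
      rw [Nat.le_div_iff_mul_le hG0]; omega
    omega
  refine (Finset.sum_le_sum (fun j _ => avg_Bc_sq_le (blk := blkOf gad G0) hf j)).trans ?_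
  rw [Finset.sum_const, nsmul_eq_mul]
  apply mul_le_mul_of_nonneg_right _ (sq_nonneg _)
  exact_mod_cast Finset.card_le_card hsub2

/-- the difference between the density of the process and the linearised martingale -/
noncomputable def Dm (R : ℕ) (gad : ι → ℕ) (cell : ι → Fin s) (f : (ι → Bool) → ℝ) (G0 : ℕ)
    (c : ℕ) (y : ι → Bool) : ℝ :=
  dens R gad cell (bc f (blkOf gad G0)) c y - Gm f (blkOf gad G0) gad c y

theorem off_Dm (hG0 : 0 < G0) (c : ℕ) : Off (geG gad c) (Dm R gad cell f G0 c) := by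
  intro y y' hy
  unfold Dm
  rw [off_dens (fun j => off_bc_geG hG0 j) c y y' hy, off_Gm hG0 c y y' hy]

theorem Dm_succ_sub (hG0 : 0 < G0) (hη : 0 < η) (hfη : ∀ y, η ≤ f y) (c : ℕ) (y : ι → Bool) :
    Dm R gad cell f G0 (c+1) y - Dm R gad cell f G0 c y
      = Dm R gad cell f G0 c y * (rho R gad cell (bc f (blkOf gad G0)) c y
          - lin gad (bc f (blkOf gad G0)) c y)
        + Gm f (blkOf gad G0) gad c y * (rho R gad cell (bc f (blkOf gad G0)) c y
          - lin gad (bc f (blkOf gad G0)) c y)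
        + Dm R gad cell f G0 c y * lin gad (bc f (blkOf gad G0)) c y
        + (Gm f (blkOf gad G0) gad c y - Gm f (blkOf gad G0) gad (c / G0 * G0) y)
          * lin gad (bc f (blkOf gad G0)) c y
        - cE (ltB (blkOf gad G0) (c / G0)) (Nc f (blkOf gad G0)) y
          * lin gad (bc f (blkOf gad G0)) c y := by
  have h1 : ∑ j ∈ gadSet gad c, Bc f (blkOf gad G0) j y * sg (y j)
      = Mc f (blkOf gad G0) (c / G0) y * lin gad (bc f (blkOf gad G0)) c y := by
    unfold lin
    rw [Finset.mul_sum]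
    apply Finset.sum_congr rfl
    intro j hj
    rw [mem_gadSet] at hj
    unfold bc
    have hblk : blkOf gad G0 j = c / G0 := by unfold blkOf; rw [hj]
    rw [hblk]
    have hM : Mc f (blkOf gad G0) (c / G0) y ≠ 0 := by
      have : η ≤ Mc f (blkOf gad G0) (c / G0) y := le_cE hfη y
      exact (lt_of_lt_of_le hη this).ne'
    field_simp
  have h2 := Gm_succ_sub (f := f) (gad := gad) (blkOf gad G0) c y
  rw [h1, Mc_eq_Gm hG0] at h2
  have h3 := dens_succ R gad cell (bc f (blkOf gad G0)) c y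
  unfold Dm
  rw [h3]
  linear_combination (-1) * h2

theorem Dm_orth (hG0 : 0 < G0) (c : ℕ) :
    avg (fun y => Dm R gad cell f G0 c y * (Dm R gad cell f G0 (c+1) y - Dm R gad cell f G0 c y))
      = 0 := by
  have hoffD := (off_Dm (R := R) (cell := cell) (f := f) (gad := gad) hG0 c).mono
    (gadSet_subset_geG gad c)
  have hoffF := (off_dens (R := R) (cell := cell) (gad := gad)
    (fun j => off_bc_geG (f := f) hG0 j) c).mono (gadSet_subset_geG gad c)
  have e : ∀ y : ι → Bool,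
      Dm R gad cell f G0 c y * (Dm R gad cell f G0 (c+1) y - Dm R gad cell f G0 c y)
      = (Dm R gad cell f G0 c y * dens R gad cell (bc f (blkOf gad G0)) c y)
          * rho R gad cell (bc f (blkOf gad G0)) c y
        - ∑ j ∈ gadSet gad c, (Dm R gad cell f G0 c y * Bc f (blkOf gad G0) j y) * sg (y j) := by
    intro y
    have h2 := Gm_succ_sub (f := f) (gad := gad) (blkOf gad G0) c y
    have h3 := dens_succ R gad cell (bc f (blkOf gad G0)) c y
    have h4 : ∑ j ∈ gadSet gad c, (Dm R gad cell f G0 c y * Bc f (blkOf gad G0) j y) * sg (y j)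
        = Dm R gad cell f G0 c y * ∑ j ∈ gadSet gad c, Bc f (blkOf gad G0) j y * sg (y j) := by
      rw [Finset.mul_sum]
      exact Finset.sum_congr rfl (fun j _ => by ring)
    rw [h4, ← h2]
    have h5 : Dm R gad cell f G0 (c+1) y
        = dens R gad cell (bc f (blkOf gad G0)) c y * (1 + rho R gad cell (bc f (blkOf gad G0)) c y)
          - Gm f (blkOf gad G0) gad (c+1) y := by
      unfold Dm; rw [h3]
    rw [h5]
    unfold Dm
    ring
  rw [avg_congr e, avg_sub, avg_sum]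
  have hb' : ∀ j ∈ gadSet gad c, Off (gadSet gad c) (bc f (blkOf gad G0) j) := by
    intro j hj
    rw [mem_gadSet] at hj
    exact (off_bc_geG (f := f) hG0 j).mono (by rw [hj]; exact gadSet_subset_geG _ _)
  rw [avg_mul_rho_eq_zero hb']
  · rw [Finset.sum_eq_zero, sub_zero]
    intro j hj
    apply avg_mul_sg_eq_zero
    intro y y' hy
    show Dm R gad cell f G0 c y * Bc f (blkOf gad G0) j y
      = Dm R gad cell f G0 c y' * Bc f (blkOf gad G0) j y'
    rw [hoffD.mono (Finset.singleton_subset_iff.mpr hj) y y' hy,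
      off_Bc_singleton f (blkOf gad G0) le_rfl y y' hy]
  · intro y y' hy
    show Dm R gad cell f G0 c y * dens R gad cell (bc f (blkOf gad G0)) c y
      = Dm R gad cell f G0 c y' * dens R gad cell (bc f (blkOf gad G0)) c y'
    rw [hoffD y y' hy, hoffF y y' hy]

/-- one step of the Gronwall recursion -/
theorem Dm_step (hs : 0 < s) (hR : 0 < R) (hG0 : 0 < G0) (hη : 0 < η) (hf : FLip lam f)
    (hfη : ∀ y, η ≤ f y) (hf2 : ∀ y, f y ≤ 2) (hf1 : avg f = 1)
    (hℓ : ∀ c κ, (cellSet gad cell c κ).card ≤ ℓ) (c : ℕ) :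
    avg (fun y => Dm R gad cell f G0 (c+1) y ^ 2)
      ≤ (1 + 5 * (qerr s R ℓ (lam / (2 * η)) + (gadSet gad c).card * (lam / (2 * η)) ^ 2))
          * avg (fun y => Dm R gad cell f G0 c y ^ 2)
        + 5 * (4 * qerr s R ℓ (lam / (2 * η)) + (gadSet gad c).card * (lam / (2 * η)) ^ 2 *
            ((Finset.univ.filter (fun i => blkOf gad G0 i = c / G0)).card * (lam / 2) ^ 2
              + avg (fun y => Nc f (blkOf gad G0) y ^ 2))) := by
  set β := lam / (2 * η) with hβdef
  set q := qerr s R ℓ β with hq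
  set g : ℝ := ((gadSet gad c).card : ℝ) with hg
  set b := bc f (blkOf gad G0) with hbdef
  have hq0 : 0 ≤ q := qerr_nonneg _ _ _ _
  have hg0 : 0 ≤ g * β ^ 2 := by rw [hg]; positivity
  have hb' : ∀ j ∈ gadSet gad c, Off (gadSet gad c) (b j) := by
    intro j hj
    rw [mem_gadSet] at hj
    exact (off_bc_geG (f := f) hG0 j).mono (by rw [hj]; exact gadSet_subset_geG _ _)
  have hβ : ∀ j y, |b j y| ≤ β := fun j y => abs_bc_le hη hf hfη _ j y
  have hoffD := (off_Dm (R := R) (cell := cell) (f := f) (gad := gad) hG0 c).mono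
    (gadSet_subset_geG gad c)
  have hoffG := (off_Gm (f := f) (gad := gad) hG0 c).mono (gadSet_subset_geG gad c)
  have hoffG' : Off (gadSet gad c) (Gm f (blkOf gad G0) gad (c / G0 * G0)) := by
    apply (off_Gm (f := f) (gad := gad) hG0 (c / G0 * G0)).mono
    intro i hi
    rw [mem_gadSet] at hi
    rw [mem_geG, hi]
    exact Nat.div_mul_le_self c G0
  have hoffN : Off (gadSet gad c) (cE (ltB (blkOf gad G0) (c / G0)) (Nc f (blkOf gad G0))) := by
    apply (off_cE (ltB (blkOf gad G0) (c / G0)) _).mono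
    intro i hi
    rw [mem_gadSet] at hi
    rw [Finset.mem_compl, mem_ltB]
    unfold blkOf
    rw [hi]; exact lt_irrefl _
  set u1 := Dm R gad cell f G0 c with hu1
  set u2 := Gm f (blkOf gad G0) gad c with hu2
  set u3 : (ι → Bool) → ℝ := fun y => Gm f (blkOf gad G0) gad c y
    - Gm f (blkOf gad G0) gad (c / G0 * G0) y with hu3
  set u4 := cE (ltB (blkOf gad G0) (c / G0)) (Nc f (blkOf gad G0)) with hu4
  have hoffu3 : Off (gadSet gad c) u3 := by
    intro y y' hy
    show u2 y - Gm f (blkOf gad G0) gad (c / G0 * G0) y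
      = u2 y' - Gm f (blkOf gad G0) gad (c / G0 * G0) y'
    rw [hoffG y y' hy, hoffG' y y' hy]
  have A1 := avg_err_sq_le (R := R) (ℓ := ℓ) (cell := cell) hs hR hb' hβ (hℓ c) hoffD
  have A2 := avg_err_sq_le (R := R) (ℓ := ℓ) (cell := cell) hs hR hb' hβ (hℓ c) hoffG
  have A3 := avg_lin_sq_le hb' hβ hoffD
  have A4 := avg_lin_sq_le hb' hβ hoffu3
  have A5 := avg_lin_sq_le hb' hβ hoffN
  have B2 : avg (fun y => u2 y ^ 2) ≤ 4 :=
    avg_Gm_sq_le hf1 (fun y => hη.le.trans (hfη y)) hf2 _ c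
  have B3 : avg (fun y => u3 y ^ 2)
      ≤ (Finset.univ.filter (fun i => blkOf gad G0 i = c / G0)).card * (lam / 2) ^ 2 :=
    avg_Gm_sub_sq_le hG0 hf c
  have B4 : avg (fun y => u4 y ^ 2) ≤ avg (fun y => Nc f (blkOf gad G0) y ^ 2) :=
    avg_cE_sq_le _ _
  -- expansion
  have e : ∀ y : ι → Bool, Dm R gad cell f G0 (c+1) y ^ 2
      = u1 y ^ 2 + 2 * (u1 y * (Dm R gad cell f G0 (c+1) y - u1 y))
        + (Dm R gad cell f G0 (c+1) y - u1 y) ^ 2 := by
    intro y; ring
  have h0 : avg (fun y => u1 y * (Dm R gad cell f G0 (c+1) y - u1 y)) = 0 := Dm_orth hG0 c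
  have h1 : ∀ y : ι → Bool, (Dm R gad cell f G0 (c+1) y - u1 y) ^ 2
      ≤ 5 * ((((u1 y * (rho R gad cell b c y - lin gad b c y)) ^ 2
        + (u2 y * (rho R gad cell b c y - lin gad b c y)) ^ 2)
        + (u1 y * lin gad b c y) ^ 2)
        + (u3 y * lin gad b c y) ^ 2 + (u4 y * lin gad b c y) ^ 2) := by
    intro y
    have h2 := Dm_succ_sub (R := R) (cell := cell) (gad := gad) hG0 hη hfη c y
    rw [← hu1, ← hbdef] at h2
    rw [h2]
    have key : ∀ a1 a2 a3 a4 a5 : ℝ, (a1 + a2 + a3 + a4 - a5) ^ 2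
        ≤ 5 * (((a1 ^ 2 + a2 ^ 2) + a3 ^ 2) + a4 ^ 2 + a5 ^ 2) := by
      intro a1 a2 a3 a4 a5
      nlinarith [sq_nonneg (a1 - a2), sq_nonneg (a1 - a3), sq_nonneg (a1 - a4), sq_nonneg (a1 + a5),
        sq_nonneg (a2 - a3), sq_nonneg (a2 - a4), sq_nonneg (a2 + a5), sq_nonneg (a3 - a4),
        sq_nonneg (a3 + a5), sq_nonneg (a4 + a5)]
    exact key _ _ _ _ _
  rw [avg_congr e, avg_add, avg_add, avg_const_mul, h0]
  have h3 := avg_mono h1
  rw [avg_const_mul, avg_add, avg_add, avg_add, avg_add] at h3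
  have C2 := mul_le_mul_of_nonneg_left B2 hq0
  have C3 := mul_le_mul_of_nonneg_left B3 hg0
  have C4 := mul_le_mul_of_nonneg_left B4 hg0
  linarith

theorem gronwall_aux (e a d : ℕ → ℝ) (he0 : e 0 ≤ 0) (ha : ∀ c, 0 ≤ a c)
    (hd : ∀ c, 0 ≤ d c) (h : ∀ c, e (c+1) ≤ (1 + a c) * e c + d c) (c : ℕ) :
    e c ≤ Real.exp (∑ i ∈ Finset.range c, a i) * ∑ i ∈ Finset.range c, d i := by
  induction c with
  | zero => simpa using he0
  | succ c ih =>
    have h1 := h c
    have hS : 0 ≤ ∑ i ∈ Finset.range c, d i := Finset.sum_nonneg (fun i _ => hd i)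
    have hA : 0 ≤ ∑ i ∈ Finset.range (c+1), a i := Finset.sum_nonneg (fun i _ => ha i)
    have h2 : (1 + a c) * e c ≤ Real.exp (a c) *
        (Real.exp (∑ i ∈ Finset.range c, a i) * ∑ i ∈ Finset.range c, d i) := by
      have h3 : 1 + a c ≤ Real.exp (a c) := by
        have := Real.add_one_le_exp (a c); linarith
      calc (1 + a c) * e c ≤ (1 + a c) *
            (Real.exp (∑ i ∈ Finset.range c, a i) * ∑ i ∈ Finset.range c, d i) :=
            mul_le_mul_of_nonneg_left ih (by have := ha c; linarith)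
        _ ≤ _ := mul_le_mul_of_nonneg_right h3 (by positivity)
    have h4 : d c ≤ Real.exp (∑ i ∈ Finset.range (c+1), a i) * d c := by
      have := Real.one_le_exp hA
      nlinarith [hd c]
    have h5 : Real.exp (a c) *
        (Real.exp (∑ i ∈ Finset.range c, a i) * ∑ i ∈ Finset.range c, d i)
        = Real.exp (∑ i ∈ Finset.range (c+1), a i) * ∑ i ∈ Finset.range c, d i := by
      rw [Finset.sum_range_succ, add_comm, Real.exp_add]; ring
    rw [Finset.sum_range_succ d, mul_add, ← h5]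
    linarith

theorem sum_gad_weight (gad : ι → ℕ) (Γ : ℕ) (hΓ : ∀ j, gad j < Γ) (h : ℕ → ℝ) :
    ∑ c ∈ Finset.range Γ, ((gadSet gad c).card : ℝ) * h c = ∑ j : ι, h (gad j) := by
  have e : ∀ c, ((gadSet gad c).card : ℝ) * h c = ∑ j : ι, if gad j = c then h c else 0 := by
    intro c
    unfold gadSet
    rw [Finset.card_filter]
    push_cast
    rw [Finset.sum_mul]
    apply Finset.sum_congr rfl
    intro j _
    split_ifs <;> simp
  rw [Finset.sum_congr rfl (fun c _ => e c), Finset.sum_comm]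
  apply Finset.sum_congr rfl
  intro j _
  rw [Finset.sum_ite_eq (Finset.range Γ) (gad j) h, if_pos (Finset.mem_range.mpr (hΓ j))]

/-- The density of the process is close to `f` in `L²`. -/
theorem dens_close (hs : 0 < s) (hR : 0 < R) (hG0 : 0 < G0) (hη : 0 < η) (hf : FLip lam f)
    (hfη : ∀ y, η ≤ f y) (hf2 : ∀ y, f y ≤ 2) (hf1 : avg f = 1)
    (hℓ : ∀ c κ, (cellSet gad cell c κ).card ≤ ℓ) (T : ℕ) (hT : ∀ j, gad j < T * G0) :
    avg (fun y => (dens R gad cell (bc f (blkOf gad G0)) (T * G0) y - f y) ^ 2)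
      ≤ 2 * (Real.exp (5 * ((T * G0 : ℕ) * qerr s R ℓ (lam / (2 * η))
              + Fintype.card ι * (lam / (2 * η)) ^ 2))
          * (5 * (4 * ((T * G0 : ℕ) * qerr s R ℓ (lam / (2 * η)))
            + (lam / (2 * η)) ^ 2 * ((lam / 2) ^ 2 * sqSizes (blkOf gad G0)
              + Fintype.card ι * defect f (blkOf gad G0)))))
        + 2 * defect f (blkOf gad G0) := by
  set β := lam / (2 * η) with hβdef
  set q := qerr s R ℓ β with hq
  set ν2 := avg (fun y => Nc f (blkOf gad G0) y ^ 2) with hν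
  have hblk : ∀ i, blkOf gad G0 i < T := by
    intro i
    unfold blkOf
    rw [Nat.div_lt_iff_lt_mul hG0]; exact hT i
  have hνd : ν2 ≤ defect f (blkOf gad G0) := avg_Nc_sq_le_defect hf1 hblk
  have hν0 : 0 ≤ ν2 := avg_nonneg (fun y => sq_nonneg _)
  have hq0 : 0 ≤ q := qerr_nonneg _ _ _ _
  have hG := gronwall_aux (fun c => avg (fun y => Dm R gad cell f G0 c y ^ 2))
    (fun c => 5 * (q + (gadSet gad c).card * β ^ 2))
    (fun c => 5 * (4 * q + (gadSet gad c).card * β ^ 2 *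
            ((Finset.univ.filter (fun i => blkOf gad G0 i = c / G0)).card * (lam / 2) ^ 2
              + ν2)))
    (by
      have : ∀ y : ι → Bool, Dm R gad cell f G0 0 y ^ 2 = 0 := by
        intro y
        unfold Dm dens Gm
        simp [ltG]
      show avg (fun y => Dm R gad cell f G0 0 y ^ 2) ≤ 0
      rw [avg_congr this, avg_zero])
    (fun c => by positivity) (fun c => by positivity)
    (fun c => Dm_step hs hR hG0 hη hf hfη hf2 hf1 hℓ c) (T * G0)
  -- the two sums
  have S1 : ∑ c ∈ Finset.range (T * G0), 5 * (q + ((gadSet gad c).card : ℝ) * β ^ 2)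
      = 5 * ((T * G0 : ℕ) * q + Fintype.card ι * β ^ 2) := by
    rw [← Finset.mul_sum, Finset.sum_add_distrib, Finset.sum_const, Finset.card_range,
      nsmul_eq_mul, sum_gad_weight gad _ hT (fun _ => β ^ 2), Finset.sum_const, Finset.card_univ,
      nsmul_eq_mul]
  have S2 : ∑ c ∈ Finset.range (T * G0), 5 * (4 * q + ((gadSet gad c).card : ℝ) * β ^ 2 *
            (((Finset.univ.filter (fun i => blkOf gad G0 i = c / G0)).card : ℝ) * (lam / 2) ^ 2
              + ν2))
      = 5 * (4 * ((T * G0 : ℕ) * q)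
            + β ^ 2 * ((lam / 2) ^ 2 * sqSizes (blkOf gad G0) + Fintype.card ι * ν2)) := by
    rw [← Finset.mul_sum, Finset.sum_add_distrib, Finset.sum_const, Finset.card_range,
      nsmul_eq_mul]
    have e1 : ∀ c, ((gadSet gad c).card : ℝ) * β ^ 2 *
            (((Finset.univ.filter (fun i => blkOf gad G0 i = c / G0)).card : ℝ) * (lam / 2) ^ 2
              + ν2)
        = ((gadSet gad c).card : ℝ) * (β ^ 2 *
            (((Finset.univ.filter (fun i => blkOf gad G0 i = c / G0)).card : ℝ) * (lam / 2) ^ 2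
              + ν2)) := by intro c; ring
    rw [Finset.sum_congr rfl (fun c _ => e1 c), sum_gad_weight gad _ hT (fun c => β ^ 2 *
            (((Finset.univ.filter (fun i => blkOf gad G0 i = c / G0)).card : ℝ) * (lam / 2) ^ 2
              + ν2)), ← Finset.mul_sum, Finset.sum_add_distrib, Finset.sum_const,
      Finset.card_univ, nsmul_eq_mul, ← Finset.sum_mul]
    have e2 : (∑ j : ι, ((Finset.univ.filter (fun i => blkOf gad G0 i = gad j / G0)).card : ℝ))
        = sqSizes (blkOf gad G0) := by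
      unfold sqSizes
      push_cast
      rfl
    rw [e2]
    ring
  rw [S1, S2] at hG
  -- final comparison
  have hlt : ltG gad (T * G0) = Finset.univ := by
    ext i; simp [mem_ltG, hT i]
  have e : ∀ y : ι → Bool, (dens R gad cell (bc f (blkOf gad G0)) (T * G0) y - f y) ^ 2
      ≤ 2 * Dm R gad cell f G0 (T * G0) y ^ 2 + 2 * Nc f (blkOf gad G0) y ^ 2 := by
    intro y
    have e1 : dens R gad cell (bc f (blkOf gad G0)) (T * G0) y - f y
        = Dm R gad cell f G0 (T * G0) y - Nc f (blkOf gad G0) y := by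
      unfold Dm Nc Gm
      rw [hlt]; ring
    rw [e1]
    nlinarith [sq_nonneg (Dm R gad cell f G0 (T * G0) y + Nc f (blkOf gad G0) y)]
  refine (avg_mono e).trans ?_
  rw [avg_add, avg_const_mul, avg_const_mul]
  have hexp : 0 ≤ Real.exp (5 * ((T * G0 : ℕ) * q + Fintype.card ι * β ^ 2)) := Real.exp_nonneg _
  have h6 : 5 * (4 * ((T * G0 : ℕ) * q)
            + β ^ 2 * ((lam / 2) ^ 2 * sqSizes (blkOf gad G0) + Fintype.card ι * ν2))
      ≤ 5 * (4 * ((T * G0 : ℕ) * q)
            + β ^ 2 * ((lam / 2) ^ 2 * sqSizes (blkOf gad G0)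
              + Fintype.card ι * defect f (blkOf gad G0))) := by
    have h7 : (Fintype.card ι : ℝ) * ν2 ≤ Fintype.card ι * defect f (blkOf gad G0) :=
      mul_le_mul_of_nonneg_left hνd (Nat.cast_nonneg _)
    have h8 := mul_le_mul_of_nonneg_left h7 (sq_nonneg β)
    linarith
  have h9 := mul_le_mul_of_nonneg_left h6 hexp
  linarith

end main

end Pool.Agent.Helper50_Stretch
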