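import Mathlib
import Pool.Agent.Helper50_Stretch.Gronwall

set_option autoImplicit false
set_option linter.unusedSectionVars false

namespace Pool.Agent.Helper50_Stretch

variable {ι : Type*} [DecidableEq ι] [Fintype ι]

theorem hd_neg (C : Finset ι) (z z' : ι → Bool) :
    hammingDist (neg C z) (neg C z') = hammingDist z z' := by
  unfold hammingDist
  congr 1
  ext i
  simp only [Finset.mem_filter, Finset.mem_univ, true_and]
  by_cases h : i ∈ C <;> simp [neg, h]

theorem hd_neg_self (C : Finset ι) (z : ι → Bool) : hammingDist z (neg C z) ≤ C.card := by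
  unfold hammingDist
  apply Finset.card_le_card
  intro i hi
  simp only [Finset.mem_filter, Finset.mem_univ, true_and] at hi
  by_contra h
  exact hi (neg_notMem h z).symm

theorem hd_flip (i : ι) (z : ι → Bool) : hammingDist z (flip i z) ≤ 1 := by
  unfold hammingDist
  rw [← Finset.card_singleton i]
  apply Finset.card_le_card
  intro j hj
  simp only [Finset.mem_filter, Finset.mem_univ, true_and] at hj
  by_contra h
  rw [Finset.mem_singleton] at h
  exact hj (flip_ne h z).symm

section step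
variable {s R ℓ : ℕ} {gad : ι → ℕ} {cell : ι → Fin s} {b : ι → (ι → Bool) → ℝ}

theorem sum_diff_le {R : ℕ} (t t' : ℝ) :
    ∑ u : Fin R, (if ((2 * (u : ℝ) + 1) ≤ R * (1 + t)) ↔ ((2 * (u : ℝ) + 1) ≤ R * (1 + t'))
      then (0:ℝ) else 1) ≤ R * |t - t'| / 2 + 1 := by
  have key : ∀ t t' : ℝ, t ≤ t' →
      ∑ u : Fin R, (if ((2 * (u : ℝ) + 1) ≤ R * (1 + t)) ↔ ((2 * (u : ℝ) + 1) ≤ R * (1 + t'))
        then (0:ℝ) else 1) ≤ R * |t - t'| / 2 + 1 := by
    intro t t' h
    have hR : (0:ℝ) ≤ R := Nat.cast_nonneg R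
    have hle : R * (1 + t) ≤ R * (1 + t') := mul_le_mul_of_nonneg_left (by linarith) hR
    have e : ∀ u : Fin R, (if ((2 * (u : ℝ) + 1) ≤ R * (1 + t)) ↔
        ((2 * (u : ℝ) + 1) ≤ R * (1 + t')) then (0:ℝ) else 1)
        = (if ((2 * (u : ℝ) + 1) ≤ R * (1 + t')) then (1:ℝ) else 0)
          - (if ((2 * (u : ℝ) + 1) ≤ R * (1 + t)) then (1:ℝ) else 0) := by
      intro u
      by_cases h1 : (2 * (u : ℝ) + 1) ≤ R * (1 + t)
      · have h2 : (2 * (u : ℝ) + 1) ≤ R * (1 + t') := h1.trans hle
        simp [h1, h2]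
      · by_cases h2 : (2 * (u : ℝ) + 1) ≤ R * (1 + t')
        · simp [h1, h2]
        · simp [h1, h2]
    rw [Finset.sum_congr rfl (fun u _ => e u), Finset.sum_sub_distrib, sum_ind_le, sum_ind_le,
      abs_of_nonpos (by linarith)]
    have := cnt_sub_le R h
    linarith
  rcases le_total t t' with h | h
  · exact key t t' h
  · rw [abs_sub_comm]
    refine le_trans (le_of_eq ?_) (key t' t h)
    apply Finset.sum_congr rfl
    intro u _
    by_cases h1 : (2 * (u : ℝ) + 1) ≤ R * (1 + t) <;>
      by_cases h2 : (2 * (u : ℝ) + 1) ≤ R * (1 + t') <;> simp [h1, h2]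

theorem step_dist_le (hℓ : ∀ c κ, (cellSet gad cell c κ).card ≤ ℓ) (c : ℕ) (ω : Fin s × Fin R)
    (z z' : ι → Bool) :
    (hammingDist (step gad cell b c ω z) (step gad cell b c ω z') : ℝ)
      ≤ hammingDist z z' + ℓ *
        (if ((2 * (ω.2 : ℝ) + 1) ≤ R * (1 + tau gad cell b c ω.1 z)) ↔
          ((2 * (ω.2 : ℝ) + 1) ≤ R * (1 + tau gad cell b c ω.1 z')) then (0:ℝ) else 1) := by
  unfold step
  by_cases h1 : (2 * (ω.2 : ℝ) + 1) ≤ R * (1 + tau gad cell b c ω.1 z) <;>
    by_cases h2 : (2 * (ω.2 : ℝ) + 1) ≤ R * (1 + tau gad cell b c ω.1 z')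
  · simp [h1, h2]
  · simp only [h1, h2, if_true, if_false, iff_false, not_true_eq_false, mul_one]
    have h3 := hammingDist_triangle z z' (neg (cellSet gad cell c ω.1) z')
    have h4 := (hd_neg_self (cellSet gad cell c ω.1) z').trans (hℓ c ω.1)
    exact_mod_cast (by omega : hammingDist z (neg (cellSet gad cell c ω.1) z')
      ≤ hammingDist z z' + ℓ)
  · simp only [h1, h2, if_true, if_false, iff_true, mul_one]
    have h3 := hammingDist_triangle (neg (cellSet gad cell c ω.1) z) z z'
    have h4 := (hd_neg_self (cellSet gad cell c ω.1) z).trans (hℓ c ω.1)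
    rw [hammingDist_comm (neg (cellSet gad cell c ω.1) z) z] at h3
    exact_mod_cast (by omega : hammingDist (neg (cellSet gad cell c ω.1) z) z'
      ≤ hammingDist z z' + ℓ)
  · simp only [h1, h2, if_false, hd_neg, iff_self, if_true, mul_zero, add_zero, le_refl]

theorem avg_step_dist_le (hs : 0 < s) (hR : 0 < R)
    (hℓ : ∀ c κ, (cellSet gad cell c κ).card ≤ ℓ) (c : ℕ) (z z' : ι → Bool) :
    avg (fun ω : Fin s × Fin R =>
        (hammingDist (step gad cell b c ω z) (step gad cell b c ω z') : ℝ))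
      ≤ hammingDist z z' + ℓ * ((∑ j ∈ gadSet gad c, |b j z * sg (z j) - b j z' * sg (z' j)|) / 2
        + 1 / R) := by
  have hs' : (0:ℝ) < s := by exact_mod_cast hs
  have hR' : (0:ℝ) < R := by exact_mod_cast hR
  have : Nonempty (Fin s) := ⟨⟨0, hs⟩⟩
  have : Nonempty (Fin R) := ⟨⟨0, hR⟩⟩
  refine (avg_mono (fun ω => step_dist_le hℓ c ω z z')).trans ?_
  rw [avg_add, avg_const, avg_const_mul]
  have h1 : avg (fun ω : Fin s × Fin R =>
      (if ((2 * (ω.2 : ℝ) + 1) ≤ R * (1 + tau gad cell b c ω.1 z)) ↔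
          ((2 * (ω.2 : ℝ) + 1) ≤ R * (1 + tau gad cell b c ω.1 z')) then (0:ℝ) else 1))
      ≤ (∑ j ∈ gadSet gad c, |b j z * sg (z j) - b j z' * sg (z' j)|) / 2 + 1 / R := by
    rw [avg_prod]
    have h2 : ∀ κ : Fin s, avg (fun u : Fin R =>
        (if ((2 * (u : ℝ) + 1) ≤ R * (1 + tau gad cell b c κ z)) ↔
          ((2 * (u : ℝ) + 1) ≤ R * (1 + tau gad cell b c κ z')) then (0:ℝ) else 1))
        ≤ (s / 2) * (∑ j ∈ cellSet gad cell c κ, |b j z * sg (z j) - b j z' * sg (z' j)|)
          + 1 / R := by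
      intro κ
      unfold avg
      rw [Fintype.card_fin, div_le_iff₀ hR']
      refine (sum_diff_le _ _).trans ?_
      have h3 : |tau gad cell b c κ z - tau gad cell b c κ z'|
          ≤ s * ∑ j ∈ cellSet gad cell c κ, |b j z * sg (z j) - b j z' * sg (z' j)| := by
        unfold tau
        rw [← mul_sub, abs_mul, abs_of_pos hs', ← Finset.sum_sub_distrib]
        exact mul_le_mul_of_nonneg_left (Finset.abs_sum_le_sum_abs _ _) hs'.le
      have h4 := mul_le_mul_of_nonneg_left h3 hR'.le
      have h5 : (1 / (R:ℝ)) * R = 1 := by field_simp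
      rw [add_mul, h5]
      linarith
    refine (avg_mono h2).trans ?_
    rw [avg_add, avg_const, avg_const_mul]
    have h6 : avg (fun κ : Fin s =>
        ∑ j ∈ cellSet gad cell c κ, |b j z * sg (z j) - b j z' * sg (z' j)|)
        = (∑ j ∈ gadSet gad c, |b j z * sg (z j) - b j z' * sg (z' j)|) / s := by
      rw [sum_gadSet gad cell]
      unfold avg
      rw [Fintype.card_fin]
    rw [h6]
    apply le_of_eq
    field_simp
  have h7 := mul_le_mul_of_nonneg_left h1 (Nat.cast_nonneg ℓ : (0:ℝ) ≤ ℓ)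
  linarith

theorem Z_unchanged {w : ℕ → Fin s × Fin R} {y : ι → Bool} {i : ι} {c m : ℕ}
    (h : gad i < c ∨ c + m ≤ gad i) : Z gad cell b w y (c + m) i = Z gad cell b w y c i := by
  induction m with
  | zero => rfl
  | succ m ih =>
    have h1 : Z gad cell b w y (c + (m + 1)) i = Z gad cell b w y (c + m) i := by
      show step gad cell b (c + m) (w (c + m)) (Z gad cell b w y (c + m)) i = _
      unfold step
      split_ifs
      · rfl
      · apply neg_notMem
        rw [mem_cellSet]
        rintro ⟨h2, _⟩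
        omega
    rw [h1]
    exact ih (by omega)

end step

section blocks
variable {s R ℓ G0 : ℕ} {gad : ι → ℕ} {cell : ι → Fin s} {b : ι → (ι → Bool) → ℝ} {β L : ℝ}

/-- pairs of coordinates processed in the first `m` gadgets of block `k` -/
def part (gad : ι → ℕ) (G0 k m : ℕ) : Finset ι :=
  Finset.univ.filter (fun j => k * G0 ≤ gad j ∧ gad j < k * G0 + m)

theorem in_block (hs : 0 < s) (hR : 0 < R) (hG0 : 0 < G0)
    (hℓ : ∀ c κ, (cellSet gad cell c κ).card ≤ ℓ)
    (hb : ∀ j, Off (ltB (blkOf gad G0) (blkOf gad G0 j))ᶜ (b j))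
    (hβ : ∀ j y, |b j y| ≤ β) {Γ : ℕ} (w0 : Fin s × Fin R)
    (y y' : ι → Bool) (k m : ℕ) (hm : m ≤ G0) (hΓ : k * G0 + m ≤ Γ) :
    avg (fun w : Fin Γ → Fin s × Fin R =>
      (hammingDist (Z gad cell b (ext Γ w0 w) y (k * G0 + m))
        (Z gad cell b (ext Γ w0 w) y' (k * G0 + m)) : ℝ))
    ≤ avg (fun w : Fin Γ → Fin s × Fin R =>
      (hammingDist (Z gad cell b (ext Γ w0 w) y (k * G0))
        (Z gad cell b (ext Γ w0 w) y' (k * G0)) : ℝ))
      + ℓ * (avg (fun w : Fin Γ → Fin s × Fin R =>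
          ∑ j ∈ part gad G0 k m, |b j (Z gad cell b (ext Γ w0 w) y (k * G0))
            - b j (Z gad cell b (ext Γ w0 w) y' (k * G0))|) / 2
        + β * ((part gad G0 k m).filter (fun j => y j ≠ y' j)).card + m / R) := by
  have : Nonempty (Fin s × Fin R) := ⟨w0⟩
  induction m with
  | zero =>
    have : part gad G0 k 0 = ∅ := by
      ext j; simp only [part, Finset.mem_filter, Finset.mem_univ, true_and, Finset.notMem_empty,
        iff_false]; omega
    rw [this]
    simp [avg_zero]
  | succ m ih =>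
    have ih' := ih (by omega) (by omega)
    have hcΓ : k * G0 + m < Γ := by omega
    set c := k * G0 + m with hc
    have hpart : part gad G0 k (m+1) = part gad G0 k m ∪ gadSet gad c := by
      ext j
      simp only [part, Finset.mem_filter, Finset.mem_univ, true_and, Finset.mem_union, mem_gadSet]
      omega
    have hdisj : Disjoint (part gad G0 k m) (gadSet gad c) := by
      rw [Finset.disjoint_left]
      intro j hj hj'
      simp only [part, Finset.mem_filter, Finset.mem_univ, true_and] at hj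
      rw [mem_gadSet] at hj'
      omega
    -- the new step
    have e1 : avg (fun w : Fin Γ → Fin s × Fin R =>
        (hammingDist (Z gad cell b (ext Γ w0 w) y (c + 1))
          (Z gad cell b (ext Γ w0 w) y' (c + 1)) : ℝ))
        ≤ avg (fun w : Fin Γ → Fin s × Fin R =>
          (hammingDist (Z gad cell b (ext Γ w0 w) y c) (Z gad cell b (ext Γ w0 w) y' c) : ℝ)
          + ℓ * ((∑ j ∈ gadSet gad c, |b j (Z gad cell b (ext Γ w0 w) y (k * G0))
            - b j (Z gad cell b (ext Γ w0 w) y' (k * G0))|) / 2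
            + (β * ((gadSet gad c).filter (fun j => y j ≠ y' j)).card + 1 / R))) := by
      rw [avg_update (⟨c, hcΓ⟩ : Fin Γ)]
      apply avg_mono
      intro w
      have e2 : ∀ ω : Fin s × Fin R,
          (hammingDist (Z gad cell b (ext Γ w0 (Function.update w ⟨c, hcΓ⟩ ω)) y (c + 1))
            (Z gad cell b (ext Γ w0 (Function.update w ⟨c, hcΓ⟩ ω)) y' (c + 1)) : ℝ)
          = (hammingDist (step gad cell b c ω (Z gad cell b (ext Γ w0 w) y c))
            (step gad cell b c ω (Z gad cell b (ext Γ w0 w) y' c)) : ℝ) := by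
        intro ω
        rw [Z_update hcΓ, Z_update hcΓ]
      rw [avg_congr e2]
      refine (avg_step_dist_le hs hR hℓ c _ _).trans ?_
      set z := Z gad cell b (ext Γ w0 w) y c with hz
      set z' := Z gad cell b (ext Γ w0 w) y' c with hz'
      have h1 : ∑ j ∈ gadSet gad c, |b j z * sg (z j) - b j z' * sg (z' j)|
          ≤ ∑ j ∈ gadSet gad c, (|b j (Z gad cell b (ext Γ w0 w) y (k * G0))
            - b j (Z gad cell b (ext Γ w0 w) y' (k * G0))|
            + (if y j ≠ y' j then 2 * β else 0)) := by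
        apply Finset.sum_le_sum
        intro j hj
        rw [mem_gadSet] at hj
        have hblk : blkOf gad G0 j = k := by
          unfold blkOf
          rw [hj, hc]
          exact Nat.div_eq_of_lt_le (by omega) (by rw [Nat.add_mul]; omega)
        have hbz : ∀ y : ι → Bool, b j (Z gad cell b (ext Γ w0 w) y c)
            = b j (Z gad cell b (ext Γ w0 w) y (k * G0)) := by
          intro y
          apply hb j
          intro i hi
          rw [Finset.mem_compl, not_not, mem_ltB, hblk] at hi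
          rw [hc]
          apply Z_unchanged
          left
          unfold blkOf at hi
          rwa [Nat.div_lt_iff_lt_mul hG0] at hi
        have hzy : ∀ y : ι → Bool, Z gad cell b (ext Γ w0 w) y c j = y j := by
          intro y
          have := Z_unchanged (gad := gad) (cell := cell) (b := b) (w := ext Γ w0 w) (y := y)
            (i := j) (c := 0) (m := c) (by right; omega)
          rw [Nat.zero_add] at this
          rw [this]
          rfl
        rw [hz, hz', hbz y, hbz y', hzy y, hzy y']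
        set p := b j (Z gad cell b (ext Γ w0 w) y (k * G0)) with hp
        set p' := b j (Z gad cell b (ext Γ w0 w) y' (k * G0)) with hp'
        by_cases hyy : y j = y' j
        · rw [hyy, if_neg (by simp), ← sub_mul, abs_mul, abs_sg, mul_one, add_zero]
        · rw [if_pos hyy]
          have h2 : sg (y' j) = - sg (y j) := by
            have : y' j = !(y j) := by
              cases h3 : y j <;> cases h4 : y' j <;> simp_all
            rw [this, sg_not]
          rw [h2]
          have h3 : p * sg (y j) - p' * -sg (y j) = (p - p') * sg (y j) + 2 * p' * sg (y j) := by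
            ring
          rw [h3]
          refine (abs_add_le _ _).trans ?_
          rw [abs_mul, abs_mul, abs_mul, abs_sg, abs_two]
          have := hβ j (Z gad cell b (ext Γ w0 w) y' (k * G0))
          rw [← hp'] at this
          linarith
      rw [Finset.sum_add_distrib, ← Finset.sum_filter, Finset.sum_const, nsmul_eq_mul] at h1
      have hℓ0 : (0:ℝ) ≤ ℓ := Nat.cast_nonneg ℓ
      have h4 : (∑ j ∈ gadSet gad c, |b j z * sg (z j) - b j z' * sg (z' j)|) / 2 + 1 / (R:ℝ)
          ≤ (∑ j ∈ gadSet gad c, |b j (Z gad cell b (ext Γ w0 w) y (k * G0))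
            - b j (Z gad cell b (ext Γ w0 w) y' (k * G0))|) / 2
            + (β * ((gadSet gad c).filter (fun j => y j ≠ y' j)).card + 1 / R) := by
        linarith
      have h5 := mul_le_mul_of_nonneg_left h4 hℓ0
      linarith
    refine e1.trans ?_
    rw [avg_add, avg_const_mul, avg_add, avg_div_const, avg_const]
    have e3 : avg (fun w : Fin Γ → Fin s × Fin R =>
          ∑ j ∈ part gad G0 k (m+1), |b j (Z gad cell b (ext Γ w0 w) y (k * G0))
            - b j (Z gad cell b (ext Γ w0 w) y' (k * G0))|)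
        = avg (fun w : Fin Γ → Fin s × Fin R =>
          ∑ j ∈ part gad G0 k m, |b j (Z gad cell b (ext Γ w0 w) y (k * G0))
            - b j (Z gad cell b (ext Γ w0 w) y' (k * G0))|)
          + avg (fun w : Fin Γ → Fin s × Fin R =>
          ∑ j ∈ gadSet gad c, |b j (Z gad cell b (ext Γ w0 w) y (k * G0))
            - b j (Z gad cell b (ext Γ w0 w) y' (k * G0))|) := by
      rw [← avg_add]
      apply avg_congr
      intro w
      rw [hpart, Finset.sum_union hdisj]
    have e4 : (((part gad G0 k (m+1)).filter (fun j => y j ≠ y' j)).card : ℝ)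
        = ((part gad G0 k m).filter (fun j => y j ≠ y' j)).card
          + ((gadSet gad c).filter (fun j => y j ≠ y' j)).card := by
      rw [hpart, Finset.filter_union, Finset.card_union_of_disjoint
        (Finset.disjoint_filter_filter hdisj)]
      push_cast; ring
    rw [e3, e4]
    push_cast
    have e5 : ((m:ℝ) + 1) / R = m / R + 1 / R := by ring
    rw [e5]
    linarith

/-- growth over one block -/
theorem one_block (hs : 0 < s) (hR : 0 < R) (hG0 : 0 < G0)
    (hℓ : ∀ c κ, (cellSet gad cell c κ).card ≤ ℓ)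
    (hb : ∀ j, Off (ltB (blkOf gad G0) (blkOf gad G0 j))ᶜ (b j))
    (hβ0 : 0 ≤ β) (hβ : ∀ j y, |b j y| ≤ β)
    (hL : ∀ k z z', ∑ j ∈ Finset.univ.filter (fun j => blkOf gad G0 j = k), |b j z - b j z'|
      ≤ L * hammingDist z z') {Γ : ℕ} (w0 : Fin s × Fin R)
    (y y' : ι → Bool) (k : ℕ) (hΓ : (k + 1) * G0 ≤ Γ) :
    avg (fun w : Fin Γ → Fin s × Fin R =>
      (hammingDist (Z gad cell b (ext Γ w0 w) y ((k + 1) * G0))
        (Z gad cell b (ext Γ w0 w) y' ((k + 1) * G0)) : ℝ))
    ≤ (1 + ℓ * L / 2) * avg (fun w : Fin Γ → Fin s × Fin R =>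
      (hammingDist (Z gad cell b (ext Γ w0 w) y (k * G0))
        (Z gad cell b (ext Γ w0 w) y' (k * G0)) : ℝ))
      + ℓ * (β * hammingDist y y' + G0 / R) := by
  have hk : (k + 1) * G0 = k * G0 + G0 := by ring
  have h1 := in_block (Γ := Γ) hs hR hG0 hℓ hb hβ w0 y y' k G0 le_rfl (by rw [← hk]; exact hΓ)
  rw [hk]
  refine h1.trans ?_
  have hℓ0 : (0:ℝ) ≤ ℓ := Nat.cast_nonneg ℓ
  have hp : part gad G0 k G0 = Finset.univ.filter (fun j => blkOf gad G0 j = k) := by
    ext j
    rw [part, Finset.mem_filter, Finset.mem_filter]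
    unfold blkOf
    constructor
    · rintro ⟨_, h1, h2⟩
      exact ⟨Finset.mem_univ _, Nat.div_eq_of_lt_le h1 (by rw [Nat.succ_mul]; exact h2)⟩
    · rintro ⟨_, h⟩
      subst h
      refine ⟨Finset.mem_univ _, Nat.div_mul_le_self _ _, ?_⟩
      rw [← Nat.succ_mul]
      exact Nat.lt_mul_of_div_lt (Nat.lt_succ_self _) hG0
  have h2 : avg (fun w : Fin Γ → Fin s × Fin R =>
          ∑ j ∈ part gad G0 k G0, |b j (Z gad cell b (ext Γ w0 w) y (k * G0))
            - b j (Z gad cell b (ext Γ w0 w) y' (k * G0))|)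
      ≤ L * avg (fun w : Fin Γ → Fin s × Fin R =>
      (hammingDist (Z gad cell b (ext Γ w0 w) y (k * G0))
        (Z gad cell b (ext Γ w0 w) y' (k * G0)) : ℝ)) := by
    rw [← avg_const_mul]
    apply avg_mono
    intro w
    rw [hp]
    exact hL k _ _
  have h3 : (((part gad G0 k G0).filter (fun j => y j ≠ y' j)).card : ℝ) ≤ hammingDist y y' := by
    unfold hammingDist
    exact_mod_cast Finset.card_le_card (Finset.filter_subset_filter _ (Finset.subset_univ _))
  have h4 := mul_le_mul_of_nonneg_left h3 hβ0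
  have h5 := mul_le_mul_of_nonneg_left h2 hℓ0
  have h6 := mul_le_mul_of_nonneg_left h4 hℓ0
  linarith

/-- the stretch of the whole process -/
theorem stretch_le (hs : 0 < s) (hR : 0 < R) (hG0 : 0 < G0)
    (hℓ : ∀ c κ, (cellSet gad cell c κ).card ≤ ℓ)
    (hb : ∀ j, Off (ltB (blkOf gad G0) (blkOf gad G0 j))ᶜ (b j))
    (hβ0 : 0 ≤ β) (hβ : ∀ j y, |b j y| ≤ β) (hL0 : 0 ≤ L)
    (hL : ∀ k z z', ∑ j ∈ Finset.univ.filter (fun j => blkOf gad G0 j = k), |b j z - b j z'|
      ≤ L * hammingDist z z') (T : ℕ) (w0 : Fin s × Fin R) (y y' : ι → Bool)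
    (hyy : hammingDist y y' ≤ 1) :
    avg (fun w : Fin (T * G0) → Fin s × Fin R =>
      (hammingDist (Z gad cell b (ext (T * G0) w0 w) y (T * G0))
        (Z gad cell b (ext (T * G0) w0 w) y' (T * G0)) : ℝ))
    ≤ (1 + ℓ * L / 2) ^ T * (1 + T * (ℓ * (β + G0 / R))) := by
  have hy1 : (hammingDist y y' : ℝ) ≤ 1 := by exact_mod_cast hyy
  have : Nonempty (Fin s × Fin R) := ⟨w0⟩
  have hℓ0 : (0:ℝ) ≤ ℓ := Nat.cast_nonneg ℓ
  have hA : 1 ≤ 1 + (ℓ:ℝ) * L / 2 := by
    have := mul_nonneg hℓ0 hL0; linarith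
  have hc0 : 0 ≤ (ℓ:ℝ) * (β + G0 / R) := by positivity
  have key : ∀ k : ℕ, k ≤ T → avg (fun w : Fin (T * G0) → Fin s × Fin R =>
      (hammingDist (Z gad cell b (ext (T * G0) w0 w) y (k * G0))
        (Z gad cell b (ext (T * G0) w0 w) y' (k * G0)) : ℝ))
      ≤ (1 + ℓ * L / 2) ^ k * (1 + k * (ℓ * (β + G0 / R))) := by
    intro k
    induction k with
    | zero =>
      intro _
      rw [Nat.zero_mul]
      have : avg (fun w : Fin (T * G0) → Fin s × Fin R =>
        (hammingDist (Z gad cell b (ext (T * G0) w0 w) y 0)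
          (Z gad cell b (ext (T * G0) w0 w) y' 0) : ℝ)) = hammingDist y y' :=
        avg_const (Ω := Fin (T * G0) → Fin s × Fin R) (hammingDist y y' : ℝ)
      rw [this]
      simpa using hy1
    | succ k ih =>
      intro hk
      have h1 := ih (by omega)
      have h2 := one_block hs hR hG0 hℓ hb hβ0 hβ hL w0 y y' k
        (Γ := T * G0) (Nat.mul_le_mul_right _ hk)
      refine h2.trans ?_
      have h3 := mul_le_mul_of_nonneg_left h1 (by linarith : 0 ≤ 1 + (ℓ:ℝ) * L / 2)
      have h4 : ℓ * (β * hammingDist y y' + G0 / R) ≤ (ℓ:ℝ) * (β + G0 / R) := by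
        apply mul_le_mul_of_nonneg_left _ hℓ0
        have := mul_le_mul_of_nonneg_left hy1 hβ0
        linarith
      have h5 : (1:ℝ) ≤ (1 + ℓ * L / 2) ^ (k+1) := one_le_pow₀ hA
      have h6 : (ℓ:ℝ) * (β + G0 / R) ≤ (1 + ℓ * L / 2) ^ (k+1) * (ℓ * (β + G0 / R)) := by
        nlinarith
      have h7 : (1 + ℓ * L / 2) ^ (k + 1) * (1 + ((k + 1 : ℕ) : ℝ) * (ℓ * (β + G0 / R)))
          = (1 + ℓ * L / 2) * ((1 + ℓ * L / 2) ^ k * (1 + k * (ℓ * (β + G0 / R))))
            + (1 + ℓ * L / 2) ^ (k + 1) * (ℓ * (β + G0 / R)) := by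
        push_cast; ring
      rw [h7]
      linarith
  exact key T le_rfl

end blocks

end Pool.Agent.Helper50_Stretch
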