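import Mathlib
import Pool.Agent.Helper50_Stretch.Stretch
import Pool.Agent.Helper50_Stretch.LipB

set_option autoImplicit false
set_option linter.unusedSectionVars false

namespace Pool.Agent.Helper50_Stretch

/-- A partition can be refined into gadgets and cells. -/
theorem exists_gadgets {n0 T G0 s ℓ : ℕ} (hs : 0 < s) (hℓ : 0 < ℓ)
    (hcap : n0 ≤ G0 * (ℓ * s)) (π : Fin n0 → Fin T) :
    ∃ (gad : Fin n0 → ℕ) (cell : Fin n0 → Fin s),
      (blkOf gad G0 = fun i => (π i : ℕ)) ∧ (∀ j, gad j < T * G0) ∧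
      ∀ c κ, (cellSet gad cell c κ).card ≤ ℓ := by
  classical
  set rank : Fin n0 → ℕ := fun j => (Finset.univ.filter (fun i => i < j ∧ π i = π j)).card
    with hrank
  have hrank_lt : ∀ j, rank j < G0 * (ℓ * s) := by
    intro j
    have h1 : rank j < n0 := by
      have h2 : (Finset.univ.filter (fun i => i < j ∧ π i = π j)) ⊂ Finset.univ := by
        rw [Finset.ssubset_univ_iff]
        intro h
        have := Finset.mem_univ j
        rw [← h] at this
        simp at this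
      have h3 := Finset.card_lt_card h2
      rwa [Finset.card_univ, Fintype.card_fin] at h3
    omega
  have hrank_inj : ∀ i j, π i = π j → rank i = rank j → i = j := by
    have key : ∀ i j, π i = π j → i < j → rank i < rank j := by
      intro i j hπ hij
      apply Finset.card_lt_card
      rw [Finset.ssubset_iff_of_subset]
      · refine ⟨i, ?_, ?_⟩
        · simp [hij, hπ]
        · simp
      · intro x hx
        simp only [Finset.mem_filter, Finset.mem_univ, true_and] at hx ⊢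
        exact ⟨hx.1.trans hij, hx.2.trans hπ⟩
    intro i j hπ hr
    rcases lt_trichotomy i j with h | h | h
    · have := key i j hπ h; omega
    · exact h
    · have := key j i hπ.symm h; omega
  have hls : 0 < ℓ * s := Nat.mul_pos hℓ hs
  have hq : ∀ j, rank j / (ℓ * s) < G0 := by
    intro j
    rw [Nat.div_lt_iff_lt_mul hls]
    exact hrank_lt j
  refine ⟨fun j => (π j : ℕ) * G0 + rank j / (ℓ * s),
    fun j => ⟨(rank j / ℓ) % s, Nat.mod_lt _ hs⟩, ?_, ?_, ?_⟩
  · funext j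
    have hG0 : 0 < G0 := lt_of_le_of_lt (Nat.zero_le _) (hq j)
    show ((π j : ℕ) * G0 + rank j / (ℓ * s)) / G0 = π j
    rw [Nat.mul_comm, Nat.mul_add_div hG0, Nat.div_eq_of_lt (hq j), Nat.add_zero]
  · intro j
    have h1 := hq j
    have h2 : (π j : ℕ) + 1 ≤ T := (π j).2
    calc (π j : ℕ) * G0 + rank j / (ℓ * s) < (π j : ℕ) * G0 + G0 := by omega
      _ = ((π j : ℕ) + 1) * G0 := by ring
      _ ≤ T * G0 := Nat.mul_le_mul_right _ h2
  · intro c κ
    -- rank maps the cell injectively into an interval of length ℓ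
    set m := (c % G0) * s + κ with hm
    have hcell : ∀ j ∈ cellSet (fun j => (π j : ℕ) * G0 + rank j / (ℓ * s))
        (fun j => (⟨(rank j / ℓ) % s, Nat.mod_lt _ hs⟩ : Fin s)) c κ,
        (π j : ℕ) = c / G0 ∧ rank j / ℓ = m := by
      intro j hj
      rw [mem_cellSet] at hj
      obtain ⟨h1, h2⟩ := hj
      have hG0 : 0 < G0 := lt_of_le_of_lt (Nat.zero_le _) (hq j)
      have h1' : (π j : ℕ) * G0 + rank j / (ℓ * s) = c := h1
      have h3 : c / G0 = π j := by
        rw [← h1', Nat.mul_comm, Nat.mul_add_div hG0, Nat.div_eq_of_lt (hq j), Nat.add_zero]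
      have h4 : c % G0 = rank j / (ℓ * s) := by
        rw [← h1', Nat.mul_comm, Nat.mul_add_mod, Nat.mod_eq_of_lt (hq j)]
      have h5 : (rank j / ℓ) % s = κ := by
        have := congrArg Fin.val h2; exact this
      refine ⟨h3.symm, ?_⟩
      have h6 := Nat.div_add_mod (rank j / ℓ) s
      rw [Nat.div_div_eq_div_mul, ← h4, h5] at h6
      rw [hm]
      rw [← h6]; ring
    have hmaps : ∀ j ∈ cellSet (fun j => (π j : ℕ) * G0 + rank j / (ℓ * s))
        (fun j => (⟨(rank j / ℓ) % s, Nat.mod_lt _ hs⟩ : Fin s)) c κ,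
        rank j ∈ Finset.Ico (ℓ * m) (ℓ * m + ℓ) := by
      intro j hj
      have h1 := (hcell j hj).2
      rw [Finset.mem_Ico]
      constructor
      · rw [← h1]; exact Nat.mul_div_le _ _
      · rw [← h1]
        have := Nat.lt_mul_div_succ (rank j) hℓ
        rw [Nat.mul_add, Nat.mul_one] at this
        exact this
    have hcard := Finset.card_le_card_of_injOn rank hmaps (by
      intro i hi j hj hij
      apply hrank_inj i j _ hij
      apply Fin.ext
      rw [(hcell i hi).1, (hcell j hj).1])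
    rw [Nat.card_Ico] at hcard
    omega

/-- total error of the law, squared -/
noncomputable def errTot (T G0 s R ℓ : ℕ) (K η lam : ℝ) : ℝ :=
  40 * Real.exp (5 * ((T * G0 : ℕ) * qerr s R ℓ (lam / (2 * η)) + K ^ 2 / (4 * η ^ 2)))
      * ((T * G0 : ℕ) * qerr s R ℓ (lam / (2 * η)))
  + ((10 * Real.exp (5 * ((T * G0 : ℕ) * qerr s R ℓ (lam / (2 * η)) + K ^ 2 / (4 * η ^ 2)))
        * (K ^ 2 / (4 * η ^ 2)) + 2) * (K ^ 2 / 4)
    + 5 * Real.exp (5 * ((T * G0 : ℕ) * qerr s R ℓ (lam / (2 * η)) + K ^ 2 / (4 * η ^ 2)))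
        * (K ^ 2 / (4 * η ^ 2)) * K ^ 2) / T

theorem core {n0 T G0 s R ℓ n : ℕ} (hs : 0 < s) (hR : 0 < R) (hℓ : 0 < ℓ) (hG0 : 0 < G0)
    (hT : 0 < T) (hcap : n0 ≤ G0 * (ℓ * s)) (hn0 : n0 ≤ n) (hnT : T ≤ n)
    {K η lam : ℝ} (hK : 0 < K) (hη : 0 < η) (hlam : 0 < lam) (hlamn : lam ^ 2 * n ≤ K ^ 2)
    (f : (Fin n0 → Bool) → ℝ) (hf : FLip lam f)
    (hfη : ∀ y, η ≤ f y) (hf2 : ∀ y, f y ≤ 2) (hf1 : avg f = 1) :
    ∃ Y : (Fin (T * G0) → Fin s × Fin R) → (Fin n0 → Bool) → (Fin n0 → Bool),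
      (∀ g : (Fin n0 → Bool) → ℝ, FLip 1 g →
        avg (fun y => f y * g y) - avg (fun y => avg (fun w => g (Y w y)))
          ≤ Real.sqrt (errTot T G0 s R ℓ K η lam) * (Real.sqrt n / 2)) ∧
      ∀ y i, avg (fun w => (hammingDist (Y w y) (Y w (flip i y)) : ℝ))
        ≤ (1 + ℓ * (K / η + K ^ 2 / (2 * η ^ 2)) / 2) ^ T
          * (1 + T * (ℓ * (lam / (2 * η) + G0 / R))) := by
  have hT' : (0:ℝ) < T := by exact_mod_cast hT
  have hn' : (0:ℝ) < n := by exact_mod_cast (by omega : 0 < n)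
  have hn0n : (n0:ℝ) ≤ n := by exact_mod_cast hn0
  set β := lam / (2 * η) with hβdef
  have hβ0 : 0 ≤ β := by rw [hβdef]; positivity
  set κ := K ^ 2 / (4 * η ^ 2) with hκ
  have hκ0 : 0 ≤ κ := by rw [hκ]; positivity
  set q := qerr s R ℓ β with hq
  have hq0 : 0 ≤ q := qerr_nonneg _ _ _ _
  have hlam0 : lam ^ 2 * n0 ≤ K ^ 2 := by
    refine le_trans ?_ hlamn
    exact mul_le_mul_of_nonneg_left hn0n (sq_nonneg _)
  have hβn : n0 * β ^ 2 ≤ κ := by
    rw [hβdef, hκ, div_pow, mul_pow]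
    rw [← mul_div_assoc, show (2:ℝ) ^ 2 * η ^ 2 = 4 * η ^ 2 by ring]
    apply div_le_div_of_nonneg_right _ (by positivity)
    linarith
  have hcard : (Fintype.card (Fin n0) : ℝ) = n0 := by rw [Fintype.card_fin]
  set E1 := Real.exp (5 * ((T * G0 : ℕ) * q + n0 * β ^ 2)) with hE1
  set E := Real.exp (5 * ((T * G0 : ℕ) * q + κ)) with hE
  have hE1E : E1 ≤ E := by
    rw [hE1, hE]
    apply Real.exp_le_exp.mpr
    linarith
  have hE1p : 0 < E1 := Real.exp_pos _
  -- choose the partition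
  obtain ⟨π, hπ⟩ := exists_partition hT hf (10 * E1 * (n0 * β ^ 2) + 2)
    (10 * E1 * β ^ 2 * (lam / 2) ^ 2) (by positivity) (by positivity)
  obtain ⟨gad, cell, hblk, hgadT, hcellℓ⟩ := exists_gadgets (G0 := G0) hs hℓ hcap π
  rw [hcard] at hπ
  have w0 : Fin s × Fin R := (⟨0, hs⟩, ⟨0, hR⟩)
  have : Nonempty (Fin s × Fin R) := ⟨w0⟩
  set b := bc f (blkOf gad G0) with hb
  -- closeness
  have hclose := dens_close (R := R) (ℓ := ℓ) (cell := cell) (gad := gad) hs hR hG0 hη hf hfη hf2 hf1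
    hcellℓ T hgadT
  rw [hcard, hblk] at hclose
  set def' := defect f (fun i => (π i : ℕ)) with hdef
  set sq' := (sqSizes (fun i => (π i : ℕ)) : ℝ) with hsq
  have hTot : avg (fun y => (dens R gad cell (bc f (fun i => (π i : ℕ))) (T * G0) y - f y) ^ 2)
      ≤ errTot T G0 s R ℓ K η lam := by
    refine hclose.trans ?_
    rw [← hβdef, ← hq, ← hE1]
    have e1 : 2 * (E1 * (5 * (4 * ((T * G0 : ℕ) * q)
            + β ^ 2 * ((lam / 2) ^ 2 * sq' + n0 * def')))) + 2 * def'
        = 40 * E1 * ((T * G0 : ℕ) * q)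
          + ((10 * E1 * (n0 * β ^ 2) + 2) * def' + 10 * E1 * β ^ 2 * (lam / 2) ^ 2 * sq') := by
      ring
    rw [e1]
    have hΓq : 0 ≤ ((T * G0 : ℕ) : ℝ) * q := by positivity
    have e2 : 40 * E1 * (((T * G0 : ℕ) : ℝ) * q) ≤ 40 * E * (((T * G0 : ℕ) : ℝ) * q) := by
      apply mul_le_mul_of_nonneg_right _ hΓq
      linarith
    have e3 : (10 * E1 * (n0 * β ^ 2) + 2) * (n0 * ((lam / 2) ^ 2 / T))
        ≤ ((10 * E * κ + 2) * (K ^ 2 / 4)) / T := by
      have h1 : 10 * E1 * (n0 * β ^ 2) + 2 ≤ 10 * E * κ + 2 := by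
        have : E1 * (n0 * β ^ 2) ≤ E * κ :=
          mul_le_mul hE1E hβn (by positivity) (hE1p.le.trans hE1E)
        linarith
      have h2 : n0 * ((lam / 2) ^ 2 / T) ≤ (K ^ 2 / 4) / T := by
        rw [← mul_div_assoc]
        apply div_le_div_of_nonneg_right _ hT'.le
        linarith
      calc (10 * E1 * (n0 * β ^ 2) + 2) * (n0 * ((lam / 2) ^ 2 / T))
          ≤ (10 * E * κ + 2) * ((K ^ 2 / 4) / T) :=
            mul_le_mul h1 h2 (by positivity) (by positivity)
        _ = _ := by ring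
    have e4 : 10 * E1 * β ^ 2 * (lam / 2) ^ 2 * (n0 + (n0:ℝ) ^ 2 / T) ≤ 5 * E * κ * K ^ 2 / T := by
      have h1 : 10 * E1 * β ^ 2 * (lam / 2) ^ 2 * (n0 + (n0:ℝ) ^ 2 / T)
          = 10 * (E1 * (n0 * β ^ 2)) * ((lam ^ 2 + lam ^ 2 * n0 / T) / 4) := by ring
      rw [h1]
      have h2 : E1 * (n0 * β ^ 2) ≤ E * κ :=
          mul_le_mul hE1E hβn (by positivity) (hE1p.le.trans hE1E)
      have h3 : lam ^ 2 ≤ K ^ 2 / T := by
        rw [le_div_iff₀ hT']
        refine le_trans ?_ hlamn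
        apply mul_le_mul_of_nonneg_left _ (sq_nonneg _)
        exact_mod_cast hnT
      have h4 : lam ^ 2 * n0 / T ≤ K ^ 2 / T := div_le_div_of_nonneg_right hlam0 hT'.le
      calc 10 * (E1 * (n0 * β ^ 2)) * ((lam ^ 2 + lam ^ 2 * n0 / T) / 4)
          ≤ 10 * (E * κ) * ((K ^ 2 / T + K ^ 2 / T) / 4) := by
            apply mul_le_mul (by linarith) (by linarith) (by positivity) (by positivity)
        _ = _ := by ring
    unfold errTot
    rw [← hβdef, ← hq, ← hκ, ← hE]
    have e5 : ((10 * E * κ + 2) * (K ^ 2 / 4) + 5 * E * κ * K ^ 2) / T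
        = ((10 * E * κ + 2) * (K ^ 2 / 4)) / T + 5 * E * κ * K ^ 2 / T := by ring
    rw [e5]
    linarith
  refine ⟨fun w y => Z gad cell b (ext (T * G0) w0 w) y (T * G0), ?_, ?_⟩
  · -- the law
    intro g hg
    have hoffb : ∀ j, Off (geG gad (gad j)) (b j) := fun j => off_bc_geG hG0 j
    have hlaw : ∀ Φ : (Fin n0 → Bool) → ℝ,
        avg (fun y => avg (fun w : Fin (T * G0) → Fin s × Fin R =>
          Φ (Z gad cell b (ext (T * G0) w0 w) y (T * G0))))
        = avg (fun y => Φ y * dens R gad cell b (T * G0) y) :=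
      fun Φ => law_process hs hR hoffb w0 (T * G0) le_rfl Φ
    have hmass : avg (fun y => dens R gad cell b (T * G0) y) = 1 := by
      have h1 := hlaw (fun _ => 1)
      have h2 : avg (fun _y : Fin n0 → Bool =>
          avg (fun _w : Fin (T * G0) → Fin s × Fin R => (1:ℝ))) = 1 := by
        rw [avg_const, avg_const]
      rw [h2] at h1
      rw [h1]
      exact avg_congr (fun y => (one_mul _).symm)
    show avg (fun y => f y * g y) - avg (fun y => avg (fun w : Fin (T * G0) → Fin s × Fin R =>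
          g (Z gad cell b (ext (T * G0) w0 w) y (T * G0)))) ≤ _
    rw [hlaw g]
    set F := dens R gad cell b (T * G0) with hF
    have h3 : avg (fun y => f y * g y) - avg (fun y => g y * F y)
        = avg (fun y => (f y - F y) * (g y - avg g)) := by
      have e : ∀ y : Fin n0 → Bool, (f y - F y) * (g y - avg g)
          = (f y * g y - g y * F y) - avg g * (f y - F y) := by intro y; ring
      rw [avg_congr e, avg_sub, avg_sub, avg_const_mul, avg_sub, hf1, hmass]
      ring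
    rw [h3]
    have h4 := avg_cauchy (f := fun y => f y - F y) (g := fun y => g y - avg g)
    have h5 := poincare hg
    rw [hcard] at h5
    have h6 : avg (fun y => (f y - F y) ^ 2) ≤ errTot T G0 s R ℓ K η lam := by
      refine le_trans (le_of_eq ?_) hTot
      apply avg_congr
      intro y
      rw [hF, hb, hblk]
      ring
    have h7 : 0 ≤ avg (fun y => (f y - F y) ^ 2) := avg_nonneg (fun y => sq_nonneg _)
    have h8 : (avg (fun y => (f y - F y) * (g y - avg g))) ^ 2
        ≤ errTot T G0 s R ℓ K η lam * (n / 4) := by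
      refine h4.trans ?_
      apply mul_le_mul h6 _ (avg_nonneg (fun y => sq_nonneg _)) (h7.trans h6)
      refine h5.trans ?_
      have : (n0:ℝ) * (1 / 2) ^ 2 = n0 / 4 := by ring
      rw [this]
      linarith
    have h9 := Real.sqrt_le_sqrt h8
    rw [Real.sqrt_sq_eq_abs, Real.sqrt_mul (h7.trans h6)] at h9
    have h10 : Real.sqrt ((n:ℝ) / 4) = Real.sqrt n / 2 := by
      rw [Real.sqrt_div (Nat.cast_nonneg n)]
      congr 1
      rw [show (4:ℝ) = 2 ^ 2 by norm_num]
      exact Real.sqrt_sq (by norm_num)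
    rw [h10] at h9
    exact (le_abs_self _).trans h9
  · intro y i
    have hoff : ∀ j, Off (ltB (blkOf gad G0) (blkOf gad G0 j))ᶜ (b j) := fun j => off_bc _ _ j
    have hL0 : 0 ≤ K / η + K ^ 2 / (2 * η ^ 2) := by positivity
    exact stretch_le hs hR hG0 hcellℓ hoff hβ0 (fun j y => abs_bc_le hη hf hfη _ j y) hL0
      (fun k z z' => sum_abs_bc_le hη hlam.le hK.le (by rw [hcard]; exact hlam0) hf hfη k z z')
      T w0 y (flip i y) (hd_flip i y)

end Pool.Agent.Helper50_Stretch
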