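import Mathlib

set_option autoImplicit false

namespace Pool.Agent.Helper50_Stretch

/-- L² projection of a `[0,2]`-valued function onto the `lam`-Lipschitz functions. -/
theorem exists_lip_projection {Q : Type*} [Fintype Q] (d : Q → Q → ℕ)
    (a : Q → ℝ) (ha0 : ∀ y, 0 ≤ a y) (ha2 : ∀ y, a y ≤ 2) (lam : ℝ) (hlam : 0 < lam) :
    ∃ f : Q → ℝ, (∀ y, 0 ≤ f y) ∧ (∀ y, f y ≤ 2) ∧ (∀ y y', |f y - f y'| ≤ lam * d y y') ∧
      ∑ y, f y = ∑ y, a y ∧
      ∀ g : Q → ℝ, (∀ y y', |g y - g y'| ≤ d y y') →
        ∑ y, (a y - f y) * g y ≤ Fintype.card Q / lam := by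
  classical
  set K : Set (Q → ℝ) := {h | (∀ y, h y ∈ Set.Icc (0:ℝ) 2) ∧ ∀ y y', |h y - h y'| ≤ lam * d y y'}
    with hK
  have hKc : IsCompact K := by
    have h1 : IsCompact (Set.pi Set.univ (fun _ : Q => Set.Icc (0:ℝ) 2)) :=
      isCompact_univ_pi (fun _ => isCompact_Icc)
    have h2 : IsClosed {h : Q → ℝ | ∀ y y', |h y - h y'| ≤ lam * d y y'} := by
      simp only [Set.setOf_forall]
      refine isClosed_iInter (fun y => isClosed_iInter (fun y' => ?_))
      exact isClosed_le (by fun_prop) continuous_const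
    have h3 : K = Set.pi Set.univ (fun _ : Q => Set.Icc (0:ℝ) 2) ∩
        {h : Q → ℝ | ∀ y y', |h y - h y'| ≤ lam * d y y'} := by
      ext h
      simp only [hK, Set.mem_setOf_eq, Set.mem_inter_iff, Set.mem_pi, Set.mem_univ, forall_true_left]
    rw [h3]
    exact h1.inter_right h2
  have hKne : K.Nonempty := ⟨fun _ => 1, fun _ => ⟨by norm_num, by norm_num⟩, fun y y' => by
    simp only [sub_self, abs_zero]; positivity⟩
  have hcont : Continuous (fun h : Q → ℝ => ∑ y, (a y - h y) ^ 2) := by fun_prop
  obtain ⟨f, hfK, hfmin⟩ := hKc.exists_isMinOn hKne hcont.continuousOn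
  have hmin : ∀ h : Q → ℝ, (∀ y y', |h y - h y'| ≤ lam * d y y') →
      ∑ y, (a y - f y) ^ 2 ≤ ∑ y, (a y - h y) ^ 2 := by
    intro h hh
    set h' : Q → ℝ := fun y => max 0 (min 2 (h y)) with hh'
    have h'K : h' ∈ K := by
      refine ⟨fun y => ⟨le_max_left _ _, max_le (by norm_num) (min_le_left _ _)⟩, fun y y' => ?_⟩
      refine le_trans ?_ (hh y y')
      simp only [hh']
      refine (abs_max_sub_max_le_max 0 _ 0 _).trans ?_
      simp only [sub_self, abs_zero]
      refine max_le (abs_nonneg _) ?_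
      refine (abs_min_sub_min_le_max 2 _ 2 _).trans ?_
      simp
    refine (hfmin h'K).trans ?_
    apply Finset.sum_le_sum
    intro y _
    have h0 := ha0 y
    have h2 := ha2 y
    simp only [hh']
    rcases le_total (h y) 0 with h3 | h3
    · rw [min_eq_right (by linarith), max_eq_left h3]
      nlinarith
    · rcases le_total (h y) 2 with h4 | h4
      · rw [min_eq_right h4, max_eq_right h3]
      · rw [min_eq_left h4, max_eq_right (by norm_num)]
        nlinarith
  have hvar : ∀ g' : Q → ℝ, (∀ y y', |g' y - g' y'| ≤ lam * d y y') →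
      ∑ y, (a y - f y) * (g' y - f y) ≤ 0 := by
    intro g' hg'
    by_contra hcon
    push Not at hcon
    set A := ∑ y, (a y - f y) * (g' y - f y) with hA
    set B := ∑ y, (g' y - f y) ^ 2 with hB
    have hB0 : 0 ≤ B := Finset.sum_nonneg (fun y _ => sq_nonneg _)
    have key : ∀ t : ℝ, 0 ≤ t → t ≤ 1 → 2 * t * A ≤ t ^ 2 * B := by
      intro t ht0 ht1
      have h1 := hmin (fun y => f y + t * (g' y - f y)) (by
        intro y y'
        have e : f y + t * (g' y - f y) - (f y' + t * (g' y' - f y'))
            = (1 - t) * (f y - f y') + t * (g' y - g' y') := by ring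
        rw [e]
        refine (abs_add_le _ _).trans ?_
        rw [abs_mul, abs_mul, abs_of_nonneg ht0, abs_of_nonneg (by linarith : 0 ≤ 1 - t)]
        have e1 := hfK.2 y y'
        have e2 := hg' y y'
        nlinarith)
      have h2 : ∑ y, (a y - (f y + t * (g' y - f y))) ^ 2
          = ∑ y, (a y - f y) ^ 2 - 2 * t * A + t ^ 2 * B := by
        rw [hA, hB, Finset.mul_sum, Finset.mul_sum, ← Finset.sum_sub_distrib,
          ← Finset.sum_add_distrib]
        refine Finset.sum_congr rfl (fun y _ => ?_)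
        ring
      have h1' : ∑ y, (a y - f y) ^ 2 ≤ ∑ y, (a y - (f y + t * (g' y - f y))) ^ 2 := h1
      rw [h2] at h1'
      linarith
    have h3 := key (min 1 (A / (B + 1))) (by positivity) (min_le_left _ _)
    set t := min 1 (A / (B + 1)) with ht
    have ht0 : 0 < t := by rw [ht]; positivity
    have h4 : 2 * A ≤ t * B := by
      have : t * (2 * A) ≤ t * (t * B) := by nlinarith
      exact le_of_mul_le_mul_left this ht0
    have h5 : t * B ≤ A := by
      have h6 : t ≤ A / (B + 1) := min_le_right _ _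
      have h7 : t * (B + 1) ≤ A := by rwa [le_div_iff₀ (by linarith)] at h6
      nlinarith
    linarith
  refine ⟨f, fun y => (hfK.1 y).1, fun y => (hfK.1 y).2, hfK.2, ?_, ?_⟩
  · have h1 := hvar (fun y => f y + 1) (fun y y' => by
      have := hfK.2 y y'
      rwa [add_sub_add_right_eq_sub])
    have h2 := hvar (fun y => f y - 1) (fun y y' => by
      have := hfK.2 y y'
      rwa [sub_sub_sub_cancel_right])
    simp only [add_sub_cancel_left, mul_one, sub_sub_cancel_left, mul_neg,
      Finset.sum_neg_distrib, Finset.sum_sub_distrib] at h1 h2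
    linarith
  · intro g hg
    have h1 := hvar (fun y => lam * g y) (fun y y' => by
      rw [← mul_sub, abs_mul, abs_of_pos hlam]
      exact mul_le_mul_of_nonneg_left (hg y y') hlam.le)
    have h2 : lam * ∑ y, (a y - f y) * g y ≤ Fintype.card Q := by
      have e1 : ∑ y, (a y - f y) * (lam * g y - f y)
          = lam * ∑ y, (a y - f y) * g y - ∑ y, (a y - f y) * f y := by
        rw [Finset.mul_sum, ← Finset.sum_sub_distrib]
        refine Finset.sum_congr rfl (fun y _ => ?_)
        ring
      have e2 : ∑ y, (a y - f y) * f y ≤ ∑ _y : Q, (1:ℝ) := by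
        apply Finset.sum_le_sum
        intro y _
        have h0 := ha0 y
        have h2 := ha2 y
        nlinarith [sq_nonneg (a y - 2 * f y)]
      rw [Finset.sum_const, Finset.card_univ, nsmul_eq_mul, mul_one] at e2
      linarith
    rw [le_div_iff₀ hlam]
    linarith

end Pool.Agent.Helper50_Stretch
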