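import Mathlib
import Pool.Agent.Helper50_Stretch.Core

set_option autoImplicit false

namespace Pool.Agent.Helper50_Stretch

theorem p3_real {X Y T κ B n : ℝ} (hX0 : 0 < X) (hY0 : 0 < Y) (hY1 : 1 ≤ Y) (hT0 : 0 ≤ T)
    (hX2 : Y ^ 3 ≤ X ^ 2) (hn : X ^ 2 ≤ n) (hB : B = κ / n) :
    T * (4 * X / Y) * (1 / (X / Y ^ 3) * (1 / X ^ 2 + 3 * (X / Y ^ 3) ^ 4 * (Y ^ 4 * B) ^ 2))
      ≤ (4 * T + 12 * T * κ ^ 2) / Y := by
  have e1 : T * (4 * X / Y) * (1 / (X / Y ^ 3) * (1 / X ^ 2 + 3 * (X / Y ^ 3) ^ 4 * (Y ^ 4 * B) ^ 2))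
      = 4 * T * (Y ^ 2 / X ^ 2) + 12 * T * ((X ^ 4 / Y ^ 2) * B ^ 2) := by
    field_simp
    ring
  rw [e1]
  have hn0 : 0 < n := lt_of_lt_of_le (by positivity) hn
  have hβ4 : B ^ 2 ≤ κ ^ 2 / X ^ 4 := by
    rw [hB, div_pow]
    apply div_le_div_of_nonneg_left (sq_nonneg _) (by positivity)
    calc X ^ 4 = (X ^ 2) ^ 2 := by ring
      _ ≤ n ^ 2 := pow_le_pow_left₀ (by positivity) hn 2
  have h1 : Y ^ 2 / X ^ 2 ≤ 1 / Y := by
    rw [div_le_div_iff₀ (by positivity) hY0]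
    calc Y ^ 2 * Y = Y ^ 3 := by ring
      _ ≤ X ^ 2 := hX2
      _ = 1 * X ^ 2 := by ring
  have h2 : (X ^ 4 / Y ^ 2) * B ^ 2 ≤ κ ^ 2 / Y := by
    calc (X ^ 4 / Y ^ 2) * B ^ 2 ≤ (X ^ 4 / Y ^ 2) * (κ ^ 2 / X ^ 4) :=
          mul_le_mul_of_nonneg_left hβ4 (by positivity)
      _ = κ ^ 2 / Y ^ 2 := by field_simp
      _ ≤ κ ^ 2 / Y := by
          apply div_le_div_of_nonneg_left (sq_nonneg _) hY0
          nlinarith
  have h3 : 4 * T * (Y ^ 2 / X ^ 2) ≤ 4 * T * (1 / Y) :=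
    mul_le_mul_of_nonneg_left h1 (by positivity)
  have h4 : 12 * T * ((X ^ 4 / Y ^ 2) * B ^ 2) ≤ 12 * T * (κ ^ 2 / Y) :=
    mul_le_mul_of_nonneg_left h2 (by positivity)
  have h5 : 4 * T * (1 / Y) + 12 * T * (κ ^ 2 / Y) = (4 * T + 12 * T * κ ^ 2) / Y := by ring
  linarith

theorem p4_real {X Y L0 b Kb : ℝ} {T : ℕ} (hX0 : 0 < X) (hY0 : 0 < Y) (hY1 : 1 ≤ Y)
    (hL0p : 0 ≤ L0) (hb0 : 0 ≤ b) (hb : b ≤ Kb) :
    (1 + Y ^ 4 * L0 / 2) ^ T * (1 + T * (Y ^ 4 * (b + 4 * X / Y / X)))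
      ≤ Y ^ (4 * (T + 1)) * ((1 + L0 / 2) ^ T * (1 + T * (Kb + 4))) := by
  have hGR : 4 * X / Y / X ≤ 4 := by
    have : 4 * X / Y / X = 4 / Y := by field_simp
    rw [this]
    exact div_le_self (by norm_num) hY1
  have hY4 : 1 ≤ Y ^ 4 := one_le_pow₀ hY1
  have h1 : (1 + Y ^ 4 * L0 / 2) ^ T ≤ (Y ^ 4) ^ T * (1 + L0 / 2) ^ T := by
    rw [← mul_pow]
    apply pow_le_pow_left₀ (by positivity)
    nlinarith
  have h2 : 1 + T * (Y ^ 4 * (b + 4 * X / Y / X))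
      ≤ Y ^ 4 * (1 + T * (Kb + 4)) := by
    have h3 : b + 4 * X / Y / X ≤ Kb + 4 := by linarith
    have h4 : Y ^ 4 * (b + 4 * X / Y / X) ≤ Y ^ 4 * (Kb + 4) :=
      mul_le_mul_of_nonneg_left h3 (by positivity)
    have h5 := mul_le_mul_of_nonneg_left h4 (Nat.cast_nonneg T : (0:ℝ) ≤ T)
    linarith
  have h6 : (1 + Y ^ 4 * L0 / 2) ^ T
      * (1 + T * (Y ^ 4 * (b + 4 * X / Y / X)))
      ≤ ((Y ^ 4) ^ T * (1 + L0 / 2) ^ T) * (Y ^ 4 * (1 + T * (Kb + 4))) :=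
    mul_le_mul h1 h2 (by positivity) (by positivity)
  refine h6.trans (le_of_eq ?_)
  have h7 : Y ^ (4 * (T + 1)) = (Y ^ 4) ^ T * Y ^ 4 := by
    rw [← pow_mul, ← pow_add]
    exact congrArg (fun k => Y ^ k) (by ring)
  rw [h7]; ring

theorem params (T : ℕ) (hT : 0 < T) (K η δ : ℝ) (hK : 0 < K) (hη : 0 < η) (hδ : 0 < δ) :
    ∃ N : ℕ, ∀ n : ℕ, N ≤ n → ∃ G0 a r ℓ : ℕ, 0 < G0 ∧ 0 < ℓ ∧ T ≤ n ∧ 0 < n ∧
      n ≤ G0 * (ℓ * 2 ^ a) ∧
      (((T * G0) * (a + r) : ℕ) : ℝ) ≤ δ * Real.sqrt n ∧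
      ((T * G0 : ℕ) : ℝ) * qerr (2 ^ a) (2 ^ r) ℓ ((K / Real.sqrt n) / (2 * η)) ≤ δ ∧
      (1 + ℓ * (K / η + K ^ 2 / (2 * η ^ 2)) / 2) ^ T
        * (1 + T * (ℓ * ((K / Real.sqrt n) / (2 * η) + G0 / ((2 ^ r : ℕ) : ℝ)))) ≤ δ * Real.sqrt n := by
  set c := 4 * T + 8 with hc
  set L0 := K / η + K ^ 2 / (2 * η ^ 2) with hL0
  have hL0p : 0 ≤ L0 := by rw [hL0]; positivity
  set κ := K ^ 2 / (4 * η ^ 2) with hκ
  have hκp : 0 ≤ κ := by rw [hκ]; positivity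
  set C1 : ℝ := 8 * T * c with hC1
  set C2 : ℝ := 4 * T + 12 * T * κ ^ 2 with hC2
  set C3 : ℝ := (1 + L0 / 2) ^ T * (1 + T * (K / (2 * η) + 4)) with hC3
  have hC1p : 0 ≤ C1 := by rw [hC1]; positivity
  have hC2p : 0 ≤ C2 := by rw [hC2]; positivity
  have hC3p : 0 ≤ C3 := by rw [hC3]; positivity
  -- choose q0
  have hlim : Filter.Tendsto (fun q : ℕ => (C1 + C2 + C3) * (((q:ℝ) + 1) * (1 / 2) ^ q))
      Filter.atTop (nhds 0) := by
    have h1 : Filter.Tendsto (fun q : ℕ => (q:ℝ) * (1 / 2 : ℝ) ^ q) Filter.atTop (nhds 0) :=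
      tendsto_self_mul_const_pow_of_lt_one (by norm_num) (by norm_num)
    have h2 : Filter.Tendsto (fun q : ℕ => (1 / 2 : ℝ) ^ q) Filter.atTop (nhds 0) :=
      tendsto_pow_atTop_nhds_zero_of_lt_one (by norm_num) (by norm_num)
    have h3 := (h1.add h2).const_mul (C1 + C2 + C3)
    simp only [add_zero, mul_zero] at h3
    refine h3.congr (fun q => ?_)
    ring
  obtain ⟨q0, hq0⟩ := Filter.eventually_atTop.mp (hlim.eventually_lt_const hδ)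
  refine ⟨max (4 ^ (c * (q0 + 1))) T, fun n hn => ?_⟩
  have hn4 : 4 ^ (c * (q0 + 1)) ≤ n := (le_max_left _ _).trans hn
  have hnT : T ≤ n := (le_max_right _ _).trans hn
  have hn0 : n ≠ 0 := by omega
  set m := Nat.log 4 n with hm
  set q := m / c with hq
  have hcpos : 0 < c := by omega
  have hm1 : 4 ^ m ≤ n := Nat.pow_log_le_self 4 hn0
  have hm2 : n < 4 ^ (m + 1) := Nat.lt_pow_succ_log_self (by norm_num) n
  have hmc : c * (q0 + 1) ≤ m := Nat.le_log_of_pow_le (by norm_num) hn4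
  have hqq0 : q0 + 1 ≤ q := by
    rw [hq, Nat.le_div_iff_mul_le hcpos, mul_comm]; exact hmc
  have hcq : c * q ≤ m := Nat.mul_div_le m c
  have hcq2 : m < c * (q + 1) := by
    have := Nat.lt_mul_div_succ m hcpos
    exact this
  have h12q : 12 * q ≤ m := by
    refine le_trans (Nat.mul_le_mul_right _ ?_) hcq
    omega
  have hq1 : 1 ≤ q := by omega
  -- real variables
  set X : ℝ := 2 ^ m with hX
  set Y : ℝ := 2 ^ q with hY
  have hX0 : 0 < X := by rw [hX]; positivity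
  have hY0 : 0 < Y := by rw [hY]; positivity
  have hY1 : 1 ≤ Y := by rw [hY]; exact one_le_pow₀ (by norm_num)
  have hXY : Y ^ c ≤ X := by
    rw [hX, hY, ← pow_mul]
    apply pow_le_pow_right₀ (by norm_num)
    rw [mul_comm]; exact hcq
  have hYc : Y ^ c = Y ^ (4 * (T + 1)) * Y ^ 4 := by
    rw [← pow_add]
    exact congrArg (fun k => Y ^ k) (by omega)
  have hsmall : (C1 + C2 + C3) * ((q:ℝ) + 1) ≤ δ * Y := by
    have h1 := (hq0 q (by omega)).le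
    have h2 : (C1 + C2 + C3) * (((q:ℝ) + 1) * (1 / 2) ^ q) = (C1 + C2 + C3) * ((q:ℝ) + 1) / Y := by
      rw [hY, one_div, inv_pow]; ring
    rw [h2, div_le_iff₀ hY0] at h1
    exact h1
  have hsqrt : X ≤ Real.sqrt n := by
    apply Real.le_sqrt_of_sq_le
    have : (4:ℝ) ^ m ≤ n := by exact_mod_cast hm1
    rw [hX, ← pow_mul, mul_comm, pow_mul]
    norm_num
    exact this
  have hsqrt0 : 0 < Real.sqrt n := lt_of_lt_of_le hX0 hsqrt
  have hnsq : Real.sqrt n ^ 2 = n := Real.sq_sqrt (Nat.cast_nonneg n)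
  have hq1R : (1:ℝ) ≤ (q:ℝ) + 1 := by
    have : (0:ℝ) ≤ q := Nat.cast_nonneg q
    linarith
  have hC2s : C2 ≤ δ * Y := by
    have : C2 * 1 ≤ (C1 + C2 + C3) * ((q:ℝ) + 1) :=
      mul_le_mul (by linarith) hq1R (by norm_num) (by linarith)
    linarith
  have hC3s : C3 ≤ δ * Y := by
    have : C3 * 1 ≤ (C1 + C2 + C3) * ((q:ℝ) + 1) :=
      mul_le_mul (by linarith) hq1R (by norm_num) (by linarith)
    linarith
  have hC1s : C1 * ((q:ℝ) + 1) ≤ δ * Y := by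
    have : C1 * ((q:ℝ) + 1) ≤ (C1 + C2 + C3) * ((q:ℝ) + 1) :=
      mul_le_mul_of_nonneg_right (by linarith) (by linarith)
    linarith
  -- natural number parameters
  have hG : ((2 ^ (m + 2 - q) : ℕ) : ℝ) = 4 * X / Y := by
    have h1 : (m + 2 - q) + q = m + 2 := by omega
    rw [eq_div_iff hY0.ne', hX, hY]
    push_cast
    rw [← pow_add, h1, pow_add]; ring
  have hA : ((2 ^ (m - 3 * q) : ℕ) : ℝ) = X / Y ^ 3 := by
    have h1 : (m - 3 * q) + q * 3 = m := by omega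
    rw [eq_div_iff (by positivity), hX, hY]
    push_cast
    rw [← pow_mul, ← pow_add, h1]
  have hℓ : ((2 ^ (4 * q) : ℕ) : ℝ) = Y ^ 4 := by
    rw [hY]; push_cast; rw [← pow_mul]; congr 1; ring
  have hRR : ((2 ^ m : ℕ) : ℝ) = X := by rw [hX]; push_cast; rfl
  refine ⟨2 ^ (m + 2 - q), m - 3 * q, m, 2 ^ (4 * q), by positivity, by positivity, hnT,
    Nat.pos_of_ne_zero hn0, ?_, ?_, ?_, ?_⟩
  · have h1 : 2 ^ (m + 2 - q) * (2 ^ (4 * q) * 2 ^ (m - 3 * q)) = 4 ^ (m + 1) := by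
      rw [← pow_add, ← pow_add, show (4:ℕ) = 2 ^ 2 by norm_num, ← pow_mul]
      congr 1
      omega
    rw [h1]
    exact hm2.le
  · push_cast [Nat.cast_mul, Nat.cast_add]
    have hG' : ((2:ℝ) ^ (m + 2 - q)) = 4 * X / Y := by rw [← hG]; push_cast; rfl
    rw [hG']
    have h1 : ((m - 3 * q : ℕ) : ℝ) + m ≤ 2 * (c * ((q:ℝ) + 1)) := by
      have : (m - 3 * q) + m ≤ 2 * (c * (q + 1)) := by omega
      exact_mod_cast this
    have h2 : T * (4 * X / Y) * (((m - 3 * q : ℕ) : ℝ) + m)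
        ≤ T * (4 * X / Y) * (2 * (c * ((q:ℝ) + 1))) :=
      mul_le_mul_of_nonneg_left h1 (by positivity)
    refine h2.trans ?_
    have h3 : T * (4 * X / Y) * (2 * (c * ((q:ℝ) + 1))) = (C1 * ((q:ℝ) + 1)) * (X / Y) := by
      rw [hC1]; ring
    rw [h3]
    have h4 : (C1 * ((q:ℝ) + 1)) * (X / Y) ≤ (δ * Y) * (X / Y) :=
      mul_le_mul_of_nonneg_right hC1s (by positivity)
    refine h4.trans ?_
    have h5 : (δ * Y) * (X / Y) = δ * X := by field_simp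
    rw [h5]
    exact mul_le_mul_of_nonneg_left hsqrt hδ.le
  · unfold qerr
    rw [Nat.cast_mul, hG, hA, hℓ, hRR]
    have hX2 : Y ^ 3 ≤ X ^ 2 := by
      have h1 : Y ^ 3 ≤ Y ^ c := pow_le_pow_right₀ hY1 (by omega)
      have h2 : 1 ≤ X := by rw [hX]; exact one_le_pow₀ (by norm_num)
      calc Y ^ 3 ≤ X := h1.trans hXY
        _ ≤ X ^ 2 := by nlinarith
    have h1 : ((K / Real.sqrt n) / (2 * η)) ^ 2 = κ / n := by
      rw [hκ, div_pow, div_pow, hnsq, div_div, div_div]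
      congr 1; ring
    have h2 : X ^ 2 ≤ n := by
      rw [← hnsq]; exact pow_le_pow_left₀ hX0.le hsqrt 2
    refine (p3_real hX0 hY0 hY1 (Nat.cast_nonneg T) hX2 h2 h1).trans ?_
    rw [div_le_iff₀ hY0]
    exact hC2s
  · rw [hG, hℓ, hRR]
    have hβ1 : (K / Real.sqrt n) / (2 * η) ≤ K / (2 * η) := by
      apply div_le_div_of_nonneg_right _ (by positivity)
      apply div_le_self hK.le
      have h2 : 1 ≤ X := by rw [hX]; exact one_le_pow₀ (by norm_num)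
      linarith
    refine (p4_real hX0 hY0 hY1 hL0p (by positivity) hβ1).trans ?_
    rw [← hC3]
    calc Y ^ (4 * (T + 1)) * C3 ≤ Y ^ (4 * (T + 1)) * (δ * Y ^ 4) := by
          apply mul_le_mul_of_nonneg_left _ (by positivity)
          refine hC3s.trans ?_
          apply mul_le_mul_of_nonneg_left _ hδ.le
          calc Y = Y ^ 1 := (pow_one Y).symm
            _ ≤ Y ^ 4 := pow_le_pow_right₀ hY1 (by norm_num)
      _ = δ * Y ^ c := by rw [hYc]; ring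
      _ ≤ δ * X := mul_le_mul_of_nonneg_left hXY hδ.le
      _ ≤ δ * Real.sqrt n := mul_le_mul_of_nonneg_left hsqrt hδ.le

end Pool.Agent.Helper50_Stretch
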