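import Mathlib
import Pool.Agent.Helper50_Stretch.Assignment
import Pool.Agent.Helper50_Stretch.LipB
import Pool.Agent.Helper50_Stretch.Stretch

set_option autoImplicit false

namespace Pool.Agent.Helper50_Stretch

section
variable {n n0 Γ t s R : ℕ}

/-- splitting of the source cube -/
noncomputable def splitS (eS : Fin n ≃ Fin n0 ⊕ (Fin Γ × Fin t))
    (eW : (Fin t → Bool) ≃ Fin s × Fin R) :
    (Fin n → Bool) ≃ (Fin n0 → Bool) × (Fin Γ → Fin s × Fin R) :=
  (Equiv.arrowCongr eS (Equiv.refl Bool)).trans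
    ((Equiv.sumArrowEquivProdArrow (Fin n0) (Fin Γ × Fin t) Bool).trans
      (Equiv.prodCongr (Equiv.refl _)
        ((Equiv.curry (Fin Γ) (Fin t) Bool).trans
          (Equiv.arrowCongr (Equiv.refl (Fin Γ)) eW))))

theorem splitS_fst (eS : Fin n ≃ Fin n0 ⊕ (Fin Γ × Fin t))
    (eW : (Fin t → Bool) ≃ Fin s × Fin R) (x : Fin n → Bool) :
    (splitS eS eW x).1 = fun i => x (eS.symm (Sum.inl i)) := rfl

theorem splitS_snd (eS : Fin n ≃ Fin n0 ⊕ (Fin Γ × Fin t))
    (eW : (Fin t → Bool) ≃ Fin s × Fin R) (x : Fin n → Bool) :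
    (splitS eS eW x).2 = fun c => eW (fun u => x (eS.symm (Sum.inr (c, u)))) := rfl

theorem splitS_flip (eS : Fin n ≃ Fin n0 ⊕ (Fin Γ × Fin t))
    (eW : (Fin t → Bool) ≃ Fin s × Fin R) (x : Fin n → Bool) (i : Fin n0) :
    splitS eS eW (flip (eS.symm (Sum.inl i)) x)
      = (flip i (splitS eS eW x).1, (splitS eS eW x).2) := by
  apply Prod.ext
  · rw [splitS_fst, splitS_fst]
    funext j
    show flip (eS.symm (Sum.inl i)) x (eS.symm (Sum.inl j))
      = flip i (fun i => x (eS.symm (Sum.inl i))) j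
    by_cases h : j = i
    · subst h; rw [flip_same, flip_same]
    · rw [flip_ne h, flip_ne]
      intro h'
      have := eS.symm.injective h'
      exact h (Sum.inl.inj this)
  · rw [splitS_snd]
    show _ = (splitS eS eW x).2
    rw [splitS_snd]
    funext c
    congr 1
    funext u
    rw [flip_ne]
    intro h'
    have := eS.symm.injective h'
    simp at this

/-- embedding into the target cube -/
def emb {r : ℕ} (eT : Fin (n+1) ≃ Fin n0 ⊕ Fin r) (y : Fin n0 → Bool) : Fin (n+1) → Bool :=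
  fun v => Sum.elim y (fun _ => false) (eT v)

/-- restriction of the target cube -/
def res {r : ℕ} (eT : Fin (n+1) ≃ Fin n0 ⊕ Fin r) (z : Fin (n+1) → Bool) : Fin n0 → Bool :=
  fun i => z (eT.symm (Sum.inl i))

theorem hd_emb {r : ℕ} (eT : Fin (n+1) ≃ Fin n0 ⊕ Fin r) (y y' : Fin n0 → Bool) :
    hammingDist (emb eT y) (emb eT y') ≤ hammingDist y y' := by
  unfold hammingDist
  refine (Finset.card_le_card ?_).trans (Finset.card_image_le (s := Finset.univ.filter
    (fun i => y i ≠ y' i)) (f := fun i => eT.symm (Sum.inl i)))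
  intro v hv
  simp only [Finset.mem_filter, Finset.mem_univ, true_and] at hv
  rw [Finset.mem_image]
  unfold emb at hv
  rcases h : eT v with i | j
  · rw [h] at hv
    refine ⟨i, ?_, ?_⟩
    · simpa using hv
    · rw [← h, Equiv.symm_apply_apply]
  · rw [h] at hv
    simp at hv

theorem hd_res {r : ℕ} (eT : Fin (n+1) ≃ Fin n0 ⊕ Fin r) (z : Fin (n+1) → Bool) :
    hammingDist z (emb eT (res eT z)) ≤ r := by
  unfold hammingDist
  have h1 : (Finset.univ.filter (fun v => z v ≠ emb eT (res eT z) v))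
      ⊆ (Finset.univ : Finset (Fin r)).image (fun j => eT.symm (Sum.inr j)) := by
    intro v hv
    simp only [Finset.mem_filter, Finset.mem_univ, true_and] at hv
    rw [Finset.mem_image]
    unfold emb res at hv
    rcases h : eT v with i | j
    · rw [h] at hv
      exfalso
      apply hv
      show z v = z (eT.symm (Sum.inl i))
      rw [← h, Equiv.symm_apply_apply]
    · exact ⟨j, Finset.mem_univ _, by rw [← h, Equiv.symm_apply_apply]⟩
  refine (Finset.card_le_card h1).trans (Finset.card_image_le.trans ?_)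
  simp

theorem fiber_card_le {r : ℕ} (eT : Fin (n+1) ≃ Fin n0 ⊕ Fin r) (A : Finset (Fin (n+1) → Bool))
    (y : Fin n0 → Bool) : (A.filter (fun z => res eT z = y)).card ≤ 2 ^ r := by
  have h1 : (Finset.univ : Finset (Fin r → Bool)).card = 2 ^ r := by
    rw [Finset.card_univ]; simp
  rw [← h1]
  apply Finset.card_le_card_of_injOn (fun z => fun j => z (eT.symm (Sum.inr j)))
    (fun _ _ => Finset.mem_univ _)
  intro z hz z' hz' hzz
  rw [Finset.mem_coe, Finset.mem_filter] at hz hz'
  funext v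
  rcases h : eT v with i | j
  · have h2 : res eT z i = res eT z' i := by rw [hz.2, hz'.2]
    unfold res at h2
    rw [← h, Equiv.symm_apply_apply] at h2
    exact h2
  · have h2 := congrFun hzz j
    simp only at h2
    rw [← h, Equiv.symm_apply_apply] at h2
    exact h2

/-- marginal density of `A` -/
noncomputable def marg {r : ℕ} (eT : Fin (n+1) ≃ Fin n0 ⊕ Fin r) (A : Finset (Fin (n+1) → Bool))
    (y : Fin n0 → Bool) : ℝ := ((A.filter (fun z => res eT z = y)).card : ℝ) * 2 ^ n0 / 2 ^ n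

theorem marg_nonneg {r : ℕ} (eT : Fin (n+1) ≃ Fin n0 ⊕ Fin r) (A : Finset (Fin (n+1) → Bool))
    (y : Fin n0 → Bool) : 0 ≤ marg eT A y := by
  unfold marg
  exact div_nonneg (mul_nonneg (Nat.cast_nonneg _) (pow_nonneg (by norm_num) _))
    (pow_nonneg (by norm_num) _)

theorem marg_le_two {r : ℕ} (hnr : n + 1 = n0 + r) (eT : Fin (n+1) ≃ Fin n0 ⊕ Fin r)
    (A : Finset (Fin (n+1) → Bool)) (y : Fin n0 → Bool) : marg eT A y ≤ 2 := by
  have h1 : ((A.filter (fun z => res eT z = y)).card : ℝ) ≤ 2 ^ r := by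
    exact_mod_cast fiber_card_le eT A y
  unfold marg
  rw [div_le_iff₀ (pow_pos (by norm_num) _)]
  calc ((A.filter (fun z => res eT z = y)).card : ℝ) * 2 ^ n0 ≤ 2 ^ r * 2 ^ n0 :=
        mul_le_mul_of_nonneg_right h1 (pow_nonneg (by norm_num) _)
    _ = 2 ^ (n + 1) := by rw [← pow_add, hnr, Nat.add_comm]
    _ = 2 * 2 ^ n := by rw [pow_succ]; ring

end

theorem avg_eq_sum_div {Ω : Type*} [Fintype Ω] (h : Ω → ℝ) :
    avg h = (∑ ω, h ω) / Fintype.card Ω := rfl

theorem sum_marg {n n0 r : ℕ} (eT : Fin (n+1) ≃ Fin n0 ⊕ Fin r)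
    (A : Finset (Fin (n+1) → Bool)) (g : (Fin n0 → Bool) → ℝ) :
    ∑ z ∈ A, g (res eT z) = 2 ^ n * avg (fun y => marg eT A y * g y) := by
  have hcardY : (Fintype.card (Fin n0 → Bool) : ℝ) = 2 ^ n0 := by simp
  have h1 : ∑ z ∈ A, g (res eT z)
      = ∑ y : Fin n0 → Bool, ((A.filter (fun z => res eT z = y)).card : ℝ) * g y := by
    rw [← Finset.sum_fiberwise_of_maps_to (s := A)
      (t := (Finset.univ : Finset (Fin n0 → Bool))) (g := res eT) (fun _ _ => Finset.mem_univ _)]
    apply Finset.sum_congr rfl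
    intro y _
    rw [Finset.sum_congr rfl (g := fun _ => g y)]
    · rw [Finset.sum_const, nsmul_eq_mul]
    · intro z hz
      rw [Finset.mem_filter] at hz
      rw [hz.2]
  rw [h1, avg_eq_sum_div, hcardY, Finset.sum_div, Finset.mul_sum]
  apply Finset.sum_congr rfl
  intro y _
  unfold marg
  have h2n : (2:ℝ) ^ n ≠ 0 := pow_ne_zero _ (by norm_num)
  have h2n0 : (2:ℝ) ^ n0 ≠ 0 := pow_ne_zero _ (by norm_num)
  generalize ((A.filter (fun z => res eT z = y)).card : ℝ) = C
  generalize g y = G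
  field_simp

/-- reduction of the bijection problem to the construction of a map -/
theorem reduction {n n0 Γ t s R : ℕ} (hn : n = n0 + Γ * t) (hW : s * R = 2 ^ t)
    (A : Finset (Fin (n + 1) → Bool)) (hA : A.card = 2 ^ n) (κ B : ℝ) (hB : 0 ≤ B)
    (H : ∀ a : (Fin n0 → Bool) → ℝ, (∀ y, 0 ≤ a y) → (∀ y, a y ≤ 2) → avg a = 1 →
      ∃ Y : (Fin Γ → Fin s × Fin R) → (Fin n0 → Bool) → (Fin n0 → Bool),
        (∀ g : (Fin n0 → Bool) → ℝ, FLip 1 g →
          avg (fun y => a y * g y) - avg (fun y => avg (fun w => g (Y w y))) ≤ κ) ∧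
        ∀ y i, avg (fun w => (hammingDist (Y w y) (Y w (flip i y)) : ℝ)) ≤ B) :
    ∃ φ : (Fin n → Bool) ≃ A, ∑ x : Fin n → Bool, ∑ i : Fin n,
      (hammingDist (φ x).1 (φ (Function.update x i (!x i))).1 : ℝ)
        ≤ (n * 2 ^ n) * (2 * (κ + ((Γ * t : ℕ) + 1)) + B + (Γ * t : ℕ)) := by
  classical
  have eS : Fin n ≃ Fin n0 ⊕ (Fin Γ × Fin t) := Fintype.equivOfCardEq (by simp [hn])
  have eT : Fin (n+1) ≃ Fin n0 ⊕ Fin (Γ * t + 1) := Fintype.equivOfCardEq (by
    simp [hn]; omega)
  have eW : (Fin t → Bool) ≃ Fin s × Fin R := Fintype.equivOfCardEq (by simp [hW])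
  have α : (Fin n → Bool) ≃ A := Fintype.equivOfCardEq (by simp [hA])
  set r := Γ * t + 1 with hr
  have hnr : n + 1 = n0 + r := by omega
  have hcardX : (Fintype.card (Fin n → Bool) : ℝ) = 2 ^ n := by simp
  have hcardY : (Fintype.card (Fin n0 → Bool) : ℝ) = 2 ^ n0 := by simp
  have h2n : (2:ℝ) ^ n ≠ 0 := by positivity
  have h2n0 : (2:ℝ) ^ n0 ≠ 0 := by positivity
  -- the marginal density
  set a : (Fin n0 → Bool) → ℝ := marg eT A with ha
  have hsumA : ∀ g : (Fin n0 → Bool) → ℝ,
      ∑ z ∈ A, g (res eT z) = 2 ^ n * avg (fun y => a y * g y) := sum_marg eT A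
  obtain ⟨Y, hY1, hY2⟩ := H a (marg_nonneg eT A) (marg_le_two hnr eT A) (by
      have h1 := hsumA (fun _ => 1)
      simp only [mul_one] at h1
      rw [Finset.sum_const, hA, nsmul_eq_mul, mul_one] at h1
      push_cast at h1
      have h2 : (2:ℝ) ^ n * 1 = 2 ^ n * avg a := by rw [mul_one]; exact h1
      exact (mul_left_cancel₀ h2n h2).symm)
  -- the map
  set E := splitS eS eW with hE
  set c : (Fin n → Bool) → (Fin (n+1) → Bool) := fun x => emb eT (Y (E x).2 (E x).1) with hc
  have hsumX : ∀ F : (Fin n0 → Bool) × (Fin Γ → Fin s × Fin R) → ℝ,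
      ∑ x : Fin n → Bool, F (E x) = 2 ^ n * avg (fun y => avg (fun w => F (y, w))) := by
    intro F
    rw [← avg_prod, ← avg_equiv E F, avg_eq_sum_div, hcardX]
    field_simp
  obtain ⟨ψ, hψ⟩ := exists_assignment (X := Fin n → Bool) (Z := Fin (n+1) → Bool)
    (fun z z' => hammingDist z z') (fun z => hammingDist_self z)
    (fun z z' => hammingDist_comm z z') (fun z z' z'' => hammingDist_triangle z z' z'')
    c (fun x => (α x).1) (2 ^ n * (κ + r)) (by
      intro G hG
      set g : (Fin n0 → Bool) → ℝ := fun y => G (emb eT y) with hg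
      have hgl : FLip 1 g := by
        intro i y
        refine (hG _ _).trans ?_
        have h1 : hammingDist (emb eT (flip i y)) (emb eT y) ≤ 1 :=
          (hd_emb eT (flip i y) y).trans (by rw [hammingDist_comm]; exact hd_flip i y)
        exact_mod_cast h1
      have h1 : ∑ x : Fin n → Bool, G (α x).1 = ∑ z ∈ A, G z := by
        rw [Equiv.sum_comp α (fun z : A => G z.1), Finset.sum_coe_sort A G]
      have h2 : ∑ z ∈ A, G z ≤ ∑ z ∈ A, (g (res eT z) + r) := by
        apply Finset.sum_le_sum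
        intro z _
        have h3 := hG z (emb eT (res eT z))
        have h4 : (hammingDist z (emb eT (res eT z)) : ℝ) ≤ r := by exact_mod_cast hd_res eT z
        have h5 := (abs_le.mp (h3.trans h4)).2
        simp only [hg]
        linarith
      rw [Finset.sum_add_distrib, Finset.sum_const, hA, nsmul_eq_mul, hsumA g] at h2
      push_cast at h2
      have h6 : ∑ x : Fin n → Bool, G (c x)
          = 2 ^ n * avg (fun y => avg (fun w => g (Y w y))) :=
        hsumX (fun p => g (Y p.2 p.1))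
      rw [h1, h6]
      have h7 := mul_le_mul_of_nonneg_left (hY1 g hgl) (by positivity : (0:ℝ) ≤ 2 ^ n)
      linarith)
  refine ⟨ψ.trans α, ?_⟩
  -- estimate of the stretch
  set φ : (Fin n → Bool) → (Fin (n+1) → Bool) := fun x => ((ψ.trans α) x).1 with hφ
  have hψ' : ∑ x : Fin n → Bool, (hammingDist (c x) (φ x) : ℝ) ≤ 2 ^ n * (κ + r) := hψ
  have hterm : ∀ (x : Fin n → Bool) (i : Fin n),
      (hammingDist (φ x) (φ (flip i x)) : ℝ)
        ≤ (hammingDist (c x) (φ x) : ℝ) + (hammingDist (c (flip i x)) (φ (flip i x)) : ℝ)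
          + (hammingDist (c x) (c (flip i x)) : ℝ) := by
    intro x i
    have h1 := hammingDist_triangle (φ x) (c x) (φ (flip i x))
    have h2 := hammingDist_triangle (c x) (c (flip i x)) (φ (flip i x))
    rw [hammingDist_comm (φ x) (c x)] at h1
    exact_mod_cast (by omega : hammingDist (φ x) (φ (flip i x))
      ≤ hammingDist (c x) (φ x) + hammingDist (c (flip i x)) (φ (flip i x))
        + hammingDist (c x) (c (flip i x)))
  have hswap : ∑ x : Fin n → Bool, ∑ i : Fin n, (hammingDist (φ x) (φ (flip i x)) : ℝ)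
      = ∑ i : Fin n, ∑ x : Fin n → Bool, (hammingDist (φ x) (φ (flip i x)) : ℝ) :=
    Finset.sum_comm
  have hper : ∀ i : Fin n, ∑ x : Fin n → Bool, (hammingDist (φ x) (φ (flip i x)) : ℝ)
      ≤ 2 * (2 ^ n * (κ + r)) + ∑ x : Fin n → Bool, (hammingDist (c x) (c (flip i x)) : ℝ) := by
    intro i
    refine (Finset.sum_le_sum (fun x _ => hterm x i)).trans ?_
    rw [Finset.sum_add_distrib, Finset.sum_add_distrib]
    have h1 : ∑ x : Fin n → Bool, (hammingDist (c (flip i x)) (φ (flip i x)) : ℝ)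
        = ∑ x : Fin n → Bool, (hammingDist (c x) (φ x) : ℝ) :=
      Equiv.sum_comp (flip_invol i).toPerm (fun x => (hammingDist (c x) (φ x) : ℝ))
    rw [h1]
    linarith
  have hdata : ∀ i : Fin n0, ∑ x : Fin n → Bool,
      (hammingDist (c x) (c (flip (eS.symm (Sum.inl i)) x)) : ℝ) ≤ 2 ^ n * B := by
    intro i
    have h1 : ∀ x : Fin n → Bool, (hammingDist (c x) (c (flip (eS.symm (Sum.inl i)) x)) : ℝ)
        ≤ (fun p : (Fin n0 → Bool) × (Fin Γ → Fin s × Fin R) =>
          (hammingDist (Y p.2 p.1) (Y p.2 (flip i p.1)) : ℝ)) (E x) := by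
      intro x
      simp only [hc]
      rw [hE, splitS_flip]
      exact_mod_cast hd_emb eT _ _
    refine (Finset.sum_le_sum (fun x _ => h1 x)).trans ?_
    refine (le_of_eq (hsumX (fun p =>
      (hammingDist (Y p.2 p.1) (Y p.2 (flip i p.1)) : ℝ)))).trans ?_
    apply mul_le_mul_of_nonneg_left _ (by positivity)
    rw [← avg_const (Ω := Fin n0 → Bool) B]
    exact avg_mono (fun y => hY2 y i)
  have hres : ∀ i : Fin n, ∑ x : Fin n → Bool,
      (hammingDist (c x) (c (flip i x)) : ℝ) ≤ 2 ^ n * n := by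
    intro i
    have h1 : ∀ x : Fin n → Bool, (hammingDist (c x) (c (flip i x)) : ℝ) ≤ n := by
      intro x
      have h2 := hd_emb eT (Y (E x).2 (E x).1) (Y (E (flip i x)).2 (E (flip i x)).1)
      have h3 := hammingDist_le_card_fintype
        (x := Y (E x).2 (E x).1) (y := Y (E (flip i x)).2 (E (flip i x)).1)
      rw [Fintype.card_fin] at h3
      have h4 : hammingDist (c x) (c (flip i x)) ≤ n := by
        simp only [hc]; omega
      exact_mod_cast h4
    refine (Finset.sum_le_sum (fun x _ => h1 x)).trans ?_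
    rw [Finset.sum_const, Finset.card_univ, nsmul_eq_mul, hcardX]
  have hctot : ∑ i : Fin n, ∑ x : Fin n → Bool, (hammingDist (c x) (c (flip i x)) : ℝ)
      ≤ n0 * (2 ^ n * B) + (Γ * t : ℕ) * (2 ^ n * n) := by
    rw [← Equiv.sum_comp eS.symm, Fintype.sum_sum_type]
    apply add_le_add
    · refine (Finset.sum_le_sum (fun i _ => hdata i)).trans ?_
      rw [Finset.sum_const, Finset.card_univ, nsmul_eq_mul, Fintype.card_fin]
    · refine (Finset.sum_le_sum (fun p _ => hres (eS.symm (Sum.inr p)))).trans ?_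
      rw [Finset.sum_const, Finset.card_univ, nsmul_eq_mul, Fintype.card_prod, Fintype.card_fin,
        Fintype.card_fin]
  have hfinal : ∑ x : Fin n → Bool, ∑ i : Fin n, (hammingDist (φ x) (φ (flip i x)) : ℝ)
      ≤ (n * 2 ^ n) * (2 * (κ + ((Γ * t : ℕ) + 1)) + B + (Γ * t : ℕ)) := by
    rw [hswap]
    refine (Finset.sum_le_sum (fun i _ => hper i)).trans ?_
    rw [Finset.sum_add_distrib, Finset.sum_const, Finset.card_univ, nsmul_eq_mul, Fintype.card_fin]
    have hn0n : (n0:ℝ) ≤ n := by exact_mod_cast (by omega : n0 ≤ n)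
    have h1 : (n0:ℝ) * (2 ^ n * B) ≤ n * (2 ^ n * B) :=
      mul_le_mul_of_nonneg_right hn0n (by positivity)
    have h2 : (r:ℝ) = (Γ * t : ℕ) + 1 := by rw [hr]; push_cast; ring
    rw [h2]
    linarith
  exact hfinal

end Pool.Agent.Helper50_Stretch
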