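import Mathlib
import Pool.Agent.Helper50_Stretch.Params
import Pool.Agent.Helper50_Stretch.Reduction
import Pool.Agent.Helper50_Stretch.Core
import Pool.Agent.Helper50_Stretch.Lip

set_option autoImplicit false

namespace Pool.Agent.Helper50_Stretch

/-- bound for the total error -/
theorem errTot_le {T G0 s R ℓ : ℕ} {K η lam δ : ℝ} (hδ1 : δ ≤ 1)
    (hq : ((T * G0 : ℕ) : ℝ) * qerr s R ℓ (lam / (2 * η)) ≤ δ) :
    errTot T G0 s R ℓ K η lam
      ≤ 40 * Real.exp (5 * (1 + K ^ 2 / (4 * η ^ 2))) * δ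
        + ((10 * Real.exp (5 * (1 + K ^ 2 / (4 * η ^ 2))) * (K ^ 2 / (4 * η ^ 2)) + 2) * (K ^ 2 / 4)
          + 5 * Real.exp (5 * (1 + K ^ 2 / (4 * η ^ 2))) * (K ^ 2 / (4 * η ^ 2)) * K ^ 2) / T := by
  unfold errTot
  have hq0 : 0 ≤ ((T * G0 : ℕ) : ℝ) * qerr s R ℓ (lam / (2 * η)) :=
    mul_nonneg (Nat.cast_nonneg _) (qerr_nonneg _ _ _ _)
  set q := ((T * G0 : ℕ) : ℝ) * qerr s R ℓ (lam / (2 * η)) with hqd
  set κ := K ^ 2 / (4 * η ^ 2) with hκ
  have hκ0 : 0 ≤ κ := by rw [hκ]; positivity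
  have hE : Real.exp (5 * (q + κ)) ≤ Real.exp (5 * (1 + κ)) := by
    apply Real.exp_le_exp.mpr; linarith
  have hE0 : 0 < Real.exp (5 * (q + κ)) := Real.exp_pos _
  set E1 := Real.exp (5 * (q + κ)) with hE1
  set E := Real.exp (5 * (1 + κ)) with hE2
  have hEp : 0 < E := Real.exp_pos _
  have hT0 : (0:ℝ) ≤ T := Nat.cast_nonneg _
  have e1 : 40 * E1 * q ≤ 40 * E * δ := by
    apply mul_le_mul (by linarith) hq hq0 (by positivity)
  have e2 : ((10 * E1 * κ + 2) * (K ^ 2 / 4) + 5 * E1 * κ * K ^ 2)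
      ≤ ((10 * E * κ + 2) * (K ^ 2 / 4) + 5 * E * κ * K ^ 2) := by
    have h1 : E1 * κ ≤ E * κ := mul_le_mul_of_nonneg_right hE hκ0
    have h2 : (10 * E1 * κ + 2) * (K ^ 2 / 4) ≤ (10 * E * κ + 2) * (K ^ 2 / 4) :=
      mul_le_mul_of_nonneg_right (by linarith) (by positivity)
    have h3 : 5 * E1 * κ * K ^ 2 ≤ 5 * E * κ * K ^ 2 :=
      mul_le_mul_of_nonneg_right (by linarith) (by positivity)
    linarith
  exact add_le_add e1 (div_le_div_of_nonneg_right e2 hT0)

/-- approximation of a density bounded by `2` by a Lipschitz one bounded below -/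
theorem approx {n n0 : ℕ} {e : ℝ} (he : 0 < e) (he1 : e ≤ 1) (hn : 0 < n) (hn0 : n0 ≤ n)
    (a : (Fin n0 → Bool) → ℝ) (ha0 : ∀ y, 0 ≤ a y) (ha2 : ∀ y, a y ≤ 2) (ha1 : avg a = 1) :
    ∃ f : (Fin n0 → Bool) → ℝ, FLip ((16 / e) / Real.sqrt n) f ∧ (∀ y, e / 8 ≤ f y) ∧
      (∀ y, f y ≤ 2) ∧ avg f = 1 ∧
      ∀ g : (Fin n0 → Bool) → ℝ, FLip 1 g →
        avg (fun y => a y * g y) - avg (fun y => f y * g y) ≤ e * Real.sqrt n / 8 := by
  have hn' : (0:ℝ) < n := by exact_mod_cast hn
  have hsn : 0 < Real.sqrt n := Real.sqrt_pos.mpr hn'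
  have hlam : 0 < (16 / e) / Real.sqrt n := by positivity
  obtain ⟨f0, hf00, hf02, hf0l, hf0s, hf0g⟩ := exists_lip_projection
    (Q := Fin n0 → Bool) (fun y y' => hammingDist y y') a ha0 ha2 ((16 / e) / Real.sqrt n) hlam
  have hf0avg : avg f0 = 1 := by
    rw [← ha1]; unfold avg; rw [hf0s]
  have hcard : (Fintype.card (Fin n0) : ℝ) = n0 := by rw [Fintype.card_fin]
  have hcardY : (0:ℝ) < (Fintype.card (Fin n0 → Bool) : ℝ) := by
    have : 0 < Fintype.card (Fin n0 → Bool) := Fintype.card_pos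
    exact_mod_cast this
  set η := e / 8 with hη
  have hη0 : 0 < η := by positivity
  have hη1 : η ≤ 1 := by rw [hη]; linarith
  refine ⟨fun y => (1 - η) * f0 y + η, ?_, ?_, ?_, ?_, ?_⟩
  · intro i y
    have h1 := hf0l (flip i y) y
    have h2 : (hammingDist (flip i y) y : ℝ) ≤ 1 := by
      have : hammingDist (flip i y) y ≤ 1 := by rw [hammingDist_comm]; exact hd_flip i y
      exact_mod_cast this
    have h3 : |f0 (flip i y) - f0 y| ≤ (16 / e) / Real.sqrt n := by
      refine h1.trans ?_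
      calc (16 / e) / Real.sqrt n * (hammingDist (flip i y) y : ℝ)
          ≤ (16 / e) / Real.sqrt n * 1 := mul_le_mul_of_nonneg_left h2 hlam.le
        _ = _ := mul_one _
    have h4 : (1 - η) * f0 (flip i y) + η - ((1 - η) * f0 y + η)
        = (1 - η) * (f0 (flip i y) - f0 y) := by ring
    rw [h4, abs_mul, abs_of_nonneg (by linarith : (0:ℝ) ≤ 1 - η)]
    calc (1 - η) * |f0 (flip i y) - f0 y| ≤ 1 * ((16 / e) / Real.sqrt n) :=
          mul_le_mul (by linarith) h3 (abs_nonneg _) (by norm_num)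
      _ = _ := one_mul _
  · intro y
    have := mul_nonneg (by linarith : (0:ℝ) ≤ 1 - η) (hf00 y)
    linarith
  · intro y
    have := mul_le_mul_of_nonneg_left (hf02 y) (by linarith : (0:ℝ) ≤ 1 - η)
    linarith
  · rw [avg_add, avg_const_mul, hf0avg, avg_const]; ring
  · intro g hg
    -- first part
    have h1 : avg (fun y => a y * g y) - avg (fun y => f0 y * g y) ≤ e * Real.sqrt n / 16 := by
      have h2 := hf0g g (fun y y' => by
        have := path_lip hg y y'
        rwa [one_mul] at this)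
      have h3 : avg (fun y => a y * g y) - avg (fun y => f0 y * g y)
          = (∑ y, (a y - f0 y) * g y) / Fintype.card (Fin n0 → Bool) := by
        rw [← avg_sub, avg_eq_sum_div]
        congr 1
        apply Finset.sum_congr rfl
        intro y _
        ring
      rw [h3, div_le_iff₀ hcardY]
      refine h2.trans (le_of_eq ?_)
      field_simp
    -- second part
    have h5 := poincare hg
    rw [hcard] at h5
    have h6 : avg (fun y => (f0 y - 1) * (g y - avg g)) ≤ Real.sqrt n / 2 := by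
      have h7 := avg_cauchy (f := fun y => f0 y - 1) (g := fun y => g y - avg g)
      have h8 : avg (fun y => (f0 y - 1) ^ 2) ≤ 1 := by
        have hle : avg (fun y => (f0 y - 1) ^ 2) ≤ avg (fun _ : Fin n0 → Bool => (1:ℝ)) := by
          apply avg_mono
          intro y
          have h9 := hf00 y
          have h10 := hf02 y
          nlinarith
        exact hle.trans (le_of_eq (avg_const 1))
      have h9 : (avg (fun y => (f0 y - 1) * (g y - avg g))) ^ 2 ≤ (Real.sqrt n / 2) ^ 2 := by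
        refine h7.trans ?_
        have h10 : avg (fun y => (g y - avg g) ^ 2) ≤ n / 4 := by
          refine h5.trans ?_
          have : (n0:ℝ) ≤ n := by exact_mod_cast hn0
          linarith
        rw [div_pow, Real.sq_sqrt hn'.le]
        calc avg (fun y => (f0 y - 1) ^ 2) * avg (fun y => (g y - avg g) ^ 2)
            ≤ 1 * (n / 4) := mul_le_mul h8 h10 (avg_nonneg (fun y => sq_nonneg _)) (by norm_num)
          _ = _ := by ring
      exact (abs_le.mp (abs_le_of_sq_le_sq h9 (by positivity))).2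
    have h7 : avg (fun y => f0 y * g y) - avg (fun y => ((1 - η) * f0 y + η) * g y)
        = η * avg (fun y => (f0 y - 1) * (g y - avg g)) := by
      have e1 : ∀ y : Fin n0 → Bool, (f0 y - 1) * (g y - avg g)
          = (f0 y * g y - g y) - (f0 y - 1) * avg g := by intro y; ring
      have e2 : ∀ y : Fin n0 → Bool, ((1 - η) * f0 y + η) * g y
          = f0 y * g y - η * (f0 y * g y - g y) := by intro y; ring
      rw [avg_congr e1, avg_congr e2, avg_sub, avg_sub, avg_sub, avg_mul_const, avg_sub,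
        avg_const_mul, avg_sub, hf0avg, avg_const]
      ring
    have h8 : η * avg (fun y => (f0 y - 1) * (g y - avg g)) ≤ e * Real.sqrt n / 16 := by
      calc η * avg (fun y => (f0 y - 1) * (g y - avg g)) ≤ η * (Real.sqrt n / 2) :=
            mul_le_mul_of_nonneg_left h6 hη0.le
        _ = _ := by rw [hη]; ring
    show avg (fun y => a y * g y) - avg (fun y => ((1 - η) * f0 y + η) * g y) ≤ _
    linarith

theorem main_theorem (ε : ℝ) (hε : 0 < ε) : ∃ N : ℕ, ∀ n : ℕ, N ≤ n →
      ∀ A : Finset (Fin (n + 1) → Bool), A.card = 2 ^ n →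
        ∃ φ : (Fin n → Bool) ≃ A,
          (∑ x : Fin n → Bool, ∑ i : Fin n,
              (hammingDist (φ x).1 (φ (Function.update x i (!x i))).1 : ℝ))
            / ((n : ℝ) * 2 ^ n) ≤ ε * Real.sqrt n := by
  classical
  set e := min ε 1 with he
  have he0 : 0 < e := lt_min hε one_pos
  have he1 : e ≤ 1 := min_le_right _ _
  have heε : e ≤ ε := min_le_left _ _
  set K := 16 / e with hK
  have hK0 : 0 < K := by positivity
  set η := e / 8 with hη
  have hη0 : 0 < η := by positivity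
  set E := Real.exp (5 * (1 + K ^ 2 / (4 * η ^ 2))) with hE
  have hE0 : 0 < E := Real.exp_pos _
  set C := (10 * E * (K ^ 2 / (4 * η ^ 2)) + 2) * (K ^ 2 / 4)
    + 5 * E * (K ^ 2 / (4 * η ^ 2)) * K ^ 2 with hC
  have hC0 : 0 < C := by positivity
  obtain ⟨T0, hT0⟩ := exists_nat_ge (128 * C / e ^ 2)
  set T := T0 + 1 with hT
  have hTpos : 0 < T := Nat.succ_pos _
  have hT' : (0:ℝ) < T := by exact_mod_cast hTpos
  have hCT : C / T ≤ e ^ 2 / 128 := by
    rw [div_le_iff₀ hT']
    have h1 : 128 * C / e ^ 2 ≤ T := by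
      refine hT0.trans ?_
      rw [hT]; push_cast; linarith
    rw [div_le_iff₀ (by positivity)] at h1
    linarith
  set δ := min (min 1 (e / 32)) (e ^ 2 / (128 * (40 * E))) with hδ
  have hδ0 : 0 < δ := by
    refine lt_min (lt_min one_pos (by positivity)) (by positivity)
  have hδ1 : δ ≤ 1 := (min_le_left _ _).trans (min_le_left _ _)
  have hδ2 : δ ≤ e / 32 := (min_le_left _ _).trans (min_le_right _ _)
  have hδ3 : δ ≤ e ^ 2 / (128 * (40 * E)) := min_le_right _ _
  obtain ⟨N1, hN1⟩ := params T hTpos K η δ hK0 hη0 hδ0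
  obtain ⟨N2, hN2⟩ := exists_nat_ge (64 / e ^ 2)
  refine ⟨max N1 N2, ?_⟩
  intro n hn A hA
  have hnN1 : N1 ≤ n := (le_max_left _ _).trans hn
  have hnN2 : N2 ≤ n := (le_max_right _ _).trans hn
  obtain ⟨G0, a, r, ℓ, hG0, hℓ, hTn, hn0, hcap, hp1, hp2, hp3⟩ := hN1 n hnN1
  have hn' : (0:ℝ) < n := by exact_mod_cast hn0
  have hsn : 0 < Real.sqrt n := Real.sqrt_pos.mpr hn'
  have hsq : Real.sqrt n * Real.sqrt n = n := Real.mul_self_sqrt hn'.le
  -- `2 ≤ e √n / 4`
  have hbig : 2 ≤ e * Real.sqrt n / 4 := by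
    have h1 : 64 / e ^ 2 ≤ n := hN2.trans (by exact_mod_cast hnN2)
    have h2 : 8 / e ≤ Real.sqrt n := by
      apply Real.le_sqrt_of_sq_le
      rw [div_pow]
      norm_num
      exact h1
    rw [div_le_iff₀ he0] at h2
    linarith
  have hs1 : 1 ≤ Real.sqrt n := by
    have : (1:ℝ) ≤ n := by exact_mod_cast hn0
    exact Real.one_le_sqrt.mpr this
  set Γ := T * G0 with hΓ
  set t := a + r with ht
  have hΓt : Γ * t ≤ n := by
    have h1 : ((Γ * t : ℕ) : ℝ) ≤ n := by
      refine hp1.trans ?_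
      calc δ * Real.sqrt n ≤ 1 * Real.sqrt n := mul_le_mul_of_nonneg_right hδ1 hsn.le
        _ = 1 * Real.sqrt n := rfl
        _ ≤ Real.sqrt n * Real.sqrt n := mul_le_mul_of_nonneg_right hs1 hsn.le
        _ = n := hsq
    exact_mod_cast h1
  set n0 := n - Γ * t with hn0def
  have hnn0 : n = n0 + Γ * t := by omega
  have hn0n : n0 ≤ n := by omega
  obtain ⟨φ, hφ⟩ := reduction (s := 2 ^ a) (R := 2 ^ r) hnn0 (by rw [ht, pow_add]) A hA
    (3 * e * Real.sqrt n / 16) (δ * Real.sqrt n) (by positivity) (by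
      intro av hav0 hav2 hav1
      obtain ⟨f, hfl, hfη, hf2, hf1, hfg⟩ := approx he0 he1 hn0 hn0n av hav0 hav2 hav1
      have hlam : 0 < K / Real.sqrt n := by positivity
      have hlamn : (K / Real.sqrt n) ^ 2 * n ≤ K ^ 2 := by
        rw [div_pow, Real.sq_sqrt hn'.le]
        exact le_of_eq (by field_simp)
      obtain ⟨Y, hY1, hY2⟩ := core (s := 2 ^ a) (R := 2 ^ r) (T := T) (G0 := G0) (ℓ := ℓ)
        (by positivity) (by positivity) hℓ hG0 hTpos (hn0n.trans hcap) hn0n hTn hK0 hη0 hlam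
        hlamn f hfl hfη hf2 hf1
      refine ⟨Y, ?_, ?_⟩
      · intro g hg
        have h1 := hY1 g hg
        have h2 := hfg g hg
        have h3 : errTot T G0 (2 ^ a) (2 ^ r) ℓ K η (K / Real.sqrt n) ≤ (e / 8) ^ 2 := by
          refine (errTot_le hδ1 hp2).trans ?_
          rw [← hE]
          have h4 : 40 * E * δ ≤ e ^ 2 / 128 := by
            calc 40 * E * δ ≤ 40 * E * (e ^ 2 / (128 * (40 * E))) :=
                  mul_le_mul_of_nonneg_left hδ3 (by positivity)
              _ = e ^ 2 / 128 := by field_simp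
          rw [← hC]
          have h5 : (e / 8) ^ 2 = e ^ 2 / 128 + e ^ 2 / 128 := by ring
          rw [h5]
          exact add_le_add h4 hCT
        have h4 : Real.sqrt (errTot T G0 (2 ^ a) (2 ^ r) ℓ K η (K / Real.sqrt n)) ≤ e / 8 := by
          rw [Real.sqrt_le_left (by positivity)]
          exact h3
        have h5 : Real.sqrt (errTot T G0 (2 ^ a) (2 ^ r) ℓ K η (K / Real.sqrt n))
            * (Real.sqrt n / 2) ≤ e / 8 * (Real.sqrt n / 2) :=
          mul_le_mul_of_nonneg_right h4 (by positivity)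
        have h6 : e / 8 * (Real.sqrt n / 2) = e * Real.sqrt n / 16 := by ring
        linarith
      · intro y i
        exact (hY2 y i).trans hp3)
  refine ⟨φ, ?_⟩
  have hden : (0:ℝ) < (n:ℝ) * 2 ^ n := by positivity
  rw [div_le_iff₀ hden]
  refine hφ.trans ?_
  rw [mul_comm (ε * Real.sqrt n)]
  apply mul_le_mul_of_nonneg_left _ hden.le
  have h1 : δ * Real.sqrt n ≤ e / 32 * Real.sqrt n := mul_le_mul_of_nonneg_right hδ2 hsn.le
  have h2 : e * Real.sqrt n ≤ ε * Real.sqrt n := mul_le_mul_of_nonneg_right heε hsn.le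
  have h3 : 0 ≤ e * Real.sqrt n := by positivity
  have h4 : ((Γ * t : ℕ) : ℝ) ≤ e * Real.sqrt n / 32 := by linarith
  linarith

end Pool.Agent.Helper50_Stretch
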